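import Mathlib
import Pool.Agent.Bisect.QF
import Pool.Agent.Bisect.Balanced
import Pool.Agent.Bisect.Merge

/-!
# Base definitions for the theorem `F(h) = c(h)` for all `h`

`c(h) = min { ∑ ⌊t_i²/4⌋ : ∑ t_i (t_i - 1)/2 ≥ h }`
-/

set_option autoImplicit false

namespace Pool.Agent.BisF

open Finset Pool.Agent.Bisect

/-- `c(h)`: minimum of `∑ ⌊t_i²/4⌋` over lists of naturals with `∑ t_i (t_i-1)/2 ≥ h`. -/
noncomputable def cmin (h : ℕ) : ℕ :=
  sInf {k | ∃ l : List ℕ, h ≤ (l.map fun t => t * (t - 1) / 2).sum ∧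
    (l.map fun t => t * t / 4).sum = k}

/-- surplus weights: symmetric, zero on the diagonal, nonnegative -/
structure Sur {V : Type} (H : V → V → ℤ) : Prop where
  symm : ∀ u v, H u v = H v u
  diag : ∀ v, H v v = 0
  nn : ∀ u v, 0 ≤ H u v

section

variable {V : Type} [Fintype V]

/-- degree of a vertex -/
def dg (H : V → V → ℤ) (x : V) : ℤ := ∑ u, H u x

/-- every balanced sign vector has `- qf H ≤ 2 g` -/
def Bad [DecidableEq V] (H : V → V → ℤ) (g : ℤ) : Prop :=
  ∀ A : Finset V, |∑ v, sg A v| ≤ 1 → - qf H (sg A) ≤ 2 * g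

/-- `a` and `b` are twins -/
def Tw (H : V → V → ℤ) (a b : V) : Prop := ∀ u, H u a = H u b

/-- the induction hypothesis on the number of vertices -/
def IHN (N : ℕ) : Prop := ∀ (V : Type) (_ : Fintype V) (_ : DecidableEq V), Fintype.card V < N →
  ∀ w : V → V → ℤ, (∀ u v, w u v = w v u) → (∀ v, w v v = 0) →
    ∀ h : ℕ, (2 * h : ℤ) ≤ ∑ u, ∑ v, w u v → ∃ A : Finset V, (cmin h : ℤ) ≤ wcut w A

/-- A good involution of the surplus graph (maximum matching with fixed points the free vertices). -/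
structure MI (H : V → V → ℤ) (f : V → V) : Prop where
  inv : ∀ x, f (f x) = x
  pos : ∀ x, f x ≠ x → 1 ≤ H x (f x)
  indep : ∀ a b, f a = a → f b = b → H a b = 0
  F1 : ∀ x a, f x ≠ x → f a = a → H x a ≤ H x (f x)
  F2 : ∀ x a b, f x ≠ x → f a = a → f b = b → a ≠ b → H x a + H (f x) b ≤ H x (f x)
  F2s : ∀ x a b, f x ≠ x → f a = a → f b = b → a ≠ b → 1 ≤ H x a → 1 ≤ H (f x) b →
    H x a + H (f x) b + 1 ≤ H x (f x)
  F3 : ∀ x y, f x ≠ x → f y ≠ y → y ≠ x → y ≠ f x →
    H x y + H (f x) (f y) ≤ H x (f x) + H y (f y)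
  Y : ∀ x y a b, f x ≠ x → f y ≠ y → y ≠ x → y ≠ f x → f a = a → f b = b → a ≠ b →
    1 ≤ H x a → 1 ≤ H y b → H x (f x) = 1 → H y (f y) = 1 → H (f x) (f y) = 0

/-- the structure used by the random cut arguments: `U` a vertex cover of `H`,
`w - d(x)` has nonnegative sum over every set of at least two vertices outside `U`, and the total
sum is at most `Δ`. -/
structure Core [DecidableEq V] (H : V → V → ℤ) (U : Finset V) (w Δ : ℤ) : Prop where
  indep : ∀ a b, a ∉ U → b ∉ U → H a b = 0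
  nonneg : ∀ S : Finset V, Disjoint S U → 2 ≤ S.card → 0 ≤ ∑ x ∈ S, (w - dg H x)
  tot : ∑ x ∈ Uᶜ, (w - dg H x) ≤ Δ

/-- class constraint counter -/
def cnt (n r : ℕ) : ℕ := if r = 0 then n else if r = 1 then n - 2 else n - r

/-- numerical condition under which Lemma A finishes -/
def lemAok (N q κ y ch : ℕ) : Bool :=
  let S := N + y
  let h := N * (N - 1) / 2 + q
  Nat.ble 1 κ && (Nat.ble S (2 * κ + 1) ||
    (Nat.ble (S * (S - 1) / 2 + 1) (h + y) && Nat.ble S (2 * κ + 2 + S % 2)) ||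
    (Nat.ble κ S && Nat.ble ch (κ * (S - κ))) ||
    (Nat.ble (κ + 2) N && Nat.ble (S * (S - 1) + 1) (2 * h + 2 * y + (N - κ)) &&
      Nat.ble ch (min (κ + 1) (S / 2) * (S - min (κ + 1) (S / 2)) +
        (h + y + 1 - S * (S - 1) / 2) / 2)))

end

end Pool.Agent.BisF
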