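import Mathlib
import Pool.Agent.BisF.Base
import Pool.Agent.Bisect.Single

/-!
# Bad graphs

`bad_of_cut`: for a balanced sign vector `τ = sg A`, `|∑ τ| ≤ 1`, `four_wcut` gives
`4 wcut w A = ∑∑ w - qf w τ`. With `w = H + 1` off the diagonal,
`qf w τ = qf H τ + (∑ τ)² - N` and `∑∑ w = 2 q + N (N-1)`, so
`4 wcut w A = 2 q - qf H τ + N² - (∑ τ)²`. Also `(∑ τ)² ≡ N² (mod 4)` and `(∑τ)² ≤ 1`
(`∑ τ = |A| - |Aᶜ|`, `sum_sg`), so `N² - (∑ τ)² = 4 ⌊N²/4⌋`. Hence
`- qf H τ = 4 wcut w A - 4 ⌊N²/4⌋ - 2 q ≤ 2 (2 (K - ⌊N²/4⌋) - q)`.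

`bad_tri`: by `extension` (Bisect/QF.lean) applied to `H` and `y` there is a sign vector `y'` with
`|∑ y'| ≤ 1` and `qf H y' ≤ qf H y`; `y' = sg A` by `sg_surj`. For the parity condition of
`extension` use `zeros_parity` (Bisect/Single.lean): if `|∑ y| = 1` and `N` is odd then the number of
zeros of `y` is even.
-/

set_option autoImplicit false
set_option linter.unusedSectionVars false
set_option linter.unusedVariables false

namespace Pool.Agent.BisF

open Finset Pool.Agent.Bisect

variable {V : Type} [Fintype V] [DecidableEq V]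

theorem bad_of_cut {H w : V → V → ℤ} (hH : Sur H) (hw : ∀ u v, u ≠ v → w u v = H u v + 1)
    (hw0 : ∀ v, w v v = 0) {q K : ℤ} (hq : ∑ u, ∑ v, H u v = 2 * q)
    (hK : ∀ A : Finset V, wcut w A ≤ K) :
    Bad H (2 * (K - (Fintype.card V * Fintype.card V / 4 : ℕ)) - q) := by
  intro A hA
  have hform : ∀ u v, w u v = H u v + 1 - (if u = v then (1:ℤ) else 0) := by
    intro u v
    by_cases h : u = v
    · subst h
      rw [hw0, hH.diag, if_pos rfl]
      ring
    · rw [hw u v h, if_neg h]
      ring
  have hsym : ∀ u v, w u v = w v u := by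
    intro u v
    rw [hform u v, hform v u, hH.symm u v]
    by_cases h : u = v
    · subst h; rfl
    · rw [if_neg h, if_neg (Ne.symm h)]
  have h4 := four_wcut hsym A
  set N : ℕ := Fintype.card V with hN
  set S : ℤ := ∑ v, sg A v with hS
  have hone : ∑ _v : V, (1:ℤ) = (N : ℤ) := by simp [hN]
  have htot : ∑ u, ∑ v, w u v = 2 * q + (N : ℤ) * N - N := by
    have h1 : ∀ u, ∑ v, w u v = ∑ v, H u v + (N : ℤ) - 1 := by
      intro u
      simp_rw [hform]
      rw [Finset.sum_sub_distrib, Finset.sum_add_distrib, hone]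
      simp
    simp_rw [h1]
    rw [Finset.sum_sub_distrib, Finset.sum_add_distrib, hq, hone, Finset.sum_const,
      Finset.card_univ, ← hN]
    simp
  have hqf : qf w (sg A) = qf H (sg A) + S * S - N := by
    unfold qf bil
    have h1 : ∀ u, ∑ v, w u v * sg A u * sg A v
        = ∑ v, H u v * sg A u * sg A v + sg A u * S - 1 := by
      intro u
      have h2 : ∀ v, w u v * sg A u * sg A v = H u v * sg A u * sg A v + sg A u * sg A v
          - (if u = v then sg A u * sg A v else 0) := by
        intro v
        rw [hform u v]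
        by_cases h : u = v
        · rw [if_pos h, if_pos h]; ring
        · rw [if_neg h, if_neg h]; ring
      simp_rw [h2]
      rw [Finset.sum_sub_distrib, Finset.sum_add_distrib, ← Finset.mul_sum]
      simp [sg_sq, hS]
    simp_rw [h1]
    rw [Finset.sum_sub_distrib, Finset.sum_add_distrib, ← Finset.sum_mul, hone]
  have hSc : S = (A.card : ℤ) - (Aᶜ.card : ℤ) := sum_sg A
  have hNc : (A.card : ℤ) + (Aᶜ.card : ℤ) = N := by
    have := Finset.card_add_card_compl A
    rw [hN]
    exact_mod_cast this
  have hfl : (N : ℤ) * N - S * S = 4 * ((N * N / 4 : ℕ) : ℤ) := by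
    have hS3 : S = 0 ∨ S = 1 ∨ S = -1 := by
      have := abs_le.mp hA
      omega
    have hNat : N = A.card + Aᶜ.card := by exact_mod_cast hNc.symm
    set a := A.card
    set b := Aᶜ.card
    rcases hS3 with h | h | h
    · have hab : a = b := by
        have : (a : ℤ) = b := by rw [h] at hSc; linarith
        exact_mod_cast this
      have h2 : N * N / 4 = b * b := by
        rw [hNat, hab]
        have : (b + b) * (b + b) = 4 * (b * b) := by ring
        rw [this]
        exact Nat.mul_div_cancel_left _ (by norm_num)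
      rw [h2, h, hNat, hab]
      push_cast
      ring
    · have hab : a = b + 1 := by
        have : (a : ℤ) = b + 1 := by rw [h] at hSc; linarith
        exact_mod_cast this
      have h2 : N * N / 4 = b * b + b := by
        rw [hNat, hab]
        have : (b + 1 + b) * (b + 1 + b) = 4 * (b * b + b) + 1 := by ring
        rw [this]
        omega
      rw [h2, h, hNat, hab]
      push_cast
      ring
    · have hab : b = a + 1 := by
        have : (b : ℤ) = a + 1 := by rw [h] at hSc; linarith
        exact_mod_cast this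
      have h2 : N * N / 4 = a * a + a := by
        rw [hNat, hab]
        have : (a + (a + 1)) * (a + (a + 1)) = 4 * (a * a + a) + 1 := by ring
        rw [this]
        omega
      rw [h2, h, hNat, hab]
      push_cast
      ring
  have hKA := hK A
  rw [htot, hqf] at h4
  linarith

theorem bad_tri {H : V → V → ℤ} (hH : Sur H) {g : ℤ} (hb : Bad H g) {y : V → ℤ}
    (hy : IsTri y) (hs : ∑ v, y v = 0 ∨ (|∑ v, y v| = 1 ∧ Odd (Fintype.card V))) :
    - qf H y ≤ 2 * g := by
  have hcond : ∑ z, y z = 0 ∨ (|∑ z, y z| = 1 ∧ Even (zeros y).card) := by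
    rcases hs with h | ⟨h1, h2⟩
    · exact Or.inl h
    · right
      refine ⟨h1, ?_⟩
      have hp := zeros_parity hy
      have h3 : ∑ z, y z = 1 ∨ ∑ z, y z = -1 := by
        rcases abs_eq (by norm_num : (0:ℤ) ≤ 1) |>.mp h1 with h | h
        · exact Or.inl h
        · exact Or.inr h
      obtain ⟨k, hk⟩ := h2
      rw [hk] at hp
      obtain ⟨m, hm⟩ := hp
      push_cast at hm
      rw [Nat.even_iff]
      rcases h3 with h | h <;> rw [h] at hm <;> omega
  obtain ⟨y', hy1, hy2, hy3⟩ := extension hH.symm hH.diag hH.nn _ y rfl hy hcond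
  have hA := sg_surj hy1
  have hb' := hb (univ.filter fun v => y' v = 1) (by rw [← hA]; exact hy2)
  rw [← hA] at hb'
  linarith

end Pool.Agent.BisF
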