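import Mathlib
import Pool.Agent.BisF.Base
import Pool.Agent.Bisect.Pairs

/-!
# Families of pairs of maximal weight

`exists_pairs` (Bisect/Pairs.lean) gives a pair `(P, ρ)` with all properties except the last one
(its hypothesis is `hl` for `C = O.filter (lab = l)`). Choose `(P, ρ) : Finset V × (V → V)` with these
properties and `∑_{v∈P} (δ v + δ (ρ v))` maximal (finite type; `Finset.exists_max_image` or
`Set.Finite.exists_maximal...`). Let `v ∈ P`, `x ∈ O`, `x ∉ P`, `x ∉ ρ(P)`. As `lab v ≠ lab (ρ v)`,
`lab x ≠ lab v` or `lab x ≠ lab (ρ v)`.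
* `lab x ≠ lab v`: `ρ' = Function.update ρ v x` with the same `P` is admissible and the weight changes
  by `δ x - δ (ρ v)`, so `δ x ≤ δ (ρ v)`.
* `lab x ≠ lab (ρ v)`: `P' = insert x (P.erase v)`, `ρ' = Function.update ρ x (ρ v)` is admissible
  and the weight changes by `δ x - δ v`, so `δ x ≤ δ v`.
-/

set_option autoImplicit false
set_option linter.unusedSectionVars false
set_option linter.unusedVariables false

namespace Pool.Agent.BisF

open Finset Pool.Agent.Bisect

variable {V : Type} [Fintype V] [DecidableEq V]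

theorem pairs_family {L : Type} (lab : V → L) (δ : V → ℤ) (K : ℕ) (O : Finset V)
    (hO : 2 * K ≤ O.card)
    (hl : ∀ l : L, ∀ C ⊆ O, (∀ v ∈ C, lab v = l) → C.card + K ≤ O.card) :
    ∃ (P : Finset V) (ρ : V → V), P.card = K ∧ P ⊆ O ∧ (∀ v ∈ P, ρ v ∈ O) ∧
      Set.InjOn ρ P ∧ (∀ v ∈ P, ρ v ∉ P) ∧ (∀ v ∈ P, lab v ≠ lab (ρ v)) ∧
      ∀ v ∈ P, ∀ x ∈ O, x ∉ P → (∀ u ∈ P, ρ u ≠ x) → δ x ≤ max (δ v) (δ (ρ v)) := by
  classical
  let S : Finset (Finset V × (V → V)) := Finset.univ.filter fun q =>
    q.1.card = K ∧ q.1 ⊆ O ∧ (∀ v ∈ q.1, q.2 v ∈ O) ∧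
      Set.InjOn q.2 q.1 ∧ (∀ v ∈ q.1, q.2 v ∉ q.1) ∧ (∀ v ∈ q.1, lab v ≠ lab (q.2 v))
  have hSne : S.Nonempty := by
    obtain ⟨P, g, h1, h2, h3, h4, h5, h6⟩ := exists_pairs lab K O hO (by
      intro l
      have := hl l (O.filter fun v => lab v = l) (Finset.filter_subset _ _)
        (fun v hv => (Finset.mem_filter.mp hv).2)
      convert this)
    exact ⟨(P, g), Finset.mem_filter.mpr ⟨Finset.mem_univ _, h1, h2, h3, h4, h5, h6⟩⟩
  obtain ⟨⟨P, ρ⟩, hq, hmax⟩ := Finset.exists_max_image S
    (fun q => ∑ v ∈ q.1, (δ v + δ (q.2 v))) hSne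
  obtain ⟨-, h1, h2, h3, h4, h5, h6⟩ := Finset.mem_filter.mp hq
  dsimp only at h1 h2 h3 h4 h5 h6 hmax
  refine ⟨P, ρ, h1, h2, h3, h4, h5, h6, ?_⟩
  intro v hv x hx hxP hxρ
  have hxv : x ≠ v := fun h => hxP (h ▸ hv)
  by_cases hlab : lab x = lab v
  · -- exchange `v` by `x`
    have hlx : lab x ≠ lab (ρ v) := fun h => h6 v hv (hlab.symm.trans h)
    have hxE : x ∉ P.erase v := fun h => hxP (Finset.mem_of_mem_erase h)
    have hup : ∀ u ∈ P.erase v, Function.update ρ x (ρ v) u = ρ u := by
      intro u hu
      refine Function.update_of_ne ?_ _ _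
      rintro rfl
      exact hxP (Finset.mem_of_mem_erase hu)
    have hupx : Function.update ρ x (ρ v) x = ρ v := Function.update_self _ _ _
    have hmem : (insert x (P.erase v), Function.update ρ x (ρ v)) ∈ S := by
      refine Finset.mem_filter.mpr ⟨Finset.mem_univ _, ?_, ?_, ?_, ?_, ?_, ?_⟩
      · show (insert x (P.erase v)).card = K
        rw [Finset.card_insert_of_notMem hxE, Finset.card_erase_of_mem hv, h1]
        have : 0 < P.card := Finset.card_pos.mpr ⟨v, hv⟩
        omega
      · show insert x (P.erase v) ⊆ O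
        exact Finset.insert_subset hx ((Finset.erase_subset _ _).trans h2)
      · show ∀ u ∈ insert x (P.erase v), Function.update ρ x (ρ v) u ∈ O
        intro u hu
        rcases Finset.mem_insert.mp hu with rfl | hu
        · rw [hupx]; exact h3 v hv
        · rw [hup u hu]; exact h3 u (Finset.mem_of_mem_erase hu)
      · show Set.InjOn (Function.update ρ x (ρ v)) (insert x (P.erase v) : Finset V)
        intro a ha b hb hab
        rcases Finset.mem_insert.mp (Finset.mem_coe.mp ha) with rfl | ha'
        · rcases Finset.mem_insert.mp (Finset.mem_coe.mp hb) with rfl | hb'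
          · rfl
          · rw [hupx, hup b hb'] at hab
            exact absurd (h4 hv (Finset.mem_of_mem_erase hb') hab).symm (Finset.ne_of_mem_erase hb')
        · rcases Finset.mem_insert.mp (Finset.mem_coe.mp hb) with rfl | hb'
          · rw [hupx, hup a ha'] at hab
            exact absurd (h4 (Finset.mem_of_mem_erase ha') hv hab) (Finset.ne_of_mem_erase ha')
          · rw [hup a ha', hup b hb'] at hab
            exact h4 (Finset.mem_of_mem_erase ha') (Finset.mem_of_mem_erase hb') hab
      · show ∀ u ∈ insert x (P.erase v), Function.update ρ x (ρ v) u ∉ insert x (P.erase v)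
        intro u hu
        rcases Finset.mem_insert.mp hu with rfl | hu
        · rw [hupx, Finset.mem_insert, not_or]
          exact ⟨hxρ v hv, fun h => h5 v hv (Finset.mem_of_mem_erase h)⟩
        · rw [hup u hu, Finset.mem_insert, not_or]
          exact ⟨hxρ u (Finset.mem_of_mem_erase hu),
            fun h => h5 u (Finset.mem_of_mem_erase hu) (Finset.mem_of_mem_erase h)⟩
      · show ∀ u ∈ insert x (P.erase v), lab u ≠ lab (Function.update ρ x (ρ v) u)
        intro u hu
        rcases Finset.mem_insert.mp hu with rfl | hu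
        · rw [hupx]; exact hlx
        · rw [hup u hu]; exact h6 u (Finset.mem_of_mem_erase hu)
    have hle := hmax _ hmem
    dsimp only at hle
    rw [Finset.sum_insert hxE, hupx] at hle
    have e1 : ∑ u ∈ P.erase v, (δ u + δ (Function.update ρ x (ρ v) u))
        = ∑ u ∈ P.erase v, (δ u + δ (ρ u)) :=
      Finset.sum_congr rfl fun u hu => by rw [hup u hu]
    rw [e1] at hle
    have e2 := Finset.add_sum_erase P (fun u => δ u + δ (ρ u)) hv
    have : δ x ≤ δ v := by linarith
    exact this.trans (le_max_left _ _)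
  · -- exchange `ρ v` by `x`
    have hup : ∀ u ∈ P, u ≠ v → Function.update ρ v x u = ρ u := by
      intro u _ hne
      exact Function.update_of_ne hne _ _
    have hupv : Function.update ρ v x v = x := Function.update_self _ _ _
    have hmem : (P, Function.update ρ v x) ∈ S := by
      refine Finset.mem_filter.mpr ⟨Finset.mem_univ _, h1, h2, ?_, ?_, ?_, ?_⟩
      · show ∀ u ∈ P, Function.update ρ v x u ∈ O
        intro u hu
        by_cases h : u = v
        · rw [h, hupv]; exact hx
        · rw [hup u hu h]; exact h3 u hu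
      · show Set.InjOn (Function.update ρ v x) P
        intro a ha b hb hab
        have ha' := Finset.mem_coe.mp ha
        have hb' := Finset.mem_coe.mp hb
        by_cases h : a = v
        · by_cases h' : b = v
          · rw [h, h']
          · rw [h, hupv, hup b hb' h'] at hab
            exact absurd hab.symm (hxρ b hb')
        · by_cases h' : b = v
          · rw [h', hupv, hup a ha' h] at hab
            exact absurd hab (hxρ a ha')
          · rw [hup a ha' h, hup b hb' h'] at hab
            exact h4 ha hb hab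
      · show ∀ u ∈ P, Function.update ρ v x u ∉ P
        intro u hu
        by_cases h : u = v
        · rw [h, hupv]; exact hxP
        · rw [hup u hu h]; exact h5 u hu
      · show ∀ u ∈ P, lab u ≠ lab (Function.update ρ v x u)
        intro u hu
        by_cases h : u = v
        · rw [h, hupv]; exact fun h' => hlab h'.symm
        · rw [hup u hu h]; exact h6 u hu
    have hle := hmax _ hmem
    dsimp only at hle
    have e1 := Finset.add_sum_erase P (fun u => δ u + δ (Function.update ρ v x u)) hv
    have e2 := Finset.add_sum_erase P (fun u => δ u + δ (ρ u)) hv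
    simp only [hupv] at e1
    have e3 : ∑ u ∈ P.erase v, (δ u + δ (Function.update ρ v x u))
        = ∑ u ∈ P.erase v, (δ u + δ (ρ u)) :=
      Finset.sum_congr rfl fun u hu => by
        rw [hup u (Finset.mem_of_mem_erase hu) (Finset.ne_of_mem_erase hu)]
    rw [e3] at e1
    have : δ x ≤ δ (ρ v) := by linarith
    exact this.trans (le_max_right _ _)

end Pool.Agent.BisF
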