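import Mathlib
import Pool.Agent.BisF.Base
import Pool.Agent.BisF.BadTri
import Pool.Agent.Bisect.Pairs

/-!
# The random cut

For every `A : Finset V` let `s u = sg A u` for `u ∈ U`, `T = ∑_{u∈U} s u` (even, `|T| ≤ |U| ≤ |Q|`) and
`L x = ∑_{u∈U} H u x * s u` for `x ∉ U`. Choose `X ⊆ Q` with `2 |X| = |Q| - T` and
`|Q| ∑_{x∈X} L x ≤ |X| ∑_{x∈Q} L x` (elementary lemma: for every `m ≤ |Q|` there is such an `X` of
size `m`; induction: remove a largest element). Let `y₁ = s` on `U`, `1` on `X`, `-1` on `Q \ X`, `0`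
elsewhere: `∑ y₁ = 0` and, `H` being `0` on `Uᶜ × Uᶜ`,
`qf H y₁ = ∑_{u,u'∈U} H u u' s u s u' + 2 (2 ∑_X L - ∑_Q L)`, so
`|Q| qf H y₁ ≤ |Q| ∑_{u,u'∈U} H u u' s u s u' - 2 T ∑_Q L`.
Now add the pairs `v, ρ v` (`v ∈ P`, `add_pair`) and the vertices of `Z` (`exists_sign`):
`bil H y (ee v - ee (ρ v)) = L v - L (ρ v)` for all the intermediate `y` (only the part on `U`
matters, as `H = 0` outside), so the final `y` has
`qf H y ≤ qf H y₁ - 2 ∑_{v∈P} |L v - L (ρ v)| - 2 ∑_{z∈Z} |L z|`, `IsTri y`, `∑ y = 0` or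
(`Z` a singleton, `N` odd) `|∑ y| = 1`. By `bad_tri`, `- qf H y ≤ 2 g`, hence for every `A`
`2 g |Q| ≥ - |Q| ∑_{U×U} H s s + 2 T ∑_Q L + 2 |Q| (∑_P |L v - L (ρ v)| + ∑_Z |L z|)`.
Sum over all `A : Finset V` (`M = card (Finset V) > 0` of them), with `sum_sg_mul_ne`, `sum_sg_mul_self`
(Bisect/Pairs.lean): the first term gives `0` (`H u u = 0`), the second
`2 M ∑_{x∈Q} ∑_{u∈U} H u x = 2 M ∑_{x∈Q} dg H x` (`H u x = 0` for `u ∉ U`), and by `sum_abs_ge`
`∑_A |L v - L (ρ v)| ≥ M` (some `u` with `H u v ≠ H u (ρ v)`, necessarily `u ∈ U`),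
`∑_A |L z| ≥ M` (some `u ∈ U` with `H u z ≠ 0`, as `dg H z ≥ 1`). Divide by `2 M`.
-/

set_option autoImplicit false
set_option linter.unusedSectionVars false
set_option linter.unusedVariables false

namespace Pool.Agent.BisF

open Finset Pool.Agent.Bisect

variable {V : Type} [Fintype V] [DecidableEq V]

namespace RandCutAux

lemma ne_sum {z z' : V} (h : z ≠ z') : ∑ A : Finset V, sg A z * sg A z' = 0 := by
  have key : ∀ d : DecidableEq V, ∑ A : Finset V, @sg V d A z * @sg V d A z' = 0 := by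
    intro d
    have hd : d = fun a b => Classical.propDecidable (a = b) := Subsingleton.elim _ _
    subst hd
    exact sum_sg_mul_ne h
  exact key _

lemma self_sum (z : V) : ∑ A : Finset V, sg A z * sg A z = (Fintype.card (Finset V) : ℤ) := by
  have key : ∀ d : DecidableEq V,
      ∑ A : Finset V, @sg V d A z * @sg V d A z = (Fintype.card (Finset V) : ℤ) := by
    intro d
    have hd : d = fun a b => Classical.propDecidable (a = b) := Subsingleton.elim _ _
    subst hd
    exact sum_sg_mul_self z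
  exact key _

lemma abs_ge {W : Finset V} {c : V → ℤ} {z0 : V} (hz : z0 ∈ W) (hc : c z0 ≠ 0) :
    (Fintype.card (Finset V) : ℤ) ≤ ∑ A : Finset V, |∑ z ∈ W, sg A z * c z| := by
  have key : ∀ d : DecidableEq V,
      (Fintype.card (Finset V) : ℤ) ≤ ∑ A : Finset V, |∑ z ∈ W, @sg V d A z * c z| := by
    intro d
    have hd : d = fun a b => Classical.propDecidable (a = b) := Subsingleton.elim _ _
    subst hd
    exact sum_abs_ge hz hc
  exact key _

/-- a subset of size `m` with a small sum -/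
lemma exists_low (L : V → ℤ) (m k : ℕ) : ∀ Q : Finset V, Q.card = m + k →
    ∃ X : Finset V, X ⊆ Q ∧ X.card = m ∧
      (Q.card : ℤ) * ∑ x ∈ X, L x ≤ (m : ℤ) * ∑ x ∈ Q, L x := by
  induction k with
  | zero =>
    intro Q hQ
    exact ⟨Q, subset_rfl, by simpa using hQ, by rw [hQ]; simp⟩
  | succ k ih =>
    intro Q hQ
    have hne : Q.Nonempty := by
      rw [← Finset.card_pos]; omega
    obtain ⟨q, hq, hmax⟩ := Finset.exists_max_image Q L hne
    have hcard : (Q.erase q).card = m + k := by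
      rw [Finset.card_erase_of_mem hq]; omega
    obtain ⟨X, hX, hXc, hXs⟩ := ih (Q.erase q) hcard
    refine ⟨X, hX.trans (Finset.erase_subset _ _), hXc, ?_⟩
    have hsum : ∑ x ∈ Q, L x = L q + ∑ x ∈ Q.erase q, L x :=
      (Finset.add_sum_erase Q L hq).symm
    have hle : ∑ x ∈ Q.erase q, L x ≤ ((Q.erase q).card : ℤ) * L q := by
      have := Finset.sum_le_card_nsmul (Q.erase q) L (L q)
        (fun x hx => hmax x (Finset.mem_of_mem_erase hx))
      simpa [nsmul_eq_mul] using this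
    have hQc : (Q.card : ℤ) = ((Q.erase q).card : ℤ) + 1 := by
      rw [hQ, hcard]; push_cast; ring
    rcases Nat.eq_zero_or_pos (m + k) with h0 | hpos
    · have hm : m = 0 := by omega
      subst hm
      have : X = ∅ := Finset.card_eq_zero.mp hXc
      rw [this]; simp
    · have hp : (0 : ℤ) < ((Q.erase q).card : ℤ) := by rw [hcard]; exact_mod_cast hpos
      have hm0 : (0 : ℤ) ≤ (m : ℤ) := by positivity
      rw [hsum, hQc]
      set n : ℤ := ((Q.erase q).card : ℤ) with hn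
      set a : ℤ := ∑ x ∈ X, L x
      set b : ℤ := ∑ x ∈ Q.erase q, L x
      refine le_of_mul_le_mul_left ?_ hp
      have h1 : (n + 1) * (n * a) ≤ (n + 1) * ((m : ℤ) * b) :=
        mul_le_mul_of_nonneg_left hXs (by linarith)
      have h2 : (m : ℤ) * b ≤ (m : ℤ) * (n * L q) := mul_le_mul_of_nonneg_left hle hm0
      nlinarith

/-- adding pairs, weighted version -/
lemma add_pairs' {w : V → V → ℤ} (hw : ∀ u v, w u v = w v u) (h0 : ∀ v, w v v = 0)
    (hpos : ∀ u v, 0 ≤ w u v) {W : Finset V}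
    (hW : ∀ u, u ∉ W → ∀ v, v ∉ W → w u v = 0) (g : V → V)
    (P : Finset V) : ∀ x : V → ℤ, IsTri x → (∀ v ∈ P, v ∉ W) → (∀ v ∈ P, g v ∉ W) →
    Set.InjOn g P → (∀ v ∈ P, g v ∉ P) → (∀ v ∈ P, x v = 0) → (∀ v ∈ P, x (g v) = 0) →
    ∃ y : V → ℤ, IsTri y ∧ ∑ v, y v = ∑ v, x v ∧
      (∀ z, z ∉ P → (∀ v ∈ P, g v ≠ z) → y z = x z) ∧
      qf w y ≤ qf w x
        - 2 * ∑ v ∈ P, |bil w x (ee v + (-1 : ℤ) • ee (g v))| := by
  induction P using Finset.induction_on with
  | empty =>
    intro x hx _ _ _ _ _ _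
    exact ⟨x, hx, rfl, fun _ _ _ => rfl, by simp⟩
  | insert a P ha ih =>
    intro x hx h1 h2 h3 h4 h5 h6
    have haP : a ∈ insert a P := Finset.mem_insert_self _ _
    have hag : a ≠ g a := fun h => h4 a haP (h ▸ haP)
    obtain ⟨y, y1, y2, _, _, y5, y6⟩ :=
      add_pair hw h0 hx hag (h5 a haP) (h6 a haP)
    have hbil : ∀ z, z ∉ W → bil w y (ee z) = bil w x (ee z) := by
      intro z hz
      rw [bil_ee_right, bil_ee_right]
      refine Finset.sum_congr rfl fun u _ => ?_
      by_cases hu : u = a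
      · rw [hu, hW a (h1 a haP) z hz]; ring
      · by_cases hu' : u = g a
        · rw [hu', hW _ (h2 a haP) z hz]; ring
        · rw [y2 u hu hu']
    have hsub : P ⊆ insert a P := Finset.subset_insert _ _
    obtain ⟨y', z1, z2, z2', z3⟩ := ih y y1 (fun v hv => h1 v (hsub hv))
      (fun v hv => h2 v (hsub hv))
      (h3.mono (by exact_mod_cast hsub))
      (fun v hv h => h4 v (hsub hv) (hsub h))
      (by
        intro v hv
        have e1 : v ≠ a := fun h => ha (h ▸ hv)
        have e2 : v ≠ g a := fun h => h4 a haP (hsub (h ▸ hv))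
        rw [y2 v e1 e2]
        exact h5 v (hsub hv))
      (by
        intro v hv
        have e1 : g v ≠ a := fun h => h4 v (hsub hv) (h ▸ haP)
        have e2 : g v ≠ g a := fun h => by
          have := h3 (by exact_mod_cast hsub hv) (by exact_mod_cast haP) h
          exact ha (this ▸ hv)
        rw [y2 _ e1 e2]
        exact h6 v (hsub hv))
    refine ⟨y', z1, z2.trans y5, ?_, z3.trans ?_⟩
    · intro z hz hgz
      rw [z2' z (fun h => hz (hsub h)) (fun v hv => hgz v (hsub hv))]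
      exact y2 z (fun h => hz (h ▸ haP)) (fun h => hgz a haP h.symm)
    rw [Finset.sum_insert ha]
    have e3 : ∑ v ∈ P, |bil w y (ee v + (-1 : ℤ) • ee (g v))|
        = ∑ v ∈ P, |bil w x (ee v + (-1 : ℤ) • ee (g v))| := by
      refine Finset.sum_congr rfl fun v hv => ?_
      rw [bil_add_right, bil_add_right, bil_smul_right, bil_smul_right,
        hbil v (h1 v (hsub hv)), hbil _ (h2 v (hsub hv))]
    rw [e3]
    have := hpos a (g a)
    linarith

/-- the linear form -/
def LL (H : V → V → ℤ) (U : Finset V) (A : Finset V) (x : V) : ℤ := ∑ u ∈ U, sg A u * H u x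

/-- the starting vector -/
def y1 (U Q X A : Finset V) (x : V) : ℤ :=
  if x ∈ U then sg A x else if x ∈ X then 1 else if x ∈ Q then -1 else 0

lemma y1_tri (U Q X A : Finset V) : IsTri (y1 U Q X A) := by
  intro v
  unfold y1
  split_ifs
  · exact Or.inr (sg_isSign A v)
  · simp
  · simp
  · simp

lemma y1_sum {U Q X : Finset V} (A : Finset V) (hQU : Disjoint Q U) (hX : X ⊆ Q) :
    ∑ v, y1 U Q X A v = ∑ u ∈ U, sg A u + 2 * (X.card : ℤ) - Q.card := by
  have h : ∀ v, y1 U Q X A v = (if v ∈ U then sg A v else 0) +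
      2 * (if v ∈ X then 1 else 0) - (if v ∈ Q then 1 else 0) := by
    intro v
    unfold y1
    by_cases h1 : v ∈ U
    · have h2 : v ∉ Q := fun h => Finset.disjoint_left.mp hQU h h1
      have h3 : v ∉ X := fun h => h2 (hX h)
      simp [h1, h2, h3]
    · by_cases h3 : v ∈ X
      · have h2 : v ∈ Q := hX h3
        simp [h1, h2, h3]
      · by_cases h2 : v ∈ Q
        · simp [h1, h2, h3]
        · simp [h1, h2, h3]
  simp only [h, Finset.sum_add_distrib, Finset.sum_sub_distrib, ← Finset.mul_sum]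
  simp

/-- for a vector equal to `sg A` on `U` -/
lemma bil_ee_eq {H : V → V → ℤ} {U : Finset V} (hind : ∀ a b, a ∉ U → b ∉ U → H a b = 0)
    {A : Finset V} {y : V → ℤ} (hy : ∀ u ∈ U, y u = sg A u) {v : V} (hv : v ∉ U) :
    bil H y (ee v) = LL H U A v := by
  rw [bil_ee_right]
  unfold LL
  rw [← Finset.sum_subset (Finset.subset_univ U)]
  · exact Finset.sum_congr rfl fun u hu => by rw [hy u hu]; ring
  · intro u _ hu
    rw [hind u v hu hv]; ring

lemma qf_y1 {H : V → V → ℤ} (hH : Sur H) {U Q X : Finset V}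
    (hind : ∀ a b, a ∉ U → b ∉ U → H a b = 0) (A : Finset V) (hQU : Disjoint Q U) (hX : X ⊆ Q) :
    qf H (y1 U Q X A) = ∑ u ∈ U, ∑ v ∈ U, H u v * sg A u * sg A v
      + 2 * (2 * ∑ x ∈ X, LL H U A x - ∑ x ∈ Q, LL H U A x) := by
  -- split the vector
  set a : V → ℤ := fun v => if v ∈ U then sg A v else 0 with ha
  set b : V → ℤ := fun v => 2 * (if v ∈ X then 1 else 0) - (if v ∈ Q then 1 else 0) with hb
  have hab : y1 U Q X A = a + b := by
    funext v
    simp only [Pi.add_apply, ha, hb]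
    unfold y1
    by_cases h1 : v ∈ U
    · have h2 : v ∉ Q := fun h => Finset.disjoint_left.mp hQU h h1
      have h3 : v ∉ X := fun h => h2 (hX h)
      simp [h1, h2, h3]
    · by_cases h3 : v ∈ X
      · have h2 : v ∈ Q := hX h3
        simp [h1, h2, h3]
      · by_cases h2 : v ∈ Q
        · simp [h1, h2, h3]
        · simp [h1, h2, h3]
  have hbU : ∀ v ∈ U, b v = 0 := by
    intro v h1
    have h2 : v ∉ Q := fun h => Finset.disjoint_left.mp hQU h h1
    have h3 : v ∉ X := fun h => h2 (hX h)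
    simp [hb, h2, h3]
  rw [hab, qf_add hH.symm]
  have e1 : qf H a = ∑ u ∈ U, ∑ v ∈ U, H u v * sg A u * sg A v := by
    unfold qf bil
    rw [← Finset.sum_subset (Finset.subset_univ U)]
    · refine Finset.sum_congr rfl fun u hu => ?_
      rw [← Finset.sum_subset (Finset.subset_univ U)]
      · refine Finset.sum_congr rfl fun v hv => ?_
        simp [ha, hu, hv]
      · intro v _ hv
        simp [ha, hv]
    · intro u _ hu
      refine Finset.sum_eq_zero fun v _ => ?_
      simp [ha, hu]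
  have e2 : qf H b = 0 := by
    unfold qf bil
    refine Finset.sum_eq_zero fun u _ => Finset.sum_eq_zero fun v _ => ?_
    by_cases hu : u ∈ U
    · rw [hbU u hu]; ring
    · by_cases hv : v ∈ U
      · rw [hbU v hv]; ring
      · rw [hind u v hu hv]; ring
  have e3 : bil H a b = 2 * ∑ x ∈ X, LL H U A x - ∑ x ∈ Q, LL H U A x := by
    unfold bil
    rw [Finset.sum_comm]
    have h1 : ∀ v, ∑ u, H u v * a u * b v = LL H U A v * b v := by
      intro v
      unfold LL
      rw [← Finset.sum_mul]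
      congr 1
      rw [← Finset.sum_subset (Finset.subset_univ U)]
      · exact Finset.sum_congr rfl fun u hu => by simp [ha, hu]; ring
      · intro u _ hu
        simp [ha, hu]
    simp only [h1]
    have h2 : ∀ v, LL H U A v * b v = 2 * (if v ∈ X then LL H U A v else 0)
        - (if v ∈ Q then LL H U A v else 0) := by
      intro v
      simp only [hb]
      split_ifs <;> ring
    simp only [h2, Finset.sum_sub_distrib, ← Finset.mul_sum]
    simp
  rw [e1, e2, e3]
  ring

/-- the inequality for one `A` -/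
lemma per_A {H : V → V → ℤ} (hH : Sur H) {g : ℤ} (hb : Bad H g) {U Q : Finset V}
    (hUe : Even U.card) (hind : ∀ a b, a ∉ U → b ∉ U → H a b = 0)
    (hQU : Disjoint Q U) (hQe : Even Q.card) (hQ : U.card ≤ Q.card)
    {P : Finset V} {ρ : V → V} (hPQ : Disjoint P Q) (hPU : Disjoint P U)
    (hρQ : ∀ v ∈ P, ρ v ∉ Q ∧ ρ v ∉ U ∧ ρ v ∉ P) (hρi : Set.InjOn ρ P)
    {Z : Finset V} (hZ : Z.card ≤ 1) (hZodd : Z.card = 1 → Odd (Fintype.card V))
    (hZd : ∀ z ∈ Z, z ∉ U ∧ z ∉ Q ∧ z ∉ P ∧ (∀ v ∈ P, ρ v ≠ z) ∧ 1 ≤ dg H z)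
    (A : Finset V) :
    - ((Q.card : ℤ) * ∑ u ∈ U, ∑ v ∈ U, H u v * sg A u * sg A v)
      + 2 * (∑ u ∈ U, sg A u) * ∑ x ∈ Q, LL H U A x
      + 2 * (Q.card : ℤ) * (∑ v ∈ P, |LL H U A v - LL H U A (ρ v)| + ∑ z ∈ Z, |LL H U A z|)
      ≤ 2 * g * Q.card := by
  -- parity and size of T
  set T : ℤ := ∑ u ∈ U, sg A u with hT
  have hTle : |T| ≤ U.card := by
    calc |T| ≤ ∑ u ∈ U, |sg A u| := Finset.abs_sum_le_sum_abs _ _
      _ = ∑ u ∈ U, 1 := Finset.sum_congr rfl fun u _ => by
          rcases sg_isSign A u with h | h <;> rw [h] <;> norm_num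
      _ = U.card := by simp
  have hTpar : Even (T - U.card) := by
    have : T - U.card = ∑ u ∈ U, (sg A u - 1) := by
      rw [Finset.sum_sub_distrib]; simp [hT]
    rw [this]
    refine Finset.even_sum _ fun u _ => ?_
    rcases sg_isSign A u with h | h <;> rw [h]
    · exact ⟨0, by norm_num⟩
    · exact ⟨-1, by norm_num⟩
  have hTe : Even T := by
    have h1 : Even ((U.card : ℕ) : ℤ) := by exact_mod_cast hUe
    have := hTpar.add h1
    simpa using this
  have hQZ : Even ((Q.card : ℕ) : ℤ) := by exact_mod_cast hQe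
  obtain ⟨r, hr⟩ := hQZ.sub hTe
  have hQU' : ((U.card : ℕ) : ℤ) ≤ Q.card := by exact_mod_cast hQ
  have habs := abs_le.mp hTle
  have hr0 : 0 ≤ r := by linarith
  have hrQ : r ≤ Q.card := by linarith
  obtain ⟨m, hm⟩ := Int.eq_ofNat_of_zero_le hr0
  have hmQ : m ≤ Q.card := by
    have : ((m : ℕ) : ℤ) ≤ Q.card := by rw [← hm]; exact hrQ
    exact_mod_cast this
  obtain ⟨X, hXQ, hXc, hXs⟩ := exists_low (LL H U A) m (Q.card - m) Q (by omega)
  have h2m : 2 * (m : ℤ) = Q.card - T := by rw [← hm]; linarith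
  -- the starting vector
  have hsum0 : ∑ v, y1 U Q X A v = 0 := by
    rw [y1_sum A hQU hXQ, hXc]; linarith
  have hyU : ∀ u ∈ U, y1 U Q X A u = sg A u := fun u hu => by simp [y1, hu]
  have hy0 : ∀ v, v ∉ U → v ∉ Q → y1 U Q X A v = 0 := by
    intro v h1 h2
    have h3 : v ∉ X := fun h => h2 (hXQ h)
    simp [y1, h1, h2, h3]
  obtain ⟨y, ya, yb, yc, yd⟩ := add_pairs' hH.symm hH.diag hH.nn
    (W := U) (fun u hu v hv => hind u v hu hv) ρ P (y1 U Q X A) (y1_tri U Q X A)
    (fun v hv h => Finset.disjoint_left.mp hPU hv h) (fun v hv => (hρQ v hv).2.1) hρi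
    (fun v hv => (hρQ v hv).2.2)
    (fun v hv => hy0 v (fun h => Finset.disjoint_left.mp hPU hv h)
      (fun h => Finset.disjoint_left.mp hPQ hv h))
    (fun v hv => hy0 _ (hρQ v hv).2.1 (hρQ v hv).1)
  have hyU' : ∀ u ∈ U, y u = sg A u := by
    intro u hu
    rw [yc u (fun h => Finset.disjoint_left.mp hPU h hu)
      (fun v hv h => (hρQ v hv).2.1 (h ▸ hu))]
    exact hyU u hu
  -- add the vertices of Z
  obtain ⟨y', za, zb, zc⟩ : ∃ y' : V → ℤ, IsTri y' ∧
      (∑ v, y' v = 0 ∨ (|∑ v, y' v| = 1 ∧ Odd (Fintype.card V))) ∧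
      qf H y' ≤ qf H y - 2 * ∑ z ∈ Z, |LL H U A z| := by
    rcases Nat.lt_or_ge Z.card 1 with h | h
    · have hZ0 : Z = ∅ := Finset.card_eq_zero.mp (by omega)
      refine ⟨y, ya, Or.inl (yb.trans hsum0), ?_⟩
      rw [hZ0]; simp
    · have hZ1 : Z.card = 1 := le_antisymm hZ h
      obtain ⟨z, hz⟩ := Finset.card_eq_one.mp hZ1
      have hzZ : z ∈ Z := by rw [hz]; simp
      obtain ⟨q1, q2, q3, q4, q5⟩ := hZd z hzZ
      have hyz : y z = 0 := by
        rw [yc z q3 q4]; exact hy0 z q1 q2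
      obtain ⟨a, ha, hq⟩ := exists_sign hH.symm y (ee z)
      refine ⟨y + a • ee z, ?_, Or.inr ⟨?_, hZodd hZ1⟩, ?_⟩
      · intro v
        simp only [Pi.add_apply, Pi.smul_apply, smul_eq_mul]
        by_cases hv : v = z
        · subst hv
          rw [hyz, ee_same]
          rcases ha with h | h <;> simp [h]
        · rw [ee_ne hv]
          simpa using ya v
      · simp only [Pi.add_apply, Pi.smul_apply, smul_eq_mul, Finset.sum_add_distrib,
          ← Finset.mul_sum, sum_ee, yb, hsum0]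
        rcases ha with h | h <;> simp [h]
      · rw [hz, Finset.sum_singleton]
        rw [qf_ee, hH.diag, bil_ee_eq hind hyU' q1] at hq
        linarith
  have hfin := bad_tri hH hb za zb
  have hpairs : ∑ v ∈ P, |bil H (y1 U Q X A) (ee v + (-1 : ℤ) • ee (ρ v))|
      = ∑ v ∈ P, |LL H U A v - LL H U A (ρ v)| := by
    refine Finset.sum_congr rfl fun v hv => ?_
    rw [bil_add_right, bil_smul_right,
      bil_ee_eq hind hyU (fun h => Finset.disjoint_left.mp hPU hv h),
      bil_ee_eq hind hyU (hρQ v hv).2.1]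
    congr 1
    ring
  rw [hpairs, qf_y1 hH hind A hQU hXQ] at yd
  set SU := ∑ u ∈ U, ∑ v ∈ U, H u v * sg A u * sg A v
  set SX := ∑ x ∈ X, LL H U A x
  set SQ := ∑ x ∈ Q, LL H U A x
  set SP := ∑ v ∈ P, |LL H U A v - LL H U A (ρ v)|
  set SZ := ∑ z ∈ Z, |LL H U A z|
  have hq0 : (0 : ℤ) ≤ (Q.card : ℤ) := by positivity
  -- - (SU + 2 (2 SX - SQ) - 2 SP - 2 SZ) ≤ 2 g
  have key : - (SU + 2 * (2 * SX - SQ) - 2 * SP - 2 * SZ) ≤ 2 * g := by linarith
  have key2 := mul_le_mul_of_nonneg_left key hq0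
  have h3 : 2 * ((Q.card : ℤ) * SX) ≤ (Q.card - T) * SQ := by
    rw [← h2m]
    linarith
  nlinarith

end RandCutAux

open RandCutAux in
theorem random_cut {H : V → V → ℤ} (hH : Sur H) {g : ℤ} (hb : Bad H g) {U Q : Finset V}
    (hUe : Even U.card) (hU : 1 ≤ U.card) (hind : ∀ a b, a ∉ U → b ∉ U → H a b = 0)
    (hQU : Disjoint Q U) (hQe : Even Q.card) (hQ : U.card ≤ Q.card)
    {P : Finset V} {ρ : V → V} (hPQ : Disjoint P Q) (hPU : Disjoint P U)
    (hρQ : ∀ v ∈ P, ρ v ∉ Q ∧ ρ v ∉ U ∧ ρ v ∉ P) (hρi : Set.InjOn ρ P)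
    (hρt : ∀ v ∈ P, ¬ Tw H v (ρ v))
    {Z : Finset V} (hZ : Z.card ≤ 1) (hZodd : Z.card = 1 → Odd (Fintype.card V))
    (hZd : ∀ z ∈ Z, z ∉ U ∧ z ∉ Q ∧ z ∉ P ∧ (∀ v ∈ P, ρ v ≠ z) ∧ 1 ≤ dg H z) :
    ∑ x ∈ Q, dg H x + Q.card * ((P.card : ℤ) + Z.card) ≤ Q.card * g := by
  set M : ℤ := (Fintype.card (Finset V) : ℤ) with hM
  have hM0 : 0 < M := by
    rw [hM]; exact_mod_cast Fintype.card_pos
  have hsum := Finset.sum_le_sum fun (A : Finset V) (_ : A ∈ (Finset.univ : Finset (Finset V))) =>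
    per_A hH hb hUe hind hQU hQe hQ hPQ hPU hρQ hρi hZ hZodd hZd A
  simp only [Finset.sum_add_distrib, Finset.sum_neg_distrib, ← Finset.mul_sum,
    Finset.sum_const, Finset.card_univ, nsmul_eq_mul] at hsum
  -- first term
  have t1 : ∑ A : Finset V, ∑ u ∈ U, ∑ v ∈ U, H u v * sg A u * sg A v = 0 := by
    rw [Finset.sum_comm]
    refine Finset.sum_eq_zero fun u _ => ?_
    rw [Finset.sum_comm]
    refine Finset.sum_eq_zero fun v _ => ?_
    by_cases huv : u = v
    · subst huv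
      simp [hH.diag]
    · have : ∑ A : Finset V, H u v * sg A u * sg A v
          = H u v * ∑ A : Finset V, sg A u * sg A v := by
        rw [Finset.mul_sum]
        exact Finset.sum_congr rfl fun A _ => by ring
      rw [this, ne_sum huv]; ring
  -- second term
  have t2 : ∑ A : Finset V, 2 * (∑ u ∈ U, sg A u) * ∑ x ∈ Q, LL H U A x
      = 2 * M * ∑ x ∈ Q, dg H x := by
    have h1 : ∀ x ∈ Q, ∑ A : Finset V, (∑ u ∈ U, sg A u) * LL H U A x = M * dg H x := by
      intro x hx
      have hxU : x ∉ U := fun h => Finset.disjoint_left.mp hQU hx h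
      unfold LL
      have h2 : ∀ A : Finset V, (∑ u ∈ U, sg A u) * ∑ u ∈ U, sg A u * H u x
          = ∑ u ∈ U, ∑ v ∈ U, sg A u * sg A v * H v x := by
        intro A
        rw [Finset.sum_mul]
        refine Finset.sum_congr rfl fun u _ => ?_
        rw [Finset.mul_sum]
        exact Finset.sum_congr rfl fun v _ => by ring
      simp only [h2]
      rw [Finset.sum_comm]
      have h3 : ∀ u ∈ U, ∑ A : Finset V, ∑ v ∈ U, sg A u * sg A v * H v x = M * H u x := by
        intro u hu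
        rw [Finset.sum_comm]
        rw [Finset.sum_eq_single u]
        · rw [← Finset.sum_mul, self_sum]
        · intro v _ hvu
          rw [← Finset.sum_mul, ne_sum (Ne.symm hvu)]; ring
        · intro h; exact absurd hu h
      rw [Finset.sum_congr rfl h3, ← Finset.mul_sum]
      congr 1
      unfold dg
      rw [← Finset.sum_subset (Finset.subset_univ U)]
      · intro u _ hu
        exact hind u x hu hxU
    have h4 : ∀ A : Finset V, 2 * (∑ u ∈ U, sg A u) * ∑ x ∈ Q, LL H U A x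
        = 2 * ∑ x ∈ Q, (∑ u ∈ U, sg A u) * LL H U A x := by
      intro A
      rw [← Finset.mul_sum]; ring
    rw [Finset.sum_congr rfl fun A _ => h4 A, ← Finset.mul_sum, Finset.sum_comm,
      Finset.sum_congr rfl h1, ← Finset.mul_sum]
    ring
  -- third term
  have t3 : (P.card : ℤ) * M ≤ ∑ A : Finset V, ∑ v ∈ P, |LL H U A v - LL H U A (ρ v)| := by
    rw [Finset.sum_comm]
    have : ∑ v ∈ P, M ≤ ∑ v ∈ P, ∑ A : Finset V, |LL H U A v - LL H U A (ρ v)| := by
      refine Finset.sum_le_sum fun v hv => ?_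
      obtain ⟨u, hu⟩ : ∃ u, H u v ≠ H u (ρ v) := by
        by_contra hcon
        push Not at hcon
        exact hρt v hv hcon
      have hvU : v ∉ U := fun h => Finset.disjoint_left.mp hPU hv h
      have huU : u ∈ U := by
        by_contra huU
        exact hu (by rw [hind u v huU hvU, hind u _ huU (hρQ v hv).2.1])
      have h5 := abs_ge (W := U) (c := fun u => H u v - H u (ρ v)) huU
        (sub_ne_zero.mpr hu)
      refine h5.trans (le_of_eq ?_)
      refine Finset.sum_congr rfl fun A _ => ?_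
      unfold LL
      rw [← Finset.sum_sub_distrib]
      refine congrArg abs (Finset.sum_congr rfl fun u _ => ?_)
      ring
    simpa [nsmul_eq_mul] using this
  have t4 : (Z.card : ℤ) * M ≤ ∑ A : Finset V, ∑ z ∈ Z, |LL H U A z| := by
    rw [Finset.sum_comm]
    have : ∑ z ∈ Z, M ≤ ∑ z ∈ Z, ∑ A : Finset V, |LL H U A z| := by
      refine Finset.sum_le_sum fun z hz => ?_
      obtain ⟨q1, q2, q3, q4, q5⟩ := hZd z hz
      obtain ⟨u, hu⟩ : ∃ u, H u z ≠ 0 := by
        by_contra hcon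
        push Not at hcon
        unfold dg at q5
        rw [Finset.sum_eq_zero fun u _ => hcon u] at q5
        omega
      have huU : u ∈ U := by
        by_contra huU
        exact hu (hind u z huU q1)
      have h5 := abs_ge (W := U) (c := fun u => H u z) huU hu
      unfold LL
      exact h5
    simpa [nsmul_eq_mul] using this
  rw [t1, t2] at hsum
  have hq0 : (0 : ℤ) ≤ (Q.card : ℤ) := by positivity
  have h6 : (Q.card : ℤ) * ((P.card : ℤ) * M + (Z.card : ℤ) * M) ≤ (Q.card : ℤ) *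
      (∑ A : Finset V, ∑ v ∈ P, |LL H U A v - LL H U A (ρ v)|
        + ∑ A : Finset V, ∑ z ∈ Z, |LL H U A z|) :=
    mul_le_mul_of_nonneg_left (add_le_add t3 t4) hq0
  refine le_of_mul_le_mul_left (a := 2 * M) ?_ (by linarith)
  have h7 : 2 * M * (∑ x ∈ Q, dg H x) + 2 * ((Q.card : ℤ) * ((P.card : ℤ) * M + (Z.card : ℤ) * M))
      ≤ M * (2 * g * Q.card) := by
    rw [← hM] at hsum
    linarith
  linarith

end Pool.Agent.BisF
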