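import Mathlib
import Pool.Agent.BisF.Base
import Pool.Agent.BisF.RandCut
import Pool.Agent.BisF.PairsFam

/-!
# Few pairs

Let `δ x = w - dg H x`, `o = N % 2`. If `o = 1` let `x⋆ ∈ Uᶜ` have maximal `δ`; `O = Uᶜ` (`o = 0`) or
`Uᶜ \ {x⋆}` (`o = 1`); `ns = |O| = N - 2 p - o`, even, `ns ≥ 2 r0 + 2 p`. Facts:
`δ x⋆ ≥ 0` (take any second point: `Core.nonneg` for the two points, and `δ x⋆` is the larger),
so `∑_O δ ≤ Δ` in both cases; if `e = 1` then `δ x⋆ ≤ Δ < w` (because `∑_O δ ≥ 0`), so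
`dg H x⋆ ≥ 1`.
Suppose the conclusion fails: every `C ⊆ O` consisting of twins has `|C| + r0 ≤ ns`. Apply
`pairs_family` with `lab x = fun u => H u x` (`L = V → ℤ`), `K = r0`: `P, ρ`. Put
`Q = O \ (P ∪ ρ(P))`, `|Q| = ns - 2 r0 ≥ 2 p ≥ 2`, even, `Z = {x⋆}` if `e = 1`, `∅` if `e = 0`.
`random_cut`: `∑_Q dg + |Q| (r0 + e) ≤ |Q| g`, i.e. `∑_Q δ ≥ |Q| t` with `t = r0 + e + w - g`.
`t F > Δ ≥ 0` and `F ≥ 0` give `t > 0`. Let `M₀ = max_Q δ ≥ t`.
* `r0 = 1`: `∑_O δ ≥ |Q| t + 0 ≥ (ns - 2) t ≥ F t > Δ` (the two removed points have `δ`-sum `≥ 0`).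
* `r0 ≥ 2`: `∑_{P ∪ ρ P} δ = ∑_{v∈P} max (δ v) (δ (ρ v)) + ∑_{v∈P} min (δ v) (δ (ρ v))`; the first
  sum is `≥ r0 M₀ ≥ r0 t` by the last property of `pairs_family`, the second one is the sum of `δ`
  over `r0 ≥ 2` distinct points of `O`, so `≥ 0` by `Core.nonneg`. Hence
  `∑_O δ ≥ (ns - 2 r0) t + r0 t = (ns - r0) t ≥ F t > Δ`.
Contradiction with `∑_O δ ≤ Δ`. (In the conclusion: `|C| ≥ ns - r0 + 1`.)
-/

set_option autoImplicit false
set_option linter.unusedSectionVars false
set_option linter.unusedVariables false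

namespace Pool.Agent.BisF

open Finset Pool.Agent.Bisect

variable {V : Type} [Fintype V] [DecidableEq V]

namespace BigAux

/-- the set `O` and the extra point -/
lemma setup {H : V → V → ℤ} {U : Finset V} {w Δ : ℤ} (hc : Core H U w Δ) {p : ℕ}
    (hU : U.card = 2 * p) (hp : 1 ≤ p) {N : ℕ} (hN : Fintype.card V = N) {r0 e : ℕ}
    (hr : 1 ≤ r0) (hr2 : 2 * r0 + 4 * p + N % 2 ≤ N)
    (he : e = 0 ∨ (e = 1 ∧ N % 2 = 1 ∧ Δ < w)) :
    ∃ O Z : Finset V, Disjoint O U ∧ O.card + 2 * p + N % 2 = N ∧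
      ∑ x ∈ O, (w - dg H x) ≤ Δ ∧ Z.card = e ∧
      ∀ z ∈ Z, z ∉ U ∧ z ∉ O ∧ 1 ≤ dg H z := by
  have hcU : Uᶜ.card + 2 * p = N := by
    have h1 := Finset.card_compl_add_card U
    omega
  rcases Nat.mod_two_eq_zero_or_one N with ho | ho
  · have he0 : e = 0 := by
      rcases he with h | h
      · exact h
      · omega
    subst he0
    exact ⟨Uᶜ, ∅, disjoint_compl_left, by omega, hc.tot, rfl, by simp⟩
  · have hne : Uᶜ.Nonempty := Finset.card_pos.mp (by omega)
    obtain ⟨x, hx, hmax⟩ := Finset.exists_max_image Uᶜ (fun y => w - dg H y) hne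
    have hcard : (Uᶜ.erase x).card = Uᶜ.card - 1 := Finset.card_erase_of_mem hx
    have hsum : ∑ y ∈ Uᶜ.erase x, (w - dg H y) + (w - dg H x) = ∑ y ∈ Uᶜ, (w - dg H y) :=
      Finset.sum_erase_add _ _ hx
    have hdis : Disjoint (Uᶜ.erase x) U :=
      Disjoint.mono_left (Finset.erase_subset _ _) disjoint_compl_left
    have hne2 : (Uᶜ.erase x).Nonempty := Finset.card_pos.mp (by omega)
    obtain ⟨y, hy⟩ := hne2
    have hyx : y ≠ x := Finset.ne_of_mem_erase hy
    have hyU : y ∈ Uᶜ := Finset.mem_of_mem_erase hy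
    have hx0 : 0 ≤ w - dg H x := by
      have h1 := hc.nonneg {x, y} (by
        rw [Finset.disjoint_left]
        intro a ha
        rw [Finset.mem_insert, Finset.mem_singleton] at ha
        rcases ha with rfl | rfl
        · exact Finset.mem_compl.mp hx
        · exact Finset.mem_compl.mp hyU) (by
        rw [Finset.card_pair hyx.symm])
      rw [Finset.sum_pair hyx.symm] at h1
      have h2 := hmax y hyU
      linarith
    have htot := hc.tot
    have hO : ∑ y ∈ Uᶜ.erase x, (w - dg H y) ≤ Δ := by linarith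
    rcases he with he | ⟨he, -, hΔw⟩
    · exact ⟨Uᶜ.erase x, ∅, hdis, by omega, hO, by rw [he]; rfl, by simp⟩
    · refine ⟨Uᶜ.erase x, {x}, hdis, by omega, hO, by rw [he]; simp, ?_⟩
      intro z hz
      rw [Finset.mem_singleton] at hz
      subst hz
      refine ⟨Finset.mem_compl.mp hx, Finset.notMem_erase _ _, ?_⟩
      have h1 := hc.nonneg (Uᶜ.erase z) hdis (by omega)
      have h2 : w - dg H z ≤ Δ := by linarith
      omega

end BigAux

theorem big {H : V → V → ℤ} (hH : Sur H) {g : ℤ} (hb : Bad H g) {U : Finset V} {w Δ : ℤ}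
    (hc : Core H U w Δ) {p : ℕ} (hU : U.card = 2 * p) (hp : 1 ≤ p) {N : ℕ}
    (hN : Fintype.card V = N) {r0 e : ℕ} (hr : 1 ≤ r0) (hr2 : 2 * r0 + 4 * p + N % 2 ≤ N)
    (he : e = 0 ∨ (e = 1 ∧ N % 2 = 1 ∧ Δ < w)) (hΔ : 0 ≤ Δ) {F : ℤ} (hF0 : 0 ≤ F)
    (hF : F ≤ (N:ℤ) - 2 * p - (N % 2 : ℕ) - r0)
    (hF1 : r0 = 1 → F ≤ (N:ℤ) - 2 * p - (N % 2 : ℕ) - 2)
    (hbig : Δ < ((r0:ℤ) + e + w - g) * F) :
    ∃ C : Finset V, Disjoint C U ∧ (∀ a ∈ C, ∀ b ∈ C, Tw H a b) ∧
      N + 1 ≤ C.card + 2 * p + r0 + N % 2 := by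
  by_contra hcon
  push Not at hcon
  obtain ⟨O, Z, hOU, hOc, hOΔ, hZe, hZ⟩ := BigAux.setup hc hU hp hN hr hr2 he
  obtain ⟨P, ρ, hPc, hPO, hρO, hρi, hρP, hlab, hmax⟩ :=
    pairs_family (fun x => fun u => H u x) (fun x => w - dg H x) r0 O (by omega) (by
      intro l C hC hCl
      have h1 := hcon C (Disjoint.mono_left hC hOU) (by
        intro a ha b hb u
        have h2 : (fun u => H u a) = fun u => H u b := (hCl a ha).trans (hCl b hb).symm
        exact congrFun h2 u)
      omega)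
  have himc : (P.image ρ).card = r0 := by
    rw [Finset.card_image_of_injOn hρi, hPc]
  have hdP : Disjoint P (P.image ρ) := by
    rw [Finset.disjoint_right]
    intro a ha
    obtain ⟨v, hv, rfl⟩ := Finset.mem_image.mp ha
    exact hρP v hv
  have himO : P.image ρ ⊆ O := by
    intro a ha
    obtain ⟨v, hv, rfl⟩ := Finset.mem_image.mp ha
    exact hρO v hv
  have hPρO : P ∪ P.image ρ ⊆ O := Finset.union_subset hPO himO
  have hPρc : (P ∪ P.image ρ).card = 2 * r0 := by
    rw [Finset.card_union_of_disjoint hdP, himc, hPc]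
    ring
  set Q := O \ (P ∪ P.image ρ) with hQ
  have hQc : Q.card + 2 * r0 = O.card := by
    have h1 := Finset.card_sdiff_add_card_eq_card hPρO
    rw [hPρc] at h1
    exact h1
  have hQO : Q ⊆ O := Finset.sdiff_subset
  have hQmem : ∀ x ∈ Q, x ∉ P ∧ ∀ u ∈ P, ρ u ≠ x := by
    intro x hx
    have h1 := (Finset.mem_sdiff.mp hx).2
    rw [Finset.mem_union, not_or] at h1
    refine ⟨h1.1, fun u hu h => h1.2 ?_⟩
    rw [← h]
    exact Finset.mem_image_of_mem ρ hu
  have hrc := random_cut hH hb (U := U) (Q := Q) ⟨p, by omega⟩ (by omega) hc.indep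
    (Disjoint.mono_left hQO hOU) ⟨O.card / 2 - r0, by omega⟩ (by omega)
    (P := P) (ρ := ρ) (by
      rw [Finset.disjoint_right]
      exact fun x hx => (hQmem x hx).1)
    (Disjoint.mono_left hPO hOU)
    (by
      intro v hv
      refine ⟨fun h => (hQmem _ h).2 v hv rfl, ?_, hρP v hv⟩
      exact Finset.disjoint_left.mp hOU (hρO v hv))
    hρi
    (by
      intro v hv h
      exact hlab v hv (funext h))
    (Z := Z) (by rcases he with h | h <;> omega)
    (by
      intro h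
      rw [hN, Nat.odd_iff]
      rcases he with h' | h' <;> omega)
    (by
      intro z hz
      obtain ⟨h1, h2, h3⟩ := hZ z hz
      exact ⟨h1, fun h => h2 (hQO h), fun h => h2 (hPO h), fun v hv h => h2 (h ▸ hρO v hv), h3⟩)
  rw [hPc, hZe] at hrc
  set t : ℤ := (r0:ℤ) + e + w - g with ht
  have hQsum : (Q.card : ℤ) * t ≤ ∑ x ∈ Q, (w - dg H x) := by
    rw [Finset.sum_sub_distrib, Finset.sum_const, nsmul_eq_mul]
    rw [ht]
    nlinarith [hrc]
  have htpos : 0 < t := by
    by_contra h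
    push Not at h
    have h1 : t * F ≤ 0 := mul_nonpos_of_nonpos_of_nonneg h hF0
    linarith
  have hsplit : ∑ x ∈ Q, (w - dg H x) + ∑ x ∈ P ∪ P.image ρ, (w - dg H x)
      = ∑ x ∈ O, (w - dg H x) := Finset.sum_sdiff hPρO
  have hPρU : Disjoint (P ∪ P.image ρ) U := Disjoint.mono_left hPρO hOU
  rcases Nat.lt_or_ge r0 2 with hr' | hr'
  · have hr1 : r0 = 1 := by omega
    have hF' := hF1 hr1
    have h1 := hc.nonneg (P ∪ P.image ρ) hPρU (by omega)
    have h2 : F ≤ (Q.card : ℤ) := by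
      have h3 : (Q.card : ℤ) = (N : ℤ) - 2 * p - (N % 2 : ℕ) - 2 := by
        have h4 : Q.card + 2 + 2 * p + N % 2 = N := by omega
        omega
      linarith
    have h5 : t * F ≤ Q.card * t := by
      rw [mul_comm]
      exact mul_le_mul_of_nonneg_right h2 htpos.le
    linarith
  · -- a point of `Q` with large value
    have hQne : Q.Nonempty := Finset.card_pos.mp (by omega)
    obtain ⟨x0, hx0, hx0t⟩ : ∃ x ∈ Q, t ≤ w - dg H x := by
      apply Finset.exists_le_of_sum_le hQne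
      rw [Finset.sum_const, nsmul_eq_mul]
      exact hQsum
    have hmx : ∀ v ∈ P, t ≤ max (w - dg H v) (w - dg H (ρ v)) := by
      intro v hv
      exact hx0t.trans (hmax v hv x0 (hQO hx0) (hQmem x0 hx0).1 (hQmem x0 hx0).2)
    have hsumU : ∑ x ∈ P ∪ P.image ρ, (w - dg H x)
        = ∑ v ∈ P, max (w - dg H v) (w - dg H (ρ v)) + ∑ v ∈ P, min (w - dg H v) (w - dg H (ρ v)) := by
      rw [Finset.sum_union hdP, Finset.sum_image hρi, ← Finset.sum_add_distrib,
        ← Finset.sum_add_distrib]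
      apply Finset.sum_congr rfl
      intro v _
      rw [max_add_min]
    have hmaxsum : (r0 : ℤ) * t ≤ ∑ v ∈ P, max (w - dg H v) (w - dg H (ρ v)) := by
      rw [← hPc, ← nsmul_eq_mul, ← Finset.sum_const]
      exact Finset.sum_le_sum hmx
    have hminsum : 0 ≤ ∑ v ∈ P, min (w - dg H v) (w - dg H (ρ v)) := by
      set m : V → V := fun v => if w - dg H v ≤ w - dg H (ρ v) then v else ρ v with hm
      have hmi : Set.InjOn m P := by
        intro a ha b hb hab
        simp only [hm] at hab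
        split_ifs at hab with h1 h2 h2
        · exact hab
        · exact absurd (hab ▸ ha) (hρP b hb)
        · exact absurd (hab ▸ hb) (hρP a ha)
        · exact hρi ha hb hab
      have hmO : ∀ v ∈ P, m v ∈ O := by
        intro v hv
        simp only [hm]
        split_ifs
        · exact hPO hv
        · exact hρO v hv
      have h1 := hc.nonneg (P.image m) (by
        rw [Finset.disjoint_left]
        intro a ha
        obtain ⟨v, hv, rfl⟩ := Finset.mem_image.mp ha
        exact Finset.disjoint_left.mp hOU (hmO v hv)) (by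
        rw [Finset.card_image_of_injOn hmi, hPc]
        exact hr')
      rw [Finset.sum_image hmi] at h1
      refine h1.trans (le_of_eq (Finset.sum_congr rfl fun v hv => ?_))
      simp only [hm]
      split_ifs with h
      · rw [min_eq_left h]
      · rw [min_eq_right (le_of_lt (not_le.mp h))]
    have h2 : F ≤ (Q.card : ℤ) + r0 := by
      have h4 : Q.card + 2 * r0 + 2 * p + N % 2 = N := by omega
      omega
    have h5 : t * F ≤ (Q.card + r0) * t := by
      rw [mul_comm]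
      exact mul_le_mul_of_nonneg_right h2 htpos.le
    have h6 : ((Q.card : ℤ) + r0) * t = Q.card * t + r0 * t := by ring
    linarith

end Pool.Agent.BisF
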