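import Mathlib
import Pool.Agent.BisF.Base
import Pool.Agent.Bisect.CutMin

/-!
# The function `cmin`

`cmin h = inf { ∑ ⌊t²/4⌋ : ∑ t (t-1)/2 ≥ h }` over lists of naturals (`Base.lean`).
The set is nonempty (`[h+1]`, or `List.replicate h 2`), so the infimum is attained (`Nat.sInf_mem`).
* `cmin_mono`: an admissible list for `b` is admissible for `a ≤ b`.
* `cmin_add`: append the two optimal lists.
* `cmin_tri`: the list `[t]`.  `cmin_zero`: the empty list.
* `le_two_cmin`: `t (t-1)/2 ≤ 2 * (t*t/4)` for every natural `t` (t even/odd), sum over the list.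
* `cmin_le_self`: `List.replicate h 2`.
* `cutMin_le_cmin`: list induction with `cutMin_clique_add` (needs `1 ≤ t`; `t = 0` contributes 0 to
  both sums), `cutMin_zero`, then `cutMin_mono`.
-/

set_option autoImplicit false
set_option linter.unusedSectionVars false
set_option linter.unusedVariables false

namespace Pool.Agent.BisF

open Finset Pool.Agent.Bisect

private theorem sum_rep1 (h : ℕ) :
    ((List.replicate h 2).map fun t : ℕ => t * (t - 1) / 2).sum = h := by
  rw [List.map_replicate, List.sum_replicate]; simp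

private theorem sum_rep2 (h : ℕ) :
    ((List.replicate h 2).map fun t : ℕ => t * t / 4).sum = h := by
  rw [List.map_replicate, List.sum_replicate]; simp

private theorem cmin_le {h : ℕ} (l : List ℕ) (hl : h ≤ (l.map fun t => t * (t - 1) / 2).sum) :
    cmin h ≤ (l.map fun t => t * t / 4).sum :=
  Nat.sInf_le ⟨l, hl, rfl⟩

private theorem cmin_att (h : ℕ) : ∃ l : List ℕ, h ≤ (l.map fun t => t * (t - 1) / 2).sum ∧
    (l.map fun t => t * t / 4).sum = cmin h := by
  have hne : {k | ∃ l : List ℕ, h ≤ (l.map fun t => t * (t - 1) / 2).sum ∧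
      (l.map fun t => t * t / 4).sum = k}.Nonempty :=
    ⟨_, List.replicate h 2, (sum_rep1 h).ge, rfl⟩
  exact Nat.sInf_mem hne

theorem cmin_mono : Monotone cmin := by
  intro a b hab
  obtain ⟨l, hl, he⟩ := cmin_att b
  rw [← he]
  exact cmin_le l (hab.trans hl)

theorem cmin_zero : cmin 0 = 0 := by
  have := cmin_le (h := 0) [] (Nat.zero_le _)
  simpa using this

theorem cmin_add (a b : ℕ) : cmin (a + b) ≤ cmin a + cmin b := by
  obtain ⟨l, hl, he⟩ := cmin_att a
  obtain ⟨l', hl', he'⟩ := cmin_att b
  have := cmin_le (h := a + b) (l ++ l') (by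
    rw [List.map_append, List.sum_append]
    exact Nat.add_le_add hl hl')
  rw [List.map_append, List.sum_append, he, he'] at this
  exact this

theorem cmin_tri (t : ℕ) : cmin (t * (t - 1) / 2) ≤ t * t / 4 := by
  have := cmin_le (h := t * (t - 1) / 2) [t] (by simp)
  simpa using this

private theorem tri_le (t : ℕ) : t * (t - 1) / 2 ≤ 2 * (t * t / 4) := by
  rcases Nat.even_or_odd' t with ⟨m, rfl | rfl⟩
  · have h1 : 2 * m * (2 * m) / 4 = m * m := by
      rw [show 2 * m * (2 * m) = m * m * 4 by ring]; omega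
    have h2 : 2 * m * (2 * m - 1) / 2 = m * (2 * m - 1) := by
      rw [show 2 * m * (2 * m - 1) = m * (2 * m - 1) * 2 by ring]; omega
    rw [h1, h2, show 2 * (m * m) = m * (2 * m) by ring]
    exact Nat.mul_le_mul_left _ (Nat.sub_le _ _)
  · have h1 : (2 * m + 1) * (2 * m + 1) / 4 = m * (m + 1) := by
      rw [show (2 * m + 1) * (2 * m + 1) = m * (m + 1) * 4 + 1 by ring]; omega
    have h2 : (2 * m + 1) * (2 * m + 1 - 1) / 2 = m * (2 * m + 1) := by
      rw [Nat.add_sub_cancel, show (2 * m + 1) * (2 * m) = m * (2 * m + 1) * 2 by ring]; omega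
    rw [h1, h2, show 2 * (m * (m + 1)) = m * (2 * m + 2) by ring]
    exact Nat.mul_le_mul_left _ (by omega)

private theorem sum_le_two (l : List ℕ) : (l.map fun t => t * (t - 1) / 2).sum ≤
    2 * (l.map fun t => t * t / 4).sum := by
  induction l with
  | nil => simp
  | cons t l ih =>
    rw [List.map_cons, List.sum_cons, List.map_cons, List.sum_cons]
    have := tri_le t
    omega

theorem le_two_cmin (h : ℕ) : h ≤ 2 * cmin h := by
  obtain ⟨l, hl, he⟩ := cmin_att h
  rw [← he]
  exact hl.trans (sum_le_two l)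

theorem cmin_le_self (h : ℕ) : cmin h ≤ h := by
  have := cmin_le (h := h) (List.replicate h 2) (sum_rep1 h).ge
  rwa [sum_rep2] at this

private theorem cutMin_list (l : List ℕ) : cutMin ((l.map fun t => t * (t - 1) / 2).sum) ≤
    (l.map fun t => t * t / 4).sum := by
  induction l with
  | nil => simp [cutMin_zero]
  | cons t l ih =>
    rw [List.map_cons, List.sum_cons, List.map_cons, List.sum_cons]
    rcases Nat.eq_zero_or_pos t with rfl | ht
    · simpa using ih
    · have := cutMin_clique_add t ((l.map fun t => t * (t - 1) / 2).sum) ht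
      omega

theorem cutMin_le_cmin (h : ℕ) : cutMin h ≤ cmin h := by
  obtain ⟨l, hl, he⟩ := cmin_att h
  rw [← he]
  exact (cutMin_mono hl).trans (cutMin_list l)

end Pool.Agent.BisF
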