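import Mathlib
import Pool.Agent.BisF.Base

/-!
# Numerical conditions
-/

set_option autoImplicit false

namespace Pool.Agent.BisF

/-- the numerical condition `G` -/
def Gok (N q g w p ch : ℕ) : Prop :=
  ∃ (r0 e : ℕ) (F : ℤ), 1 ≤ r0 ∧ 2 * r0 + 4 * p + N % 2 ≤ N ∧
    (e = 0 ∨ (e = 1 ∧ N % 2 = 1 ∧ (w:ℤ) * (N - 1) - q < w)) ∧ 0 ≤ F ∧
    F ≤ (N:ℤ) - 2 * p - (N % 2 : ℕ) - r0 ∧ (r0 = 1 → F ≤ (N:ℤ) - 2 * p - (N % 2 : ℕ) - 2) ∧
    (w:ℤ) * (N - 1) - q < ((r0:ℤ) + e + w - g) * F ∧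
    ∀ r y D : ℕ, r + 1 ≤ r0 + N % 2 → y + D = w → y + r + (if N % 2 = 1 ∧ 1 ≤ y then 1 else 0) ≤ g →
      (D : ℤ) * cnt (N - 2 * p) r ≤ (w:ℤ) * (N - 1) - q →
      ∃ κ, κ + r + 2 * p ≤ N ∧ lemAok N q κ y ch = true

/-- the conclusion of the numerical part for given `N, q, g, ch` -/
def NumOk (N q g ch : ℕ) : Prop :=
  2 * g + 3 ≤ N ∧
    ∀ w, 1 ≤ w → w ≤ g → q ≤ w * (N - 1) →
      (¬ (N % 2 = 1 ∧ w = g) → Gok N q g w w ch) ∧
      ((N % 2 = 1 ∧ w = g) → (3 ≤ w → Gok N q g w (w - 2) ch) ∧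
        (w * (2 * w + 1) < q ∨ lemAok N q (N - 3 * w) 0 ch = true ∨ (N = 11 ∧ q = 19 ∧ w = 3 ∧
          lemAok N q 4 0 ch = true)))

lemma lemAok_of_one {N q κ y ch : ℕ} (h1 : 1 ≤ κ) (h2 : N + y ≤ 2 * κ + 1) :
    lemAok N q κ y ch = true := by
  simp only [lemAok, Bool.and_eq_true, Bool.or_eq_true, Nat.ble_eq]
  exact ⟨h1, Or.inl (Or.inl (Or.inl h2))⟩

lemma Gok_uniform {N q g w p ch : ℕ} (h8 : 8 * g ≤ N) (hq : N + 1 ≤ q) (hw1 : 1 ≤ w)
    (hwg : w ≤ g) (hp : p ≤ w) : Gok N q g w p ch := by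
  obtain ⟨M, hM⟩ : ∃ M, N / 2 = M := ⟨_, rfl⟩
  refine ⟨M - 2 * p, 0, M, by omega, by omega, Or.inl rfl, by positivity, ?_, ?_, ?_, ?_⟩
  · push_cast [Nat.cast_sub (show 2 * p ≤ M by omega)]
    omega
  · intro h; omega
  · have h1 : ((M - 2 * p : ℕ) : ℤ) = (M:ℤ) - 2 * p := by
      push_cast [Nat.cast_sub (show 2 * p ≤ M by omega)]; ring
    rw [h1]
    have hNM : (N:ℤ) ≤ 2 * M + 1 := by omega
    have hNM' : (2:ℤ) * M ≤ N := by omega
    have hq' : (N:ℤ) + 1 ≤ q := by exact_mod_cast hq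
    have hw' : (1:ℤ) ≤ w := by exact_mod_cast hw1
    have hwg' : (w:ℤ) ≤ g := by exact_mod_cast hwg
    have hp' : (p:ℤ) ≤ w := by exact_mod_cast hp
    have hM4 : (4:ℤ) * g ≤ M := by omega
    have hM0 : (0:ℤ) ≤ M := by positivity
    have e1 : (w:ℤ) * (N - 1) ≤ w * (2 * M) := by
      apply mul_le_mul_of_nonneg_left _ (by linarith)
      linarith
    have e2 : (2 * (w:ℤ) - 2) * M ≤ ((M:ℤ) - 2 * p + (0:ℕ) + w - g) * M := by
      apply mul_le_mul_of_nonneg_right _ hM0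
      push_cast
      linarith
    nlinarith
  · intro r y D h1 h2 h3 _
    refine ⟨N - 2 * p - r, by omega, ?_⟩
    have h4 : y + r ≤ g := by
      split_ifs at h3 <;> omega
    apply lemAok_of_one <;> omega

lemma NumOk_uniform {N q g ch : ℕ} (hg : 1 ≤ g) (h8 : 8 * g ≤ N) (hq : N + 1 ≤ q) :
    NumOk N q g ch := by
  refine ⟨by omega, ?_⟩
  intro w hw1 hwg hqw
  refine ⟨fun _ => Gok_uniform h8 hq hw1 hwg le_rfl, fun _ => ⟨fun h3 =>
    Gok_uniform h8 hq hw1 hwg (by omega), Or.inr (Or.inl ?_)⟩⟩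
  apply lemAok_of_one <;> omega

/-! ### Boolean versions -/

/-- `f k` for all `k < n` -/
def allB (f : ℕ → Bool) (n : ℕ) : Bool := Nat.rec true (fun k ih => f k && ih) n

lemma allB_iff {f : ℕ → Bool} {n : ℕ} : allB f n = true ↔ ∀ k < n, f k = true := by
  induction n with
  | zero => simp [allB]
  | succ n ih =>
    have : allB f (n + 1) = (f n && allB f n) := rfl
    rw [this, Bool.and_eq_true, ih]
    constructor
    · rintro ⟨h1, h2⟩ k hk
      rcases Nat.lt_succ_iff_lt_or_eq.mp hk with h | h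
      · exact h2 k h
      · rw [h]; exact h1
    · intro h
      exact ⟨h n (Nat.lt_succ_self n), fun k hk => h k (Nat.lt_succ_of_lt hk)⟩

/-- `f k` for some `a ≤ k < a + n`, tried upwards -/
def anyB (f : ℕ → Bool) (n : ℕ) : ℕ → Bool := Nat.rec (fun _ => false)
  (fun _ ih a => f a || ih (a + 1)) n

lemma anyB_exists {f : ℕ → Bool} {n : ℕ} : ∀ {a : ℕ}, anyB f n a = true →
    ∃ k, a ≤ k ∧ k < a + n ∧ f k = true := by
  induction n with
  | zero => intro a h; simp [anyB] at h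
  | succ n ih =>
    intro a h
    have h1 : anyB f (n + 1) a = (f a || anyB f n (a + 1)) := rfl
    rw [h1, Bool.or_eq_true] at h
    rcases h with h | h
    · exact ⟨a, le_rfl, by omega, h⟩
    · obtain ⟨k, h2, h3, h4⟩ := ih h
      exact ⟨k, by omega, by omega, h4⟩

/-- class counter, Boolean version -/
def cntB (n r : ℕ) : ℕ := bif Nat.beq r 0 then n else bif Nat.beq r 1 then n - 2 else n - r

lemma cntB_eq (n r : ℕ) : cntB n r = cnt n r := by
  rcases r with _ | _ | r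
  · rfl
  · rfl
  · have h1 : cntB n (r + 1 + 1) = n - (r + 1 + 1) := rfl
    have h2 : cnt n (r + 1 + 1) = n - (r + 1 + 1) := by
      unfold cnt
      rw [if_neg (by omega), if_neg (by omega)]
    rw [h1, h2]

/-- one value of `D` -/
def checkD (N q g w ch n Δ r0 D : ℕ) : Bool :=
  let y := w - D
  let t := bif (Nat.beq (N % 2) 1 && Nat.ble 1 y) then 1 else 0
  Nat.ble (g + 1) (y + t) ||
    (let rm := min (r0 - 1 + N % 2) (g - (y + t))
     Nat.ble (Δ + 1) (D * cntB n rm) || lemAok N q (n - rm) y ch)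

/-- one value of `r0` -/
def checkR (N q g w ch n Δ r0 : ℕ) : Bool :=
  let F := bif Nat.beq r0 1 then n - N % 2 - 2 else n - N % 2 - r0
  let e := bif (Nat.beq (N % 2) 1 && Nat.ble (Δ + 1) w) then 1 else 0
  Nat.ble (Δ + g * F + 1) ((r0 + e + w) * F) && allB (checkD N q g w ch n Δ r0) (w + 1)

/-- Boolean version of `Gok` -/
def checkG (N q g w p ch : ℕ) : Bool :=
  Nat.ble (4 * p) N && anyB (checkR N q g w ch (N - 2 * p) (w * (N - 1) - q)) ((N - N % 2 - 4 * p) / 2) 1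

lemma cnt_anti {n r s : ℕ} (h : r ≤ s) (hs : s ≤ n) : cnt n s ≤ cnt n r := by
  unfold cnt
  split_ifs <;> omega

lemma checkG_sound {N q g w p ch : ℕ} (hN : 1 ≤ N) (hq : q ≤ w * (N - 1))
    (h : checkG N q g w p ch = true) : Gok N q g w p ch := by
  unfold checkG at h
  rw [Bool.and_eq_true, Nat.ble_eq] at h
  obtain ⟨h4p, h⟩ := h
  obtain ⟨r0, hr1, hr2, hr⟩ := anyB_exists h
  set n := N - 2 * p with hn
  obtain ⟨Δ, hΔ⟩ : ∃ Δ, w * (N - 1) - q = Δ := ⟨_, rfl⟩
  rw [hΔ] at hr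
  have hΔZ : (w:ℤ) * (N - 1) - q = Δ := by
    rw [← hΔ]
    push_cast [Nat.cast_sub hq, Nat.cast_sub hN]
    ring
  unfold checkR at hr
  simp only [Bool.and_eq_true, Nat.ble_eq] at hr
  obtain ⟨hbig, hall⟩ := hr
  rw [allB_iff] at hall
  have hr2' : 2 * r0 + 4 * p + N % 2 ≤ N := by omega
  set F := (bif Nat.beq r0 1 then n - N % 2 - 2 else n - N % 2 - r0) with hF
  set e := (bif (Nat.beq (N % 2) 1 && Nat.ble (Δ + 1) w) then 1 else 0) with he
  have hF1 : F + r0 + N % 2 + 2 * p ≤ N ∧ (r0 = 1 → F + 2 + N % 2 + 2 * p ≤ N) := by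
    by_cases h1 : r0 = 1
    · have h2 : F = n - N % 2 - 2 := by
        rw [hF, h1]; rfl
      by_cases h3 : N % 2 + 2 ≤ n
      · constructor
        · omega
        · intro _; omega
      · -- then `n - N%2 < 2`, but `2 r0 + 4 p ≤ N`
        constructor
        · omega
        · intro _; omega
    · have h2 : F = n - N % 2 - r0 := by
        rw [hF]
        have : Nat.beq r0 1 = false := by
          rw [← Bool.not_eq_true, Nat.beq_eq]
          exact h1
        rw [this]; rfl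
      constructor
      · omega
      · intro h; exact absurd h h1
  refine ⟨r0, e, (F:ℤ), hr1, hr2', ?_, by positivity, ?_, ?_, ?_, ?_⟩
  · by_cases h1 : (Nat.beq (N % 2) 1 && Nat.ble (Δ + 1) w) = true
    · right
      have h2 : e = 1 := by rw [he, h1]; rfl
      rw [Bool.and_eq_true, Nat.beq_eq, Nat.ble_eq] at h1
      refine ⟨h2, h1.1, ?_⟩
      rw [hΔZ]
      have := h1.2
      omega
    · left
      rw [Bool.not_eq_true] at h1
      rw [he, h1]; rfl
  · have := hF1.1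
    omega
  · intro h1
    have := hF1.2 h1
    omega
  · rw [hΔZ]
    have h1 : ((Δ + g * F + 1 : ℕ) : ℤ) ≤ (((r0 + e + w) * F : ℕ) : ℤ) := by exact_mod_cast hbig
    push_cast at h1
    linarith
  · intro r y D h1 h2 h3 h4
    have h5 := hall D (by omega)
    unfold checkD at h5
    have hy : w - D = y := by omega
    rw [hy] at h5
    set t := (bif (Nat.beq (N % 2) 1 && Nat.ble 1 y) then 1 else 0) with ht
    have ht' : t = (if N % 2 = 1 ∧ 1 ≤ y then 1 else 0) := by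
      by_cases h6 : N % 2 = 1 ∧ 1 ≤ y
      · rw [if_pos h6, ht]
        have : (Nat.beq (N % 2) 1 && Nat.ble 1 y) = true := by
          rw [Bool.and_eq_true, Nat.beq_eq, Nat.ble_eq]; exact h6
        rw [this]; rfl
      · rw [if_neg h6, ht]
        have : (Nat.beq (N % 2) 1 && Nat.ble 1 y) = false := by
          rw [← Bool.not_eq_true, Bool.and_eq_true, Nat.beq_eq, Nat.ble_eq]; exact h6
        rw [this]; rfl
    rw [← ht'] at h3
    simp only [Bool.or_eq_true, Nat.ble_eq] at h5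
    set rm := min (r0 - 1 + N % 2) (g - (y + t)) with hrm
    have hrrm : r ≤ rm := by
      rw [hrm, le_min_iff]
      constructor <;> omega
    have hrmn : rm ≤ n := by
      have : rm ≤ r0 - 1 + N % 2 := min_le_left _ _
      omega
    rcases h5 with h6 | h6 | h6
    · omega
    · exfalso
      rw [cntB_eq] at h6
      have h7 : D * cnt n rm ≤ D * cnt n r := Nat.mul_le_mul_left D (cnt_anti hrrm hrmn)
      rw [hΔZ] at h4
      have h8 : D * cnt n r ≤ Δ := by exact_mod_cast h4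
      omega
    · exact ⟨n - rm, by omega, h6⟩

/-- Boolean version of `NumOk` -/
def checkW (N q g ch w : ℕ) : Bool :=
  Nat.ble (w * (N - 1) + 1) q ||
    (bif (Nat.beq (N % 2) 1 && Nat.beq w g) then
      ((Nat.ble w 2 || checkG N q g w (w - 2) ch) &&
        (Nat.ble (w * (2 * w + 1) + 1) q || lemAok N q (N - 3 * w) 0 ch ||
          (Nat.beq N 11 && Nat.beq q 19 && Nat.beq w 3 && lemAok N q 4 0 ch)))
      else checkG N q g w w ch)

/-- Boolean version of `NumOk` -/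
def checkN (N q g ch : ℕ) : Bool :=
  Nat.ble (2 * g + 3) N && allB (fun w => checkW N q g ch (w + 1)) g

lemma checkN_sound {N q g ch : ℕ} (h : checkN N q g ch = true) : NumOk N q g ch := by
  unfold checkN at h
  rw [Bool.and_eq_true, Nat.ble_eq, allB_iff] at h
  obtain ⟨h1, h2⟩ := h
  refine ⟨h1, ?_⟩
  intro w hw1 hwg hqw
  have h3 := h2 (w - 1) (by omega)
  rw [Nat.sub_add_cancel hw1] at h3
  unfold checkW at h3
  rw [Bool.or_eq_true, Nat.ble_eq] at h3
  rcases h3 with h3 | h3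
  · omega
  · constructor
    · intro hno
      have h4 : (Nat.beq (N % 2) 1 && Nat.beq w g) = false := by
        rw [← Bool.not_eq_true, Bool.and_eq_true, Nat.beq_eq, Nat.beq_eq]; exact hno
      rw [h4, cond_false] at h3
      exact checkG_sound (by omega) hqw h3
    · intro hyes
      have h4 : (Nat.beq (N % 2) 1 && Nat.beq w g) = true := by
        rw [Bool.and_eq_true, Nat.beq_eq, Nat.beq_eq]; exact hyes
      rw [h4, cond_true, Bool.and_eq_true, Bool.or_eq_true, Nat.ble_eq] at h3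
      obtain ⟨h5, h6⟩ := h3
      refine ⟨fun h7 => ?_, ?_⟩
      · rcases h5 with h5 | h5
        · omega
        · exact checkG_sound (by omega) hqw h5
      · simp only [Bool.or_eq_true, Bool.and_eq_true, Nat.ble_eq, Nat.beq_eq] at h6
        rcases h6 with (h6 | h6) | ⟨⟨⟨h7, h8⟩, h9⟩, h10⟩
        · left; omega
        · right; left; exact h6
        · right; right; exact ⟨h7, h8, h9, h10⟩

end Pool.Agent.BisF
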