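import Mathlib
import Pool.Agent.BisF.CMin

/-!
# Upper bounds for `cmin`: a table and the linear bound
-/

set_option autoImplicit false

namespace Pool.Agent.BisF

open Finset Pool.Agent.Bisect

/-- values of `cmin` (upper bounds) -/
def tab : List ℕ := [0, 1, 2, 2, 3, 4, 4, 5, 6, 6, 6, 7, 8, 8, 9, 9, 10, 11, 11, 12, 12, 12, 13, 14, 14, 15, 16, 16, 16, 17, 18, 18, 19, 20, 20, 20, 20, 21, 22, 22, 23, 24, 24, 25, 25, 25, 26, 27, 27, 28, 29, 29, 30, 30, 30, 30, 31, 32, 32, 33, 34, 34, 35, 36, 36, 36, 36, 37, 38, 38, 39, 40, 40, 41, 42, 42, 42, 42, 42, 43, 44, 44, 45, 46, 46, 47, 48, 48, 48, 49, 49, 49, 50, 51, 51, 52, 53, 53, 54, 54, 55, 55, 56, 56, 56, 56, 57, 58, 58, 59, 60, 60, 61, 62, 62, 62, 63, 64, 64, 64, 64, 65, 66, 66, 67, 68, 68, 69, 70, 70, 70, 71, 72, 72, 72, 72, 72, 73, 74, 74, 75, 76, 76, 77, 78, 78, 78, 79, 80, 80, 81, 81, 81, 81, 82, 83, 83, 84, 85, 85, 86, 87, 87, 87, 88, 89, 89, 90, 90, 90, 90, 90, 91, 92, 92, 93, 94, 94, 95,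 96, 96, 96, 97, 98, 98, 99, 99, 100, 100, 100, 100, 101, 102, 102, 103, 104, 104, 105, 106, 106, 106, 107, 108, 108, 109, 109, 110, 110, 110, 110, 110, 111, 112, 112, 113, 114, 114, 115, 116, 116, 116, 117, 118, 118, 119, 119, 120, 121, 121, 121, 121, 121, 122, 123, 123, 124, 125, 125, 126, 127, 127, 127, 128, 129, 129, 130, 130, 131, 132, 132, 132, 132, 132, 132, 133, 134, 134, 135, 136, 136, 137, 138, 138, 138, 139, 140, 140, 141, 141, 142, 143, 143, 144, 144, 144, 144, 144, 145, 146, 146, 147, 148, 148, 149, 150, 150, 150, 151, 152, 152, 153, 153, 154, 155, 155, 156, 156, 156, 156, 156, 156, 157, 158, 158, 159, 160, 160, 161, 162, 162, 162, 163, 164, 164, 165, 165, 166, 167, 167, 168, 168, 168, 169, 169, 169, 169, 170, 171, 171, 172, 173, 173, 174, 175, 175, 175, 176, 177, 177, 178, 178, 179, 180, 180, 181, 181, 181, 182, 182, 182, 182, 182, 183, 184, 184, 185, 186, 186, 187, 188, 188, 188, 189, 190, 190, 191, 191, 192, 193, 193, 194, 194,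 194, 195, 196, 196, 196, 196, 196, 197, 198, 198, 199, 200, 200, 201, 202, 202, 202, 203, 204, 204, 205, 205, 206, 207, 207, 208, 208, 208, 209, 210, 210, 210, 210, 210, 210, 211, 212, 212, 213, 214, 214, 215, 216, 216, 216, 217, 218, 218, 219, 219, 220, 221, 221, 222, 222, 222, 223, 224, 224, 225, 225, 225, 225, 225, 226, 227, 227, 228, 229, 229, 230, 231, 231, 231, 232, 233, 233, 234, 234, 235, 236, 236, 237, 237, 237, 238, 239, 239, 240, 240, 240, 240, 240, 240, 241, 242, 242, 243, 244, 244, 245, 246, 246, 246, 247, 248, 248, 249]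

lemma tab_check : ∀ h < 480, ∃ t < 33, (2 ≤ t ∧ t * (t - 1) / 2 ≤ h ∧
    t * t / 4 + tab.getD (h - t * (t - 1) / 2) 0 ≤ tab.getD h 0) ∨
    (h ≤ t * (t - 1) / 2 ∧ 1 ≤ t ∧ t * t / 4 ≤ tab.getD h 0) := by
  decide +kernel

lemma cmin_le_tab : ∀ h, h < 480 → cmin h ≤ tab.getD h 0 := by
  intro h
  induction h using Nat.strong_induction_on with
  | _ h ih =>
    intro hh
    obtain ⟨t, _, h1 | h1⟩ := tab_check h hh
    · obtain ⟨h2, h3, h4⟩ := h1
      have hpos : 1 ≤ t * (t - 1) / 2 := by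
        rw [Nat.one_le_div_iff (by norm_num)]
        have : 2 * 1 ≤ t * (t - 1) := Nat.mul_le_mul h2 (by omega)
        omega
      have h5 := ih (h - t * (t - 1) / 2) (by omega) (by omega)
      have h6 := cmin_add (t * (t - 1) / 2) (h - t * (t - 1) / 2)
      rw [Nat.add_sub_cancel' h3] at h6
      have h7 := cmin_tri t
      omega
    · obtain ⟨h2, h3, h4⟩ := h1
      exact (cmin_mono h2).trans ((cmin_tri t).trans h4)

lemma tab_lin : ∀ h < 480, 60 * tab.getD h 0 ≤ 31 * h + 232 := by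
  decide +kernel

/-- The linear bound. -/
theorem cmin_lin (m : ℕ) : 60 * cmin m ≤ 31 * m + 232 := by
  induction m using Nat.strong_induction_on with
  | _ m ih =>
    rcases Nat.lt_or_ge m 480 with hlt | hge
    · have h1 := cmin_le_tab m hlt
      have h2 := tab_lin m hlt
      omega
    · -- `m = a (a-1)/2 + x`, `x < a`, `a ≥ 31`
      obtain ⟨a, x, ha, h1, h2⟩ := exists_tri m
      have ha31 : 31 ≤ a := by
        by_contra hcon
        have h3 : a ≤ 30 := by omega
        have h4 : a * (a - 1) ≤ 30 * 29 := Nat.mul_le_mul h3 (by omega)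
        omega
      have hdiv : m = a * (a - 1) / 2 + x := by
        have h3 : 2 ∣ a * (a - 1) := (Nat.even_mul_pred_self a).two_dvd
        omega
      have hmul : 31 * 30 ≤ a * (a - 1) := Nat.mul_le_mul ha31 (by omega)
      have h3 := ih x (by omega)
      have h4 := cmin_add (a * (a - 1) / 2) x
      rw [← hdiv] at h4
      have h5 := cmin_tri a
      have h6 : 4 * (a * a / 4) ≤ a * a := Nat.mul_div_le _ _
      -- 15 a² + 31 x + 232 ≤ 31 m + 232 = 31 a (a-1)/2 + 31 x + 232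
      obtain ⟨b, rfl⟩ : ∃ b, a = b + 1 := ⟨a - 1, by omega⟩
      rw [Nat.add_sub_cancel] at h1
      have h7 : 30 * ((b + 1) * (b + 1)) ≤ 31 * ((b + 1) * b) := by nlinarith
      omega

end Pool.Agent.BisF
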