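import Mathlib
import Pool.Agent.BisF.NumDefs
import Pool.Agent.BisF.Tab

/-!
# The finite check
-/

set_option autoImplicit false

namespace Pool.Agent.BisF

/-- upper bound for `cmin` of `(N+i)(N+i-1)/2 + m`, given `c ≥ cmin m` -/
def chT (N i m c : ℕ) : ℕ :=
  bif Nat.beq ((N + i) * (N + i - 1) / 2 + m) 99 then 54 else
    min ((N + i + 1) * (N + i + 1) / 4) ((N + i) * (N + i) / 4 + c)

/-- one triple -/
def check1 (i m c N : ℕ) : Bool :=
  let q := i * N + i * (i - 1) / 2 + m
  let ch := chT N i m c
  let g := 2 * ch - (q + 2 + 2 * (N * N / 4))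
  Nat.ble (g * N + 1) q || Nat.ble (8 * g) N || checkN N q g ch

/-- all `N` for given `i, m` -/
def check2 (m c i : ℕ) : Bool :=
  let lo := max 2 (m + 1 - i)
  let hi := min 207 (4 * (i + 4 * c) - (8 * m + 12))
  allB (fun j => check1 i m c (lo + j)) (hi - lo)

/-- all `i` for given `m` -/
def check3 (m : ℕ) : Bool :=
  let c := tab.getD m 0
  allB (fun j => check2 m c (j + 1)) (min 25 (4 * c - (2 * m + 5)))

lemma check_all : allB check3 232 = true := by decide +kernel

end Pool.Agent.BisF
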