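import Mathlib
import Pool.Agent.BisF.Base

/-!
# The claim on balanced cuts

`wcut_plus`: `wcut w A = ∑_{u∈A} ∑_{v∉A} (H u v + 1)`.

`claim3`: put `N = |V|`. Choose a set `A` with `wcut H A` maximal and, among those, with
`| |A| - |Aᶜ| |` minimal (e.g. maximise `wcut H A * (N+1) - | |A| - |Aᶜ| |` over all finsets); so
`wcut H A ≥ wcut H A₀`. By symmetry (`wcut_compl`, Single.lean, or reprove) assume `|A| ≤ |Aᶜ|`; let
`B = Aᶜ`.
* If `|B| ≤ |A| + 1`, then `|A| |B| = ⌊N²/4⌋` and `wcut w A = wcut H A + |A||B|`. Done.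
* Otherwise `|B| ≥ |A| + 2`. For every `v ∈ B` the cut `A ∪ {v}` is strictly more balanced, hence
  `wcut H (insert v A) < wcut H A`; and `wcut H (insert v A) = wcut H A - d_A(v) + d_B(v)` with
  `d_A(v) = ∑_{u∈A} H u v`, `d_B(v) = ∑_{u∈B} H u v` (`H v v = 0`). So `d_A(v) ≥ d_B(v) + 1 ≥ 1`.
  Choose `Y ⊆ B` with `|Y| = ⌊N/2⌋ - |A|` and put `A₁ = A ∪ Y`, so `|A₁| = ⌊N/2⌋`,
  `A₁ᶜ = B \ Y` has `⌈N/2⌉` elements, and
  `wcut H A₁ ≥ ∑_{v ∈ A₁ᶜ} d_A(v) ≥ |A₁ᶜ| = ⌈N/2⌉`. Hence `wcut w A₁ ≥ ⌊N²/4⌋ + ⌈N/2⌉`.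
-/

set_option autoImplicit false
set_option linter.unusedSectionVars false
set_option linter.unusedVariables false

namespace Pool.Agent.BisF

open Finset Pool.Agent.Bisect

variable {V : Type} [Fintype V] [DecidableEq V]

namespace Claim3Aux

lemma compl_sym {H : V → V → ℤ} (hw : ∀ u v, H u v = H v u) (A : Finset V) :
    wcut H Aᶜ = wcut H A := by
  unfold wcut
  rw [compl_compl, Finset.sum_comm]
  exact Finset.sum_congr rfl fun u _ => Finset.sum_congr rfl fun v _ => hw v u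

lemma sq_div_four (a b N : ℕ) (hN : a + b = N) (hab : a ≤ b) (hb : b ≤ a + 1) :
    N * N / 4 = a * b := by
  obtain rfl | rfl : b = a ∨ b = a + 1 := by omega
  · subst hN
    have : (b + b) * (b + b) = 4 * (b * b) := by ring
    rw [this]; simp
  · subst hN
    have : (a + (a + 1)) * (a + (a + 1)) = 1 + 4 * (a * (a + 1)) := by ring
    rw [this, Nat.add_mul_div_left _ _ (by norm_num)]
    simp

/-- effect of moving a vertex `v` from the complement to `A` -/
lemma wcut_insert {H : V → V → ℤ} (hH : Sur H) (A : Finset V) (v : V) (hv : v ∉ A) :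
    wcut H (insert v A) = wcut H A - ∑ u ∈ A, H u v + ∑ u ∈ Aᶜ, H v u := by
  have hc : (insert v A)ᶜ = Aᶜ.erase v := by
    ext x; simp only [mem_compl, mem_insert, mem_erase, not_or]
  have hvc : v ∈ Aᶜ := by simpa using hv
  have key : ∀ u, ∑ x ∈ Aᶜ.erase v, H u x = ∑ x ∈ Aᶜ, H u x - H u v := by
    intro u
    rw [← Finset.sum_erase_add _ _ hvc]; ring
  unfold wcut
  rw [hc, Finset.sum_insert hv, key v, hH.diag v]
  have : ∑ u ∈ A, ∑ x ∈ Aᶜ.erase v, H u x = ∑ u ∈ A, ∑ x ∈ Aᶜ, H u x - ∑ u ∈ A, H u v := by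
    rw [← Finset.sum_sub_distrib]
    exact Finset.sum_congr rfl fun u _ => key u
  rw [this]; ring

end Claim3Aux

open Claim3Aux

theorem wcut_plus {H w : V → V → ℤ} (hw : ∀ u v, u ≠ v → w u v = H u v + 1)
    (A : Finset V) : wcut w A = wcut H A + (A.card : ℤ) * (Aᶜ.card : ℤ) := by
  unfold wcut
  have h1 : ∀ u ∈ A, ∑ v ∈ Aᶜ, w u v = ∑ v ∈ Aᶜ, H u v + (Aᶜ.card : ℤ) := by
    intro u hu
    have : ∑ v ∈ Aᶜ, w u v = ∑ v ∈ Aᶜ, (H u v + 1) := by
      apply Finset.sum_congr rfl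
      intro v hv
      apply hw
      rintro rfl
      exact (mem_compl.mp hv) hu
    rw [this, Finset.sum_add_distrib]
    simp
  rw [Finset.sum_congr rfl h1, Finset.sum_add_distrib]
  simp

theorem claim3 {H w : V → V → ℤ} (hH : Sur H) (hw : ∀ u v, u ≠ v → w u v = H u v + 1)
    (A₀ : Finset V) : ∃ A : Finset V,
      ((Fintype.card V * Fintype.card V / 4 : ℕ) : ℤ) +
        min (((Fintype.card V + 1) / 2 : ℕ) : ℤ) (wcut H A₀) ≤ wcut w A := by
  set N := Fintype.card V with hN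
  set f : Finset V → ℤ := fun A => wcut H A * ((N : ℤ) + 1) - |(A.card : ℤ) - (Aᶜ.card : ℤ)|
    with hf
  have hcard : ∀ A : Finset V, A.card + Aᶜ.card = N := fun A => by
    rw [hN]; exact Finset.card_add_card_compl A
  obtain ⟨A', -, hmax'⟩ := Finset.exists_max_image (Finset.univ : Finset (Finset V)) f
    ⟨∅, mem_univ _⟩
  obtain ⟨A, hmax, hle⟩ : ∃ A : Finset V, (∀ B, f B ≤ f A) ∧ A.card ≤ Aᶜ.card := by
    rcases le_total A'.card A'ᶜ.card with h | h
    · exact ⟨A', fun B => hmax' B (mem_univ _), h⟩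
    · refine ⟨A'ᶜ, fun B => ?_, by rwa [compl_compl]⟩
      have : f A'ᶜ = f A' := by
        simp only [hf]
        rw [compl_sym hH.symm, compl_compl, abs_sub_comm]
      rw [this]
      exact hmax' B (mem_univ _)
  set a := A.card with ha
  set b := Aᶜ.card with hb
  have hab : a + b = N := hcard A
  have hN0 : (0 : ℤ) ≤ (N : ℤ) := by positivity
  have hA0 : wcut H A₀ ≤ wcut H A := by
    by_contra hcon
    push Not at hcon
    have h1 := hmax A₀
    simp only [hf] at h1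
    have h2 : |((A₀.card : ℤ)) - (A₀ᶜ.card : ℤ)| ≤ N := by
      have := hcard A₀
      rw [abs_le]; constructor <;> omega
    have h3 : (0 : ℤ) ≤ |(A.card : ℤ) - (Aᶜ.card : ℤ)| := abs_nonneg _
    have h4 : (wcut H A + 1) * ((N : ℤ) + 1) ≤ wcut H A₀ * ((N : ℤ) + 1) :=
      mul_le_mul_of_nonneg_right (by omega) (by omega)
    nlinarith
  rcases Nat.lt_or_ge (a + 1) b with hbig | hsm
  · -- unbalanced case
    have hd : ∀ v ∈ Aᶜ, (1 : ℤ) ≤ ∑ u ∈ A, H u v := by
      intro v hv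
      have hvA : v ∉ A := by simpa using hv
      have h1 := hmax (insert v A)
      simp only [hf] at h1
      have hc1 : (insert v A).card = a + 1 := by rw [Finset.card_insert_of_notMem hvA]
      have hc2 := hcard (insert v A)
      have e1 : |((insert v A).card : ℤ) - ((insert v A)ᶜ.card : ℤ)| = (b : ℤ) - a - 2 := by
        rw [abs_of_nonpos] <;> omega
      have e2 : |(A.card : ℤ) - (Aᶜ.card : ℤ)| = (b : ℤ) - a := by
        rw [abs_of_nonpos] <;> omega
      rw [e1, e2, wcut_insert hH A v hvA] at h1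
      have h5 : (0 : ℤ) ≤ ∑ u ∈ Aᶜ, H v u := Finset.sum_nonneg fun u _ => hH.nn v u
      by_contra hcon
      push Not at hcon
      have h6 : (0 : ℤ) ≤ (- ∑ u ∈ A, H u v + ∑ u ∈ Aᶜ, H v u) * ((N : ℤ) + 1) :=
        mul_nonneg (by omega) (by omega)
      nlinarith
    obtain ⟨Y, hYs, hYc⟩ := Finset.exists_subset_card_eq (s := Aᶜ) (n := N / 2 - a)
      (by omega)
    refine ⟨A ∪ Y, ?_⟩
    have hdis : Disjoint A Y := by
      rw [Finset.disjoint_left]
      intro x hx hxY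
      exact (mem_compl.mp (hYs hxY)) hx
    have hc1 : (A ∪ Y).card = N / 2 := by
      rw [Finset.card_union_of_disjoint hdis, hYc]; omega
    have hc2 := hcard (A ∪ Y)
    have hc3 : (A ∪ Y)ᶜ.card = (N + 1) / 2 := by omega
    have hsub : (A ∪ Y)ᶜ ⊆ Aᶜ := by
      rw [Finset.compl_subset_compl]; exact Finset.subset_union_left
    have h1 : (((A ∪ Y)ᶜ.card : ℕ) : ℤ) ≤ wcut H (A ∪ Y) := by
      unfold wcut
      calc (((A ∪ Y)ᶜ.card : ℕ) : ℤ) = ∑ v ∈ (A ∪ Y)ᶜ, (1 : ℤ) := by simp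
        _ ≤ ∑ v ∈ (A ∪ Y)ᶜ, ∑ u ∈ A, H u v :=
            Finset.sum_le_sum fun v hv => hd v (hsub hv)
        _ = ∑ u ∈ A, ∑ v ∈ (A ∪ Y)ᶜ, H u v := Finset.sum_comm
        _ ≤ ∑ u ∈ A ∪ Y, ∑ v ∈ (A ∪ Y)ᶜ, H u v :=
            Finset.sum_le_sum_of_subset_of_nonneg Finset.subset_union_left
              fun u _ _ => Finset.sum_nonneg fun v _ => hH.nn u v
    rw [wcut_plus hw, hc1, hc3]
    rw [hc3] at h1
    have h2 : N * N / 4 = N / 2 * ((N + 1) / 2) :=
      sq_div_four _ _ N (by omega) (by omega) (by omega)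
    rw [h2]
    push_cast
    push_cast at h1
    have h3 := min_le_left (((N : ℤ) + 1) / 2) (wcut H A₀)
    linarith
  · refine ⟨A, ?_⟩
    rw [wcut_plus hw, sq_div_four a b N hab hle hsm, ← ha, ← hb]
    have h3 := min_le_right ((((N + 1) / 2 : ℕ)) : ℤ) (wcut H A₀)
    push_cast
    push_cast at h3
    linarith

end Pool.Agent.BisF
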