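import Mathlib
import Pool.Agent.BisF.Base
import Pool.Agent.BisF.RandCut

/-!
# Class constraints

Let `o = N % 2`, `n = N - 2 p = |Uᶜ|`, `δ x = w - dg H x`. `C` is nonempty; let
`C' = {x ∉ U | Tw H x c₀}` be the full twin class of some `c₀ ∈ C`, `C ⊆ C'`, `κ = |C'|`,
`r = n - κ`, `B = Uᶜ \ C'`, `|B| = r`. From `hCc`: `r + 1 ≤ r0 + o`. All elements of `C'` have the same
degree `y ≥ 0` (`dg H a = ∑ H u a`; natural number), and two of them (`κ ≥ 2`) give
`2 (w - y) ≥ 0` by `Core.nonneg`; `D = w - y`.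
* `y + r + [o = 1 ∧ 1 ≤ y] ≤ g`: choose an injection `ρ : B → C'` (`r ≤ κ`), and if `o = 1` a further
  point `x⋆ ∈ C' \ ρ(B)`; `Q = C' \ (ρ(B) ∪ {x⋆ if o = 1})`, so
  `|Q| = κ - r - o = N - 2 p - 2 r - o` is even and `≥ 2 p` (by `hr2` and `r ≤ r0 + o - 1`),
  `Z = {x⋆}` if `o = 1 ∧ 1 ≤ y`, else `∅`. `random_cut` with `P = B` (an element of `B` is not a twin
  of an element of `C'`): `|Q| y + |Q| (r + |Z|) ≤ |Q| g`, divide by `|Q| ≥ 2`.
* `D * cnt n r ≤ Δ`: `∑_{Uᶜ} δ = κ D + ∑_B δ ≤ Δ`. `r = 0`: `κ = n`. `r = 1`, `B = {b}`: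
  `δ b + D ≥ 0` (`Core.nonneg` for `{b, c}`), so `(κ - 1) D ≤ Δ`, `κ - 1 = n - 2`. `r ≥ 2`:
  `∑_B δ ≥ 0`, `κ = n - r`.
-/

set_option autoImplicit false
set_option linter.unusedSectionVars false
set_option linter.unusedVariables false

namespace Pool.Agent.BisF

open Finset Pool.Agent.Bisect

variable {V : Type} [Fintype V] [DecidableEq V]

namespace ClassCAux

theorem exists_inj_on {α : Type} [DecidableEq α] (B C : Finset α) (h : B.card ≤ C.card) :
    ∃ ρ : α → α, (∀ v ∈ B, ρ v ∈ C) ∧ Set.InjOn ρ B := by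
  classical
  obtain ⟨R, hRC, hR⟩ := Finset.exists_subset_card_eq h
  have e : B ≃ R := Finset.equivOfCardEq hR.symm
  refine ⟨fun v => if hv : v ∈ B then (e ⟨v, hv⟩ : α) else v, ?_, ?_⟩
  · intro v hv
    simp only [hv, dif_pos]
    exact hRC (e ⟨v, hv⟩).2
  · intro a ha b hb hab
    have ha' : a ∈ B := ha
    have hb' : b ∈ B := hb
    simp only [ha', hb', dif_pos] at hab
    have := e.injective (Subtype.ext hab)
    exact congrArg Subtype.val this

/-- the random cut applied to a full twin class -/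
theorem edwards_bound {V : Type} [Fintype V] [DecidableEq V]
    {H : V → V → ℤ} (hH : Sur H) {g : ℤ} (hb : Bad H g) {U : Finset V}
    {w : ℕ} {Δ : ℤ} (hc : Core H U w Δ) {p : ℕ} (hU : U.card = 2 * p) (hp : 1 ≤ p) {N : ℕ}
    (hN : Fintype.card V = N) {C B : Finset V} {c₀ : V}
    (hCU : Disjoint C U) (hBU : Disjoint B U) (hBC : Disjoint B C)
    (hCt : ∀ a ∈ C, Tw H a c₀) (hBt : ∀ a ∈ B, ¬ Tw H a c₀)
    {r y : ℕ} (hBr : B.card = r) (hκ : C.card + r + 2 * p = N)
    (hy : ∀ a ∈ C, dg H a = y) (hbig : 2 * r + 4 * p + N % 2 ≤ N) :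
    (y : ℤ) + r + (if N % 2 = 1 ∧ 1 ≤ y then 1 else 0) ≤ g := by
  classical
  obtain ⟨ρ, hρC, hρi⟩ := exists_inj_on B C (by omega)
  set R : Finset V := B.image ρ with hRdef
  have hRC : R ⊆ C := by
    intro x hx
    obtain ⟨v, hv, rfl⟩ := Finset.mem_image.1 hx
    exact hρC v hv
  have hRcard : R.card = r := by
    rw [hRdef, Finset.card_image_of_injOn hρi, hBr]
  have hCRcard : (C \ R).card + r = C.card := by
    have := Finset.card_sdiff_add_card_eq_card hRC
    omega
  -- the set of removed points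
  obtain ⟨X, hXsub, hXcard⟩ : ∃ X ⊆ C \ R, X.card = N % 2 :=
    Finset.exists_subset_card_eq (by omega)
  set Q : Finset V := (C \ R) \ X with hQdef
  have hQcard : Q.card + N % 2 = (C \ R).card := by
    have := Finset.card_sdiff_add_card_eq_card hXsub
    rw [← hQdef, hXcard] at this
    exact this
  have hQe : Even Q.card := by
    rw [Nat.even_iff]
    omega
  set Z : Finset V := if 1 ≤ y then X else ∅ with hZdef
  have hZX : Z ⊆ X := by
    rw [hZdef]; split_ifs
    · exact Finset.Subset.refl _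
    · exact Finset.empty_subset _
  have hZcard : Z.card = if N % 2 = 1 ∧ 1 ≤ y then 1 else 0 := by
    rw [hZdef]
    by_cases h1 : 1 ≤ y
    · simp only [h1, if_true, and_true]
      rw [hXcard]
      split_ifs <;> omega
    · simp [h1]
  have hQC : Q ⊆ C := by
    intro x hx
    rw [hQdef, Finset.mem_sdiff, Finset.mem_sdiff] at hx
    exact hx.1.1
  have key := random_cut hH hb (U := U) (Q := Q) (by rw [hU]; exact even_two_mul p)
    (by omega) hc.indep (Finset.disjoint_of_subset_left hQC hCU) hQe (by omega)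
    (P := B) (ρ := ρ) (Finset.disjoint_of_subset_right hQC hBC) hBU
    (by
      intro v hv
      have h1 : ρ v ∈ C := hρC v hv
      have h2 : ρ v ∈ R := Finset.mem_image_of_mem ρ hv
      refine ⟨?_, Finset.disjoint_left.1 hCU h1, Finset.disjoint_right.1 hBC h1⟩
      intro hq
      rw [hQdef, Finset.mem_sdiff, Finset.mem_sdiff] at hq
      exact hq.1.2 h2)
    hρi
    (by
      intro v hv ht
      refine hBt v hv ?_
      intro u
      rw [ht u]
      exact hCt (ρ v) (hρC v hv) u)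
    (Z := Z)
    (by
      rw [hZcard]; split_ifs <;> omega)
    (by
      intro h
      rw [hZcard] at h
      rw [hN, Nat.odd_iff]
      by_contra hne
      simp [hne] at h)
    (by
      intro z hz
      have hzX : z ∈ X := hZX hz
      have hzCR : z ∈ C \ R := hXsub hzX
      rw [Finset.mem_sdiff] at hzCR
      refine ⟨Finset.disjoint_left.1 hCU hzCR.1, ?_, Finset.disjoint_right.1 hBC hzCR.1, ?_, ?_⟩
      · intro hq
        rw [hQdef, Finset.mem_sdiff] at hq
        exact hq.2 hzX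
      · intro v hv h
        exact hzCR.2 (h ▸ Finset.mem_image_of_mem ρ hv)
      · rw [hy z hzCR.1]
        by_cases h1 : 1 ≤ y
        · exact_mod_cast h1
        · rw [hZdef, if_neg h1] at hz
          simp at hz)
  have hsum : ∑ x ∈ Q, dg H x = (Q.card : ℤ) * y := by
    rw [Finset.sum_congr rfl (fun x hx => hy x (hQC hx)), Finset.sum_const, nsmul_eq_mul]
  rw [hsum, hBr, hZcard] at key
  have hQpos : (0 : ℤ) < Q.card := by
    have : 0 < Q.card := by omega
    exact_mod_cast this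
  have key2 : (Q.card : ℤ) * ((y : ℤ) + r + (if N % 2 = 1 ∧ 1 ≤ y then 1 else 0)) ≤ Q.card * g := by
    push_cast at key
    linarith
  exact le_of_mul_le_mul_left key2 hQpos

theorem count_bound {V : Type} [Fintype V] [DecidableEq V]
    {H : V → V → ℤ} {U : Finset V}
    {w : ℕ} {Δ : ℤ} (hc : Core H U w Δ) {C B : Finset V}
    (hCU : Disjoint C U) (hBU : Disjoint B U) (hBC : Disjoint B C) (hun : C ∪ B = Uᶜ)
    {r D n : ℕ} (hBr : B.card = r) (hκ : C.card + r = n) (hC2 : 2 ≤ C.card)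
    (hD : ∀ a ∈ C, (w : ℤ) - dg H a = D) :
    (D : ℤ) * cnt n r ≤ Δ := by
  have htot : (C.card : ℤ) * D + ∑ x ∈ B, ((w : ℤ) - dg H x) ≤ Δ := by
    have h := hc.tot
    rw [← hun, Finset.sum_union hBC.symm, Finset.sum_congr rfl (fun x hx => hD x hx),
      Finset.sum_const, nsmul_eq_mul] at h
    exact h
  unfold cnt
  by_cases h0 : r = 0
  · rw [if_pos h0]
    have hB : B = ∅ := Finset.card_eq_zero.1 (by omega)
    rw [hB, Finset.sum_empty] at htot
    have : (n : ℤ) = C.card := by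
      have : n = C.card := by omega
      exact_mod_cast this
    rw [this]
    linarith
  · rw [if_neg h0]
    by_cases h1 : r = 1
    · rw [if_pos h1]
      obtain ⟨b, hb⟩ := Finset.card_eq_one.1 (hBr.trans h1)
      obtain ⟨c, hcC⟩ : C.Nonempty := Finset.card_pos.1 (by omega)
      have hbB : b ∈ B := by rw [hb]; simp
      have hbc : b ≠ c := by
        rintro rfl
        exact Finset.disjoint_left.1 hBC hbB hcC
      have hnn := hc.nonneg {b, c}
        (by
          rw [Finset.disjoint_left]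
          intro a ha
          rw [Finset.mem_insert, Finset.mem_singleton] at ha
          rcases ha with rfl | rfl
          · exact Finset.disjoint_left.1 hBU hbB
          · exact Finset.disjoint_left.1 hCU hcC)
        (by rw [Finset.card_pair hbc])
      rw [Finset.sum_pair hbc, hD c hcC] at hnn
      rw [hb, Finset.sum_singleton] at htot
      have : ((n - 2 : ℕ) : ℤ) = (C.card : ℤ) - 1 := by
        have : n - 2 = C.card - 1 := by omega
        rw [this]
        rw [Nat.cast_sub (by omega)]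
        simp
      rw [this]
      linarith
    · rw [if_neg h1]
      have hnn := hc.nonneg B hBU (by omega)
      have : ((n - r : ℕ) : ℤ) = C.card := by
        have : n - r = C.card := by omega
        rw [this]
      rw [this]
      linarith

end ClassCAux

theorem class_constraints {H : V → V → ℤ} (hH : Sur H) {g : ℤ} (hb : Bad H g) {U : Finset V}
    {w : ℕ} {Δ : ℤ} (hc : Core H U w Δ) {p : ℕ} (hU : U.card = 2 * p) (hp : 1 ≤ p) {N : ℕ}
    (hN : Fintype.card V = N) {r0 : ℕ} (hr : 1 ≤ r0) (hr2 : 2 * r0 + 4 * p + N % 2 ≤ N)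
    {C : Finset V} (hCU : Disjoint C U) (hCt : ∀ a ∈ C, ∀ b ∈ C, Tw H a b)
    (hCc : N + 1 ≤ C.card + 2 * p + r0 + N % 2) :
    ∃ (C' : Finset V) (r y D : ℕ), C'.card + r + 2 * p = N ∧ r + 1 ≤ r0 + N % 2 ∧
      Disjoint C' U ∧ (∀ a ∈ C', ∀ b ∈ C', Tw H a b) ∧ (∀ a ∈ C', dg H a = y) ∧ y + D = w ∧
      (y : ℤ) + r + (if N % 2 = 1 ∧ 1 ≤ y then 1 else 0) ≤ g ∧
      (D : ℤ) * cnt (N - 2 * p) r ≤ Δ := by
  classical
  obtain ⟨c₀, hc₀⟩ : C.Nonempty := Finset.card_pos.1 (by omega)
  set C' : Finset V := Uᶜ.filter (fun x => ∀ u, H u x = H u c₀) with hC'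
  have hmem : ∀ x, x ∈ C' ↔ x ∉ U ∧ Tw H x c₀ := by
    intro x
    rw [hC', Finset.mem_filter, Finset.mem_compl]
    exact Iff.rfl
  have hCsub : C ⊆ C' := by
    intro x hx
    rw [hmem]
    exact ⟨Finset.disjoint_left.1 hCU hx, hCt x hx c₀ hc₀⟩
  have hCle : C.card ≤ C'.card := Finset.card_le_card hCsub
  have hC'sub : C' ⊆ Uᶜ := Finset.filter_subset _ _
  have hC'U : Disjoint C' U := by
    rw [Finset.disjoint_left]
    intro x hx
    exact ((hmem x).1 hx).1
  set B : Finset V := Uᶜ \ C' with hB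
  have hBU : Disjoint B U := by
    rw [Finset.disjoint_left]
    intro x hx
    rw [hB, Finset.mem_sdiff, Finset.mem_compl] at hx
    exact hx.1
  have hBC : Disjoint B C' := Finset.sdiff_disjoint
  have hun : C' ∪ B = Uᶜ := Finset.union_sdiff_of_subset hC'sub
  have hUc : Uᶜ.card + 2 * p = N := by
    have := Finset.card_compl_add_card U
    omega
  have hBcard : B.card + C'.card = Uᶜ.card := Finset.card_sdiff_add_card_eq_card hC'sub
  have hdg : ∀ a ∈ C', dg H a = dg H c₀ := by
    intro a ha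
    exact Finset.sum_congr rfl (fun u _ => ((hmem a).1 ha).2 u)
  have hdg0 : 0 ≤ dg H c₀ := Finset.sum_nonneg (fun u _ => hH.nn u c₀)
  obtain ⟨y, hy⟩ := Int.eq_ofNat_of_zero_le hdg0
  have hC2 : 2 ≤ C'.card := by omega
  -- degree bound
  have hyw : y ≤ w := by
    have hnn := hc.nonneg C' hC'U hC2
    rw [Finset.sum_congr rfl (fun x hx => by rw [hdg x hx, hy]), Finset.sum_const,
      nsmul_eq_mul] at hnn
    have hpos : (0 : ℤ) < C'.card := by exact_mod_cast (by omega : 0 < C'.card)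
    have : (0 : ℤ) ≤ (w : ℤ) - y := nonneg_of_mul_nonneg_right hnn hpos
    have h2 : (y : ℤ) ≤ w := by linarith
    exact_mod_cast h2
  have hyC : ∀ a ∈ C', dg H a = y := fun a ha => by rw [hdg a ha, hy]
  refine ⟨C', B.card, y, w - y, by omega, by omega, hC'U, ?_, hyC, by omega, ?_, ?_⟩
  · intro a ha b hb' u
    rw [((hmem a).1 ha).2 u, ((hmem b).1 hb').2 u]
  · exact ClassCAux.edwards_bound hH hb hc hU hp hN hC'U hBU hBC
      (fun a ha => ((hmem a).1 ha).2)
      (by
        intro a ha ht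
        exact Finset.disjoint_left.1 hBC ha
          ((hmem a).2 ⟨Finset.disjoint_left.1 hBU ha, ht⟩))
      rfl (by omega) hyC (by omega)
  · refine ClassCAux.count_bound hc hC'U hBU hBC hun rfl (by omega) hC2 ?_
    intro a ha
    rw [hyC a ha, Nat.cast_sub hyw]

end Pool.Agent.BisF
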