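import Mathlib
import Pool.Agent.BisF.Base

/-!
# Counting with the maximum matching

Notation: `U = {x | f x ≠ x}`, `I = {x | f x = x}`, `μ x = H x (f x)` (`μ (f x) = μ x`, `μ x = 0` on
`I`, `f` maps `U` to `U`), `∑ μ = 2 w`, `|U| = 2 p`.
* `MI_parity`: `f` is a fixed point free involution of `U`, so `|U|` is even; `∑ μ` is even (e.g.
  `Finset.sum_involution` in `ZMod 2`); `μ ≥ 1` on `U` gives `p ≤ w`; `p = 0` gives `U = ∅`, `w = 0`.
* `MI_UU`: for `x ∈ U`, `y ∈ U \ {x, f x}`, `F3`. Sum over all these ordered pairs: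
  `2 S ≤ ∑_{x} ∑_{y} (μ x + μ y) = 2 (2 p - 2) (2 w)` where `S = ∑_{x∈U} ∑_{y∈U\{x,f x}} H x y`
  (reindex `(x,y) ↦ (f x, f y)`), so `S ≤ 2 w (2 p - 2)`; adding the terms `y = f x` (sum `2 w`) and
  `y = x` (0): `∑_{x∈U}∑_{y∈U} H x y ≤ 2 w (2 p - 1)`.
* `MI_nonneg`: `dg H a = ∑_{x∈U} H x a` for `a ∈ I` (`indep`). For `x ∈ U` sum `F2` over ordered
  pairs `a ≠ b` of `S`: `(s - 1) ∑_{a∈S} (H x a + H (f x) a) ≤ s (s-1) μ x`, `s = |S| ≥ 2`, so
  `∑_{a∈S} (H x a + H (f x) a) ≤ s μ x`. Sum over `x ∈ U`: `2 ∑_{a∈S} dg a ≤ s * 2 w`.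
* `MI_tot`: `2 q = ∑_{U×U} H + 2 ∑_{a∈I} dg a` (`H = 0` on `I × I`), so
  `∑_I dg ≥ q - w (2 p - 1)`, and `∑_I (w - dg) ≤ (N - 2 p) w - q + w (2p - 1) = w (N-1) - q`.
* `MI_qle`: with `n = |I|`: `n ≥ 2`: `∑_I dg ≤ n w` by `MI_nonneg`, so `q ≤ w (2p-1) + n w ≤ w N`
  (`w ≥ 0`). `n = 1`, `I = {a}`: `F1` gives `dg a ≤ ∑ μ = 2 w`, so `q ≤ w (2 p - 1) + 2 w = w N`.
  `n = 0`: `q ≤ w (2 p - 1)`.
-/

set_option autoImplicit false
set_option linter.unusedSectionVars false
set_option linter.unusedVariables false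

namespace Pool.Agent.BisF

open Finset Pool.Agent.Bisect

variable {V : Type} [Fintype V] [DecidableEq V]

namespace CountAux

variable {V : Type} [Fintype V] [DecidableEq V]

theorem mu_fix {H : V → V → ℤ} (hH : Sur H) {f : V → V} {x : V} (hx : f x = x) :
    H x (f x) = 0 := by rw [hx]; exact hH.diag x

theorem mu_inv {H : V → V → ℤ} (hH : Sur H) {f : V → V} (hf : MI H f) (x : V) :
    H (f x) (f (f x)) = H x (f x) := by rw [hf.inv]; exact hH.symm _ _

theorem mem_U {H : V → V → ℤ} {f : V → V} (hf : MI H f) {x : V} (hx : f x ≠ x) :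
    f (f x) ≠ f x := by
  intro h
  rw [hf.inv] at h
  exact hx h.symm

/-- reindexing by `f` on `U` -/
theorem sum_U {H : V → V → ℤ} {f : V → V} (hf : MI H f) (g : V → ℤ) :
    ∑ x ∈ univ.filter (fun x => f x ≠ x), g (f x) = ∑ x ∈ univ.filter (fun x => f x ≠ x), g x := by
  refine Finset.sum_bij' (fun x _ => f x) (fun x _ => f x) ?_ ?_ ?_ ?_ ?_
  · intro x hx
    rw [mem_filter] at hx ⊢
    exact ⟨mem_univ _, mem_U hf hx.2⟩
  · intro x hx
    rw [mem_filter] at hx ⊢
    exact ⟨mem_univ _, mem_U hf hx.2⟩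
  · intro x _; exact hf.inv x
  · intro x _; exact hf.inv x
  · intro x _; rfl

theorem sum_mu_U {H : V → V → ℤ} (hH : Sur H) {f : V → V} :
    ∑ x ∈ univ.filter (fun x => f x ≠ x), H x (f x) = ∑ x, H x (f x) := by
  refine Finset.sum_subset (filter_subset _ _) ?_
  intro x _ hx
  rw [mem_filter, not_and, not_not] at hx
  exact mu_fix hH (hx (mem_univ _))

/-- splitting a sum into `U` and `I` -/
theorem split {f : V → V} (g : V → ℤ) :
    ∑ x, g x = ∑ x ∈ univ.filter (fun x => f x ≠ x), g x +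
      ∑ x ∈ univ.filter (fun x => f x = x), g x := by
  rw [add_comm]
  exact (Finset.sum_filter_add_sum_filter_not univ (fun x => f x = x) g).symm

theorem dg_fix {H : V → V → ℤ} {f : V → V} (hf : MI H f) {a : V} (ha : f a = a) :
    dg H a = ∑ x ∈ univ.filter (fun x => f x ≠ x), H x a := by
  unfold dg
  rw [split (f := f)]
  rw [Finset.sum_eq_zero (s := univ.filter (fun x => f x = x)), add_zero]
  intro x hx
  rw [mem_filter] at hx
  exact hf.indep x a hx.2 ha

/-- the total weight -/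
theorem total {H : V → V → ℤ} (hH : Sur H) {f : V → V} (hf : MI H f) :
    ∑ u, ∑ v, H u v =
      ∑ x ∈ univ.filter (fun x => f x ≠ x), ∑ y ∈ univ.filter (fun x => f x ≠ x), H x y
      + 2 * ∑ a ∈ univ.filter (fun x => f x = x), dg H a := by
  have h1 : ∀ u, ∑ v, H u v = ∑ y ∈ univ.filter (fun x => f x ≠ x), H u y +
      ∑ a ∈ univ.filter (fun x => f x = x), H u a := fun u => split (f := f) (fun v => H u v)
  have h2 : ∑ a ∈ univ.filter (fun x => f x = x), dg H a =
      ∑ a ∈ univ.filter (fun x => f x = x), ∑ x ∈ univ.filter (fun x => f x ≠ x), H x a := by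
    refine Finset.sum_congr rfl ?_
    intro a ha
    rw [mem_filter] at ha
    exact dg_fix hf ha.2
  have h3 : ∑ x ∈ univ.filter (fun x => f x ≠ x), ∑ a ∈ univ.filter (fun x => f x = x), H x a =
      ∑ a ∈ univ.filter (fun x => f x = x), ∑ x ∈ univ.filter (fun x => f x ≠ x), H x a :=
    Finset.sum_comm
  have h4 : ∑ x ∈ univ.filter (fun x => f x = x), ∑ v, H x v =
      ∑ a ∈ univ.filter (fun x => f x = x), dg H a := by
    refine Finset.sum_congr rfl ?_
    intro a _
    unfold dg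
    exact Finset.sum_congr rfl (fun v _ => hH.symm _ _)
  rw [split (f := f) (fun u => ∑ v, H u v), h4]
  simp only [h1]
  rw [Finset.sum_add_distrib, h3, ← h2]
  ring

theorem card_split {f : V → V} :
    (Fintype.card V : ℤ) = ((univ.filter fun x => f x ≠ x).card : ℤ) +
      ((univ.filter fun x => f x = x).card : ℤ) := by
  have := split (f := f) (fun _ : V => (1 : ℤ))
  simpa using this

end CountAux

theorem MI_parity {H : V → V → ℤ} (hH : Sur H) {f : V → V} (hf : MI H f) :
    ∃ (p w : ℕ), (univ.filter fun x => f x ≠ x).card = 2 * p ∧ ∑ x, H x (f x) = 2 * w ∧ p ≤ w ∧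
      (p = 0 → w = 0) := by
  have hU : Even (univ.filter fun x => f x ≠ x).card := by
    have h0 : ∑ x ∈ univ.filter (fun x => f x ≠ x), (1 : ZMod 2) = 0 := by
      refine Finset.sum_involution (fun x _ => f x) ?_ ?_ ?_ ?_
      · intro x _; decide
      · intro x hx _
        rw [mem_filter] at hx
        exact hx.2
      · intro x hx
        rw [mem_filter] at hx ⊢
        exact ⟨mem_univ _, CountAux.mem_U hf hx.2⟩
      · intro x _; exact hf.inv x
    rw [Finset.sum_const, nsmul_eq_mul, mul_one] at h0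
    exact (ZMod.natCast_eq_zero_iff_even).1 h0
  have hw : Even (∑ x, H x (f x)) := by
    have h0 : ∑ x, ((H x (f x) : ℤ) : ZMod 2) = 0 := by
      refine Finset.sum_involution (fun x _ => f x) ?_ ?_ ?_ ?_
      · intro x _
        rw [CountAux.mu_inv hH hf]
        exact CharTwo.add_self_eq_zero _
      · intro x _ hne hfx
        apply hne
        rw [CountAux.mu_fix hH hfx]
        simp
      · intro x _; exact mem_univ _
      · intro x _; exact hf.inv x
    rw [← Int.cast_sum] at h0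
    exact (ZMod.intCast_eq_zero_iff_even).1 h0
  obtain ⟨p, hp⟩ := hU.two_dvd
  obtain ⟨w', hw'⟩ := hw.two_dvd
  have hnn : 0 ≤ ∑ x, H x (f x) := Finset.sum_nonneg (fun x _ => hH.nn _ _)
  have hw0 : 0 ≤ w' := by omega
  obtain ⟨w, rfl⟩ := Int.eq_ofNat_of_zero_le hw0
  have hge : ((univ.filter fun x => f x ≠ x).card : ℤ) ≤ ∑ x, H x (f x) := by
    rw [← CountAux.sum_mu_U hH]
    have : ∑ x ∈ univ.filter (fun x => f x ≠ x), (1 : ℤ) ≤
        ∑ x ∈ univ.filter (fun x => f x ≠ x), H x (f x) := by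
      refine Finset.sum_le_sum ?_
      intro x hx
      rw [mem_filter] at hx
      exact hf.pos x hx.2
    simpa using this
  refine ⟨p, w, hp, hw', ?_, ?_⟩
  · rw [hp, hw'] at hge
    push_cast at hge
    omega
  · intro h0
    rw [h0, mul_zero, Finset.card_eq_zero] at hp
    have : ∑ x, H x (f x) = 0 := by
      rw [← CountAux.sum_mu_U hH, hp, Finset.sum_empty]
    omega

theorem MI_UU {H : V → V → ℤ} (hH : Sur H) {f : V → V} (hf : MI H f) {w : ℤ} {p : ℕ}
    (hw : ∑ x, H x (f x) = 2 * w) (hp : (univ.filter fun x => f x ≠ x).card = 2 * p) :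
    ∑ x ∈ univ.filter (fun x => f x ≠ x), ∑ y ∈ univ.filter (fun x => f x ≠ x), H x y
      ≤ 2 * w * (2 * p - 1) := by
  set U := univ.filter (fun x => f x ≠ x) with hU
  have key : ∀ x ∈ U, ∀ y ∈ U, H x y + H (f x) (f y) ≤
      H x (f x) + H y (f y) - (if y = x then 2 * H x (f x) else 0) := by
    intro x hx y hy
    rw [hU, mem_filter] at hx hy
    by_cases h1 : y = x
    · subst h1
      rw [if_pos rfl, hH.diag, hH.diag]
      linarith
    · rw [if_neg h1, sub_zero]
      by_cases h2 : y = f x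
      · subst h2
        rw [hf.inv, hH.symm (f x) x]
      · exact hf.F3 x y hx.2 hy.2 h1 h2
  have hsum : ∑ x ∈ U, ∑ y ∈ U, (H x y + H (f x) (f y)) ≤
      ∑ x ∈ U, ∑ y ∈ U, (H x (f x) + H y (f y) - (if y = x then 2 * H x (f x) else 0)) :=
    Finset.sum_le_sum (fun x hx => Finset.sum_le_sum (fun y hy => key x hx y hy))
  have hre : ∑ x ∈ U, ∑ y ∈ U, H (f x) (f y) = ∑ x ∈ U, ∑ y ∈ U, H x y := by
    have e1 : ∀ x, ∑ y ∈ U, H (f x) (f y) = ∑ y ∈ U, H (f x) y := fun x =>
      CountAux.sum_U hf (fun y => H (f x) y)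
    simp only [e1]
    exact CountAux.sum_U hf (fun x => ∑ y ∈ U, H x y)
  have hmu : ∑ x ∈ U, H x (f x) = 2 * w := by rw [hU, CountAux.sum_mu_U hH, hw]
  have hcard : (U.card : ℤ) = 2 * p := by rw [hp]; push_cast; ring
  have hL : ∑ x ∈ U, ∑ y ∈ U, (H x y + H (f x) (f y)) = 2 * ∑ x ∈ U, ∑ y ∈ U, H x y := by
    simp only [Finset.sum_add_distrib]
    rw [hre]; ring
  have hR : ∑ x ∈ U, ∑ y ∈ U, (H x (f x) + H y (f y) - (if y = x then 2 * H x (f x) else 0))
      = 2 * (2 * w * (2 * p - 1)) := by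
    have e2 : ∀ x ∈ U, ∑ y ∈ U,
        (H x (f x) + H y (f y) - (if y = x then 2 * H x (f x) else 0)) =
        (2 * p - 2) * H x (f x) + 2 * w := by
      intro x hx
      rw [Finset.sum_sub_distrib, Finset.sum_add_distrib, Finset.sum_const, nsmul_eq_mul, hcard,
        hmu, Finset.sum_ite_eq' U x, if_pos hx]
      ring
    rw [Finset.sum_congr rfl e2, Finset.sum_add_distrib, ← Finset.mul_sum, hmu, Finset.sum_const,
      nsmul_eq_mul, hcard]
    ring
  rw [hL, hR] at hsum
  linarith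

theorem MI_nonneg {H : V → V → ℤ} (hH : Sur H) {f : V → V} (hf : MI H f) {w : ℤ}
    (hw : ∑ x, H x (f x) = 2 * w) (S : Finset V) (hS : ∀ x ∈ S, f x = x) (h2 : 2 ≤ S.card) :
    0 ≤ ∑ x ∈ S, (w - dg H x) := by
  set U := univ.filter (fun x => f x ≠ x) with hU
  have hmu : ∑ x ∈ U, H x (f x) = 2 * w := by rw [hU, CountAux.sum_mu_U hH, hw]
  have hcard : (2 : ℤ) ≤ (S.card : ℤ) := by exact_mod_cast h2
  -- for one `x`
  have hx1 : ∀ x ∈ U, ∑ a ∈ S, (H x a + H (f x) a) ≤ S.card * H x (f x) := by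
    intro x hx
    rw [hU, mem_filter] at hx
    have key : ∀ a ∈ S, ∀ b ∈ S, H x a + H (f x) b ≤
        H x (f x) + (if b = a then H x a + H (f x) a - H x (f x) else 0) := by
      intro a ha b hb
      by_cases hab : b = a
      · subst hab
        rw [if_pos rfl]
        linarith
      · rw [if_neg hab, add_zero]
        exact hf.F2 x a b hx.2 (hS a ha) (hS b hb) (fun h => hab h.symm)
    have hsum : ∑ a ∈ S, ∑ b ∈ S, (H x a + H (f x) b) ≤ ∑ a ∈ S, ∑ b ∈ S,
        (H x (f x) + (if b = a then H x a + H (f x) a - H x (f x) else 0)) :=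
      Finset.sum_le_sum (fun a ha => Finset.sum_le_sum (fun b hb => key a ha b hb))
    have hL : ∑ a ∈ S, ∑ b ∈ S, (H x a + H (f x) b) =
        S.card * ∑ a ∈ S, (H x a + H (f x) a) := by
      have e1 : ∀ a ∈ S, ∑ b ∈ S, (H x a + H (f x) b) =
          S.card * H x a + ∑ b ∈ S, H (f x) b := by
        intro a _
        rw [Finset.sum_add_distrib, Finset.sum_const, nsmul_eq_mul]
      rw [Finset.sum_congr rfl e1, Finset.sum_add_distrib, ← Finset.mul_sum, Finset.sum_const,
        nsmul_eq_mul, Finset.sum_add_distrib]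
      ring
    have hR : ∑ a ∈ S, ∑ b ∈ S,
        (H x (f x) + (if b = a then H x a + H (f x) a - H x (f x) else 0)) =
        S.card * S.card * H x (f x) + ∑ a ∈ S, (H x a + H (f x) a) - S.card * H x (f x) := by
      have e1 : ∀ a ∈ S, ∑ b ∈ S,
          (H x (f x) + (if b = a then H x a + H (f x) a - H x (f x) else 0)) =
          S.card * H x (f x) + ((H x a + H (f x) a) - H x (f x)) := by
        intro a ha
        rw [Finset.sum_add_distrib, Finset.sum_const, nsmul_eq_mul, Finset.sum_ite_eq' S a,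
          if_pos ha]
      rw [Finset.sum_congr rfl e1, Finset.sum_add_distrib, Finset.sum_sub_distrib,
        Finset.sum_const, Finset.sum_const, nsmul_eq_mul, nsmul_eq_mul]
      ring
    rw [hL, hR] at hsum
    have h3 : ((S.card : ℤ) - 1) * ∑ a ∈ S, (H x a + H (f x) a) ≤
        ((S.card : ℤ) - 1) * (S.card * H x (f x)) := by linarith
    exact le_of_mul_le_mul_left h3 (by linarith)
  have hd : ∑ a ∈ S, dg H a = ∑ x ∈ U, ∑ a ∈ S, H x a := by
    rw [Finset.sum_comm]
    exact Finset.sum_congr rfl (fun a ha => CountAux.dg_fix hf (hS a ha))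
  have hd2 : ∑ x ∈ U, ∑ a ∈ S, (H x a + H (f x) a) = 2 * ∑ a ∈ S, dg H a := by
    simp only [Finset.sum_add_distrib]
    rw [CountAux.sum_U hf (fun x => ∑ a ∈ S, H x a), hd]
    ring
  have hfin : 2 * ∑ a ∈ S, dg H a ≤ S.card * (2 * w) := by
    rw [← hd2, ← hmu, Finset.mul_sum]
    exact Finset.sum_le_sum hx1
  rw [Finset.sum_sub_distrib, Finset.sum_const, nsmul_eq_mul]
  linarith

theorem MI_tot {H : V → V → ℤ} (hH : Sur H) {f : V → V} (hf : MI H f) {w q : ℤ}
    (hw : ∑ x, H x (f x) = 2 * w) (hq : ∑ u, ∑ v, H u v = 2 * q) (h1 : 1 ≤ w) :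
    ∑ x ∈ univ.filter (fun x => f x = x), (w - dg H x) ≤ w * (Fintype.card V - 1) - q := by
  obtain ⟨p, w', hp, -, -, -⟩ := MI_parity hH hf
  have hUU := MI_UU hH hf hw hp
  have ht := CountAux.total hH hf
  have hc := CountAux.card_split (f := f)
  rw [hp] at hc
  push_cast at hc
  rw [Finset.sum_sub_distrib, Finset.sum_const, nsmul_eq_mul]
  have : ((univ.filter fun x => f x = x).card : ℤ) = Fintype.card V - 2 * p := by linarith
  rw [this]
  nlinarith

theorem MI_qle {H : V → V → ℤ} (hH : Sur H) {f : V → V} (hf : MI H f) {w q : ℤ}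
    (hw : ∑ x, H x (f x) = 2 * w) (hq : ∑ u, ∑ v, H u v = 2 * q) :
    q ≤ w * Fintype.card V := by
  obtain ⟨p, w', hp, hw', -, -⟩ := MI_parity hH hf
  have hUU := MI_UU hH hf hw hp
  have ht := CountAux.total hH hf
  have hc := CountAux.card_split (f := f)
  rw [hp] at hc
  push_cast at hc
  have hw0 : 0 ≤ w := by
    have : (0 : ℤ) ≤ w' := Int.natCast_nonneg _
    linarith
  set I := univ.filter (fun x => f x = x) with hI
  have hfin : ∑ a ∈ I, dg H a ≤ (I.card + 1) * w := by
    rcases Nat.lt_or_ge I.card 2 with h | h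
    · interval_cases hcI : I.card
      · rw [Finset.card_eq_zero] at hcI
        rw [hcI, Finset.sum_empty]
        push_cast
        linarith
      · rw [Finset.card_eq_one] at hcI
        obtain ⟨a, ha⟩ := hcI
        have haI : a ∈ I := by rw [ha]; exact mem_singleton_self a
        have hfa : f a = a := by
          rw [hI, mem_filter] at haI
          exact haI.2
        rw [ha, Finset.sum_singleton, CountAux.dg_fix hf hfa]
        have : ∑ x ∈ univ.filter (fun x => f x ≠ x), H x a ≤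
            ∑ x ∈ univ.filter (fun x => f x ≠ x), H x (f x) := by
          refine Finset.sum_le_sum ?_
          intro x hx
          rw [mem_filter] at hx
          exact hf.F1 x a hx.2 hfa
        rw [CountAux.sum_mu_U hH, hw] at this
        push_cast
        linarith
    · have hn := MI_nonneg hH hf hw I (fun x hx => by
        rw [hI, mem_filter] at hx; exact hx.2) h
      rw [Finset.sum_sub_distrib, Finset.sum_const, nsmul_eq_mul] at hn
      nlinarith
  have e : (I.card : ℤ) = Fintype.card V - 2 * p := by linarith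
  rw [e] at hfin
  nlinarith

end Pool.Agent.BisF
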