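import Mathlib
import Pool.Agent.BisF.Base
import Pool.Agent.BisF.BadTri

/-!
# Separated bisections

Let `U = {x | f x ≠ x}`; choose a transversal `P ⊆ U`: `U = P ∪ f(P)`, `P ∩ f(P) = ∅` (e.g. via an
injection `e : V → ℕ`, `P = {x | e x < e (f x)}`, or avoid it by an induction on the involution).
Then `∑_{x∈P} H x (f x) = w`.
Greedy lemma (Finset induction over subsets `P' ⊆ P`, with `add_pair` of Bisect/QF.lean): if `y₀` is
`IsTri` and vanishes on `P' ∪ f(P')`, there is `y`, `IsTri`, with `∑ y = ∑ y₀`, `y = y₀` off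
`P' ∪ f(P')` and `qf H y ≤ qf H y₀ - 2 ∑_{x∈P'} H x (f x)`.
* `MI_w_le`: start with `y₀ = 0`; then `bad_tri` gives `2 w ≤ - qf H y ≤ 2 g`.
* `MI_odd`: if `f x = x` the difference is 0 and `MI_w_le` suffices. Otherwise we may assume
  `x ∈ P` (the expression is symmetric in `x, f x`). Start with `y₀ = ee a` (`∑ = 1`), first add the
  pair `x, f x` by `add_pair`: `bil H (ee a) (ee x - ee (f x)) = H a x - H a (f x)`, so
  `qf ≤ - 2 H x (f x) - 2 |H x a - H (f x) a|`; then the greedy lemma for `P \ {x}`. The final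
  vector has `∑ = 1` and `N` is odd, so `bad_tri` applies.
-/

set_option autoImplicit false
set_option linter.unusedSectionVars false
set_option linter.unusedVariables false

namespace Pool.Agent.BisF

open Finset Pool.Agent.Bisect

variable {V : Type} [Fintype V] [DecidableEq V]

namespace SepAux

/-- Greedy choice of signs over the pairs `x, f x` with `x ∈ Z`. -/
theorem greedy {H : V → V → ℤ} (hH : Sur H) {f : V → V} (hf : ∀ x, f (f x) = x) (n : ℕ) :
    ∀ Z : Finset V, Z.card = n → (∀ x ∈ Z, f x ≠ x ∧ f x ∈ Z) →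
      ∀ y0 : V → ℤ, IsTri y0 → (∀ x ∈ Z, y0 x = 0) →
        ∃ y : V → ℤ, IsTri y ∧ ∑ v, y v = ∑ v, y0 v ∧
          qf H y ≤ qf H y0 - ∑ x ∈ Z, H x (f x) := by
  induction n using Nat.strong_induction_on with
  | _ n ih =>
    intro Z hn hZ y0 hy0 h0
    rcases Z.eq_empty_or_nonempty with rfl | ⟨x, hx⟩
    · exact ⟨y0, hy0, rfl, by simp⟩
    obtain ⟨hne, hfx⟩ := hZ x hx
    obtain ⟨y1, h1, h2, -, -, h5, h6⟩ :=
      add_pair hH.symm hH.diag hy0 hne.symm (h0 x hx) (h0 _ hfx)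
    have hmem : ∀ z, z ∈ (Z.erase x).erase (f x) ↔ z ≠ f x ∧ z ≠ x ∧ z ∈ Z := fun z => by
      simp only [mem_erase]
    have hfx' : f x ∈ Z.erase x := mem_erase.2 ⟨hne, hfx⟩
    have hcard : ((Z.erase x).erase (f x)).card < n := by
      have e1 := card_erase_lt_of_mem hx
      have e2 := card_erase_lt_of_mem hfx'
      omega
    obtain ⟨y, k1, k2, k3⟩ := ih _ hcard ((Z.erase x).erase (f x)) rfl (by
      intro z hz
      rw [hmem] at hz
      obtain ⟨a1, a2, a3⟩ := hz
      refine ⟨(hZ z a3).1, (hmem _).2 ⟨fun h => a2 ?_, fun h => a1 ?_, (hZ z a3).2⟩⟩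
      · rw [← hf z, h, hf]
      · rw [← hf z, h]) y1 h1 (by
      intro z hz
      rw [hmem] at hz
      rw [h2 z hz.2.1 hz.1]
      exact h0 z hz.2.2)
    refine ⟨y, k1, k2.trans h5, k3.trans ?_⟩
    rw [← add_sum_erase Z (fun x => H x (f x)) hx,
      ← add_sum_erase (Z.erase x) (fun x => H x (f x)) hfx', hf, hH.symm (f x) x]
    have := abs_nonneg (bil H y0 (ee x + (-1 : ℤ) • ee (f x)))
    linarith

theorem sum_filter_eq {H : V → V → ℤ} (hH : Sur H) (f : V → V) :
    ∑ x ∈ univ.filter (fun x => f x ≠ x), H x (f x) = ∑ x, H x (f x) := by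
  rw [sum_filter]
  refine sum_congr rfl fun x _ => ?_
  split_ifs with h
  · rfl
  · rw [not_not] at h
    rw [h, hH.diag]

end SepAux

open SepAux

theorem MI_w_le {H : V → V → ℤ} (hH : Sur H) {f : V → V} (hf : MI H f) {w g : ℤ}
    (hw : ∑ x, H x (f x) = 2 * w) (hb : Bad H g) : w ≤ g := by
  obtain ⟨y, h1, h2, h3⟩ := greedy hH hf.inv _ (univ.filter fun x => f x ≠ x) rfl (by
    intro x hx
    have hx := (mem_filter.1 hx).2
    refine ⟨hx, mem_filter.2 ⟨mem_univ _, ?_⟩⟩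
    rw [hf.inv]
    exact fun h => hx h.symm) 0 (fun _ => Or.inl rfl) (fun _ _ => rfl)
  rw [sum_filter_eq hH, hw] at h3
  have h4 := bad_tri hH hb h1 (Or.inl (by rw [h2]; simp))
  have h5 : qf H 0 = 0 := by simp [qf, bil]
  linarith

theorem MI_odd {H : V → V → ℤ} (hH : Sur H) {f : V → V} (hf : MI H f) {w g : ℤ}
    (hw : ∑ x, H x (f x) = 2 * w) (hb : Bad H g) (hodd : Odd (Fintype.card V))
    {x a : V} (ha : f a = a) : w + |H x a - H (f x) a| ≤ g := by
  by_cases hx : f x = x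
  · rw [hx, sub_self, abs_zero, add_zero]
    exact MI_w_le hH hf hw hb
  have hxa : x ≠ a := fun h => hx (by rw [h, ha])
  have hfa : f x ≠ a := fun h => hxa (by rw [← hf.inv x, h, ha])
  have ht : IsTri (ee a) := fun v => by
    by_cases h : v = a
    · subst h; exact Or.inr (Or.inl (ee_same v))
    · exact Or.inl (ee_ne h)
  obtain ⟨y1, h1, h2, -, -, h5, h6⟩ :=
    add_pair hH.symm hH.diag ht (Ne.symm hx) (ee_ne hxa) (ee_ne hfa)
  rw [bil_add_right, bil_smul_right, bil_ee_ee, bil_ee_ee, qf_ee, hH.diag] at h6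
  have hmem : ∀ z, z ∈ ((univ.filter fun x => f x ≠ x).erase x).erase (f x) ↔
      z ≠ f x ∧ z ≠ x ∧ f z ≠ z := fun z => by
    simp only [mem_erase, mem_filter, mem_univ, true_and]
  obtain ⟨y, k1, k2, k3⟩ := greedy hH hf.inv _
    (((univ.filter fun x => f x ≠ x).erase x).erase (f x)) rfl (by
      intro z hz
      rw [hmem] at hz
      obtain ⟨a1, a2, a3⟩ := hz
      refine ⟨a3, (hmem _).2 ⟨fun h => a2 ?_, fun h => a1 ?_, fun h => a3 ?_⟩⟩
      · rw [← hf.inv z, h, hf.inv]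
      · rw [← hf.inv z, h]
      · rw [hf.inv] at h; exact h.symm) y1 h1 (by
      intro z hz
      rw [hmem] at hz
      rw [h2 z hz.2.1 hz.1]
      exact ee_ne fun h => hz.2.2 (by rw [h, ha]))
  have hx1 : x ∈ univ.filter fun x => f x ≠ x := mem_filter.2 ⟨mem_univ _, hx⟩
  have hx2 : f x ∈ (univ.filter fun x => f x ≠ x).erase x :=
    mem_erase.2 ⟨hx, mem_filter.2 ⟨mem_univ _, by rw [hf.inv]; exact fun h => hx h.symm⟩⟩
  have hs := sum_filter_eq hH f
  rw [← add_sum_erase _ (fun x => H x (f x)) hx1,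
      ← add_sum_erase _ (fun x => H x (f x)) hx2, hf.inv, hH.symm (f x) x, hw] at hs
  have h7 := bad_tri hH hb k1 (Or.inr ⟨by rw [k2, h5, sum_ee]; simp, hodd⟩)
  have h8 : |H x a - H (f x) a| = |H a x + -1 * H a (f x)| := by
    rw [hH.symm x a, hH.symm (f x) a]
    congr 1
    ring
  rw [h8]
  linarith

end Pool.Agent.BisF
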