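import Mathlib
import Pool.Agent.BisF.Base
import Pool.Agent.BisF.Count
import Pool.Agent.BisF.Sep

/-!
# The exceptional case `N = 11`, `q = 19`, `w = p = g = 3`

Here `U = {x | f x ≠ x}` has 6 elements, `I` 5 elements, `∑_U μ = 6` with `μ x = H x (f x) ≥ 1`, so
`μ = 1` on `U`. `MI_odd` (`w = g = 3`): `H x a = H (f x) a` for `a ∈ I`. As in `SpecX` every `x ∈ U` has
at most one `a ∈ I` with `H x a ≥ 1`, and then `H x a = 1` (`F1`). Let
`C = {a ∈ I | ∀ x ∈ U, H x a = 0}`; to show: `|C| ≥ 4`, i.e. at most one `a ∈ I` is special (= not in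
`C`). Suppose `a ≠ b` are special, `H x a ≥ 1`, `H y b ≥ 1` (`x, y ∈ U`; `y ∉ {x, f x}` as each of
`x`, `f x` has only one special neighbour). By rule `Y` for the four choices `(x or f x, y or f y)`:
`H x y = H x (f y) = H (f x) y = H (f x) (f y) = 0`. Sum `F3` (`H u v + H (f u) (f v) ≤ 2`) over the
ordered pairs `u, v ∈ U`, `v ∉ {u, f u}` (24 of them; the 8 pairs between `{x, f x}` and `{y, f y}`
contribute 0): `2 ∑ H u v ≤ 2 (24 - 8)`, so `∑_{U×U} H ≤ 16 + 6 = 22`, and
`38 = 2 q = ∑_{U×U} H + 2 ∑_{x∈U}∑_{a∈I} H x a ≤ 22 + 12 = 34`, a contradiction.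
-/

set_option autoImplicit false
set_option linter.unusedSectionVars false
set_option linter.unusedVariables false

namespace Pool.Agent.BisF

open Finset Pool.Agent.Bisect

variable {V : Type} [Fintype V] [DecidableEq V]

theorem exceptional {H : V → V → ℤ} (hH : Sur H) {f : V → V} (hf : MI H f)
    (hw : ∑ x, H x (f x) = 6) (hb : Bad H 3) (hN : Fintype.card V = 11)
    (hq : ∑ u, ∑ v, H u v = 38) (hp : (univ.filter fun x => f x ≠ x).card = 6) :
    ∃ C : Finset V, 4 ≤ C.card ∧
      (∀ a ∈ C, ∀ b ∈ C, Tw H a b) ∧ (∀ a ∈ C, ∀ b ∈ C, H a b = 0) ∧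
      (∀ a ∈ C, dg H a = 0) := by
  classical
  obtain ⟨U, hU⟩ : ∃ U : Finset V, U = univ.filter fun x => f x ≠ x := ⟨_, rfl⟩
  obtain ⟨I, hI⟩ : ∃ I : Finset V, I = univ.filter fun x => ¬ f x ≠ x := ⟨_, rfl⟩
  have memU : ∀ x, x ∈ U ↔ f x ≠ x := fun x => by
    rw [hU, mem_filter]
    exact ⟨fun h => h.2, fun h => ⟨mem_univ x, h⟩⟩
  have memI : ∀ x, x ∈ I ↔ f x = x := fun x => by
    rw [hI, mem_filter, not_not]
    exact ⟨fun h => h.2, fun h => ⟨mem_univ x, h⟩⟩
  rw [← hU] at hp
  have hIcard : I.card = 5 := by
    have h1 := card_filter_add_card_filter_not (s := (univ : Finset V)) (fun x => f x ≠ x)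
    rw [← hU, ← hI, hp, card_univ, hN] at h1
    omega
  have sum_split : ∀ g : V → ℤ, ∑ x, g x = ∑ x ∈ U, g x + ∑ x ∈ I, g x := fun g => by
    rw [hU, hI]
    exact (sum_filter_add_sum_filter_not univ (fun x => f x ≠ x) g).symm
  -- `μ = 1` on `U`
  have hmu : ∀ x ∈ U, H x (f x) = 1 := by
    have h1 : ∑ x ∈ U, (H x (f x) - 1) = 0 := by
      rw [sum_sub_distrib, sum_const, hp]
      have h2 := sum_split fun x => H x (f x)
      have h3 : ∑ x ∈ I, H x (f x) = 0 := sum_eq_zero fun x hx => by
        rw [(memI x).1 hx, hH.diag]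
      rw [h3, add_zero] at h2
      rw [← h2, hw]
      norm_num
    intro x hx
    have h2 := (sum_eq_zero_iff_of_nonneg fun x hx => by
      have := hf.pos x ((memU x).1 hx)
      linarith).1 h1 x hx
    linarith
  have hfU : ∀ x ∈ U, f x ∈ U := fun x hx => by
    rw [memU] at hx ⊢
    rw [hf.inv]
    exact fun h => hx h.symm
  -- `H x a = H (f x) a`
  have hodd : Odd (Fintype.card V) := by
    rw [hN]
    decide
  have hsym : ∀ x a, f a = a → H x a = H (f x) a := by
    intro x a ha
    have h1 := MI_odd hH hf (w := 3) (g := 3) (by rw [hw]; norm_num) hb hodd (x := x) ha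
    have h2 : |H x a - H (f x) a| ≤ 0 := by linarith
    have h3 := abs_nonpos_iff.1 h2
    linarith
  have hone : ∀ x ∈ U, ∀ a b, f a = a → f b = b → 1 ≤ H x a → 1 ≤ H x b → a = b := by
    intro x hx a b ha hb' h1 h2
    by_contra hab
    have h3 := hf.F2s x a b ((memU x).1 hx) ha hb' hab h1 (by rw [← hsym x b hb']; exact h2)
    rw [← hsym x b hb', hmu x hx] at h3
    linarith
  have hle : ∀ x ∈ U, ∀ a, f a = a → H x a ≤ 1 := fun x hx a ha => by
    have h1 := hf.F1 x a ((memU x).1 hx) ha
    rw [hmu x hx] at h1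
    exact h1
  refine ⟨I.filter fun a => ∀ x ∈ U, H x a = 0, ?_, ?_, ?_, ?_⟩
  · have h1 := card_filter_add_card_filter_not (s := I) (fun a => ∀ x ∈ U, H x a = 0)
    have h2 : (I.filter fun a => ¬ ∀ x ∈ U, H x a = 0).card ≤ 1 := by
      rw [card_le_one]
      intro a ha b hb'
      by_contra hab
      rw [mem_filter] at ha hb'
      obtain ⟨haI, hax⟩ := ha
      obtain ⟨hbI, hby⟩ := hb'
      push Not at hax hby
      obtain ⟨x, hx, hxa⟩ := hax
      obtain ⟨y, hy, hyb⟩ := hby
      rw [memI] at haI hbI
      have hxa1 : 1 ≤ H x a := by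
        have := hH.nn x a
        omega
      have hyb1 : 1 ≤ H y b := by
        have := hH.nn y b
        omega
      have hfx := hfU x hx
      have hfy := hfU y hy
      have hfxa1 : 1 ≤ H (f x) a := by
        rw [← hsym x a haI]
        exact hxa1
      have hfyb1 : 1 ≤ H (f y) b := by
        rw [← hsym y b hbI]
        exact hyb1
      have hyx : y ≠ x := by
        rintro rfl
        exact hab (hone y hy a b haI hbI hxa1 hyb1)
      have hyfx : y ≠ f x := by
        rintro rfl
        exact hab (hone (f x) hfx a b haI hbI hfxa1 hyb1)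
      have hfyx : f y ≠ x := by
        intro h
        refine hyfx ?_
        rw [← h, hf.inv]
      have hfyfx : f y ≠ f x := by
        intro h
        refine hyx ?_
        rw [← hf.inv y, h, hf.inv]
      have ux := (memU x).1 hx
      have uy := (memU y).1 hy
      have ufx := (memU (f x)).1 hfx
      have ufy := (memU (f y)).1 hfy
      have z1 : H (f x) (f y) = 0 :=
        hf.Y x y a b ux uy hyx hyfx haI hbI hab hxa1 hyb1 (hmu x hx) (hmu y hy)
      have z2 : H x (f y) = 0 := by
        have h := hf.Y (f x) y a b ufx uy hyfx (by rw [hf.inv]; exact hyx) haI hbI hab hfxa1 hyb1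
          (hmu _ hfx) (hmu y hy)
        rwa [hf.inv] at h
      have z3 : H (f x) y = 0 := by
        have h := hf.Y x (f y) a b ux ufy hfyx hfyfx haI hbI hab hxa1 hfyb1
          (hmu _ hx) (hmu _ hfy)
        rwa [hf.inv] at h
      have z4 : H x y = 0 := by
        have h := hf.Y (f x) (f y) a b ufx ufy hfyfx (by rw [hf.inv]; exact hfyx) haI hbI hab hfxa1 hfyb1
          (hmu _ hfx) (hmu _ hfy)
        rwa [hf.inv, hf.inv] at h
      -- the third pair
      have hc4 : ({x, f x, y, f y} : Finset V).card = 4 := by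
        rw [card_insert_of_notMem, card_insert_of_notMem, card_insert_of_notMem, card_singleton]
        · rw [mem_singleton]
          exact fun h => uy h.symm
        · rw [mem_insert, mem_singleton, not_or]
          exact ⟨fun h => hyfx h.symm, fun h => hfyfx h.symm⟩
        · rw [mem_insert, mem_insert, mem_singleton, not_or, not_or]
          exact ⟨fun h => ux h.symm, fun h => hyx h.symm, fun h => hfyx h.symm⟩
      obtain ⟨z, hz, hz'⟩ : ∃ z ∈ U, z ∉ ({x, f x, y, f y} : Finset V) := by
        by_contra hcon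
        push Not at hcon
        have h := card_le_card (show U ⊆ ({x, f x, y, f y} : Finset V) from hcon)
        omega
      rw [mem_insert, mem_insert, mem_insert, mem_singleton, not_or, not_or, not_or] at hz'
      obtain ⟨hzx, hzfx, hzy, hzfy⟩ := hz'
      have hfz := hfU z hz
      have uz := (memU z).1 hz
      have hfzx : f z ≠ x := by
        intro h
        refine hzfx ?_
        rw [← h, hf.inv]
      have hfzy : f z ≠ y := by
        intro h
        refine hzfy ?_
        rw [← h, hf.inv]
      have hfzfx : f z ≠ f x := by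
        intro h
        refine hzx ?_
        rw [← hf.inv z, h, hf.inv]
      have hfzfy : f z ≠ f y := by
        intro h
        refine hzy ?_
        rw [← hf.inv z, h, hf.inv]
      have n1 : f y ∉ ({z, f z} : Finset V) := by
        rw [mem_insert, mem_singleton, not_or]
        exact ⟨fun h => hzfy h.symm, fun h => hfzfy h.symm⟩
      have n2 : y ∉ ({f y, z, f z} : Finset V) := by
        rw [mem_insert, mem_insert, mem_singleton, not_or, not_or]
        exact ⟨fun h => uy h.symm, fun h => hzy h.symm, fun h => hfzy h.symm⟩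
      have n3 : f x ∉ ({y, f y, z, f z} : Finset V) := by
        rw [mem_insert, mem_insert, mem_insert, mem_singleton, not_or, not_or, not_or]
        exact ⟨fun h => hyfx h.symm, fun h => hfyfx h.symm, fun h => hzfx h.symm, fun h => hfzfx h.symm⟩
      have n4 : x ∉ ({f x, y, f y, z, f z} : Finset V) := by
        rw [mem_insert, mem_insert, mem_insert, mem_insert, mem_singleton, not_or, not_or, not_or, not_or]
        exact ⟨fun h => ux h.symm, fun h => hyx h.symm, fun h => hfyx h.symm, fun h => hzx h.symm,
          fun h => hfzx h.symm⟩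
      have n0 : z ∉ ({f z} : Finset V) := by
        rw [mem_singleton]
        exact fun h => uz h.symm
      have hUeq : U = {x, f x, y, f y, z, f z} := by
        refine (eq_of_subset_of_card_le ?_ ?_).symm
        · intro t ht
          simp only [mem_insert, mem_singleton] at ht
          rcases ht with rfl | rfl | rfl | rfl | rfl | rfl
          · exact hx
          · exact hfx
          · exact hy
          · exact hfy
          · exact hz
          · exact hfz
        · rw [hp, card_insert_of_notMem n4, card_insert_of_notMem n3, card_insert_of_notMem n2,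
            card_insert_of_notMem n1, card_insert_of_notMem n0, card_singleton]
      have hsumU : ∀ g : V → ℤ, ∑ t ∈ U, g t = g x + (g (f x) + (g y + (g (f y) + (g z + g (f z))))) := by
        intro g
        rw [hUeq, sum_insert n4, sum_insert n3, sum_insert n2, sum_insert n1, sum_insert n0, sum_singleton]
      have mx := hmu x hx
      have my := hmu y hy
      have mz := hmu z hz
      have f1 := hf.F3 x z ux uz hzx hzfx
      have f2 := hf.F3 x (f z) ux ((memU _).1 hfz) hfzx hfzfx
      have f3 := hf.F3 y z uy uz hzy hzfy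
      have f4 := hf.F3 y (f z) uy ((memU _).1 hfz) hfzy hfzfy
      rw [hmu _ hfz] at f2 f4
      rw [hf.inv] at f2 f4
      rw [mx, mz] at f1
      rw [mx] at f2
      rw [my, mz] at f3
      rw [my] at f4
      have hUU : ∑ u ∈ U, ∑ v ∈ U, H u v ≤ 22 := by
        rw [hsumU, hsumU, hsumU, hsumU, hsumU, hsumU, hsumU]
        rw [hH.diag, hH.diag, hH.diag, hH.diag, hH.diag, hH.diag, hH.symm (f x) x, hH.symm y x,
          hH.symm y (f x), hH.symm (f y) x, hH.symm (f y) (f x), hH.symm (f y) y, hH.symm z x, hH.symm z (f x),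
          hH.symm z y, hH.symm z (f y), hH.symm (f z) x, hH.symm (f z) (f x), hH.symm (f z) y,
          hH.symm (f z) (f y), hH.symm (f z) z, z1, z2, z3, z4, mx, my, mz]
        linarith
      have hUI : ∀ t ∈ U, ∑ c ∈ I, H t c ≤ 1 := by
        intro t ht
        by_cases hex : ∃ c ∈ I, 1 ≤ H t c
        · obtain ⟨c, hc, hc1⟩ := hex
          rw [sum_eq_single_of_mem c hc]
          · exact hle t ht c ((memI c).1 hc)
          · intro d hd hdc
            by_contra h
            refine hdc (hone t ht d c ((memI d).1 hd) ((memI c).1 hc) ?_ hc1)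
            have := hH.nn t d
            omega
        · push Not at hex
          have h : ∑ c ∈ I, H t c ≤ 0 := sum_nonpos fun c hc => by
            have := hex c hc
            omega
          linarith
      have hUI2 : ∑ t ∈ U, ∑ c ∈ I, H t c ≤ 6 := by
        have h := sum_le_sum hUI
        rw [sum_const, hp] at h
        norm_num at h
        exact h
      have htot : ∑ u, ∑ v, H u v = ∑ u ∈ U, ∑ v ∈ U, H u v + 2 * ∑ t ∈ U, ∑ c ∈ I, H t c := by
        rw [sum_split]
        have h3 : ∑ u ∈ U, ∑ v, H u v = ∑ u ∈ U, ∑ v ∈ U, H u v + ∑ t ∈ U, ∑ c ∈ I, H t c := by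
          rw [← sum_add_distrib]
          exact sum_congr rfl fun u _ => sum_split _
        have h4 : ∑ u ∈ I, ∑ v, H u v = ∑ t ∈ U, ∑ c ∈ I, H t c := by
          have h5 : ∑ u ∈ I, ∑ v, H u v = ∑ u ∈ I, ∑ v ∈ U, H u v := by
            refine sum_congr rfl fun u hu => ?_
            rw [sum_split, add_eq_left]
            exact sum_eq_zero fun v hv => hf.indep u v ((memI u).1 hu) ((memI v).1 hv)
          rw [h5, sum_comm]
          exact sum_congr rfl fun u _ => sum_congr rfl fun v _ => hH.symm _ _
        rw [h3, h4]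
        ring
      rw [hq] at htot
      linarith
    omega
  · intro a ha b hb' u
    rw [mem_filter] at ha hb'
    by_cases hu : u ∈ U
    · rw [ha.2 u hu, hb'.2 u hu]
    · have hu' : f u = u := by
        rw [memU, not_not] at hu
        exact hu
      rw [hf.indep u a hu' ((memI a).1 ha.1), hf.indep u b hu' ((memI b).1 hb'.1)]
  · intro a ha b hb'
    rw [mem_filter] at ha hb'
    exact hf.indep a b ((memI a).1 ha.1) ((memI b).1 hb'.1)
  · intro a ha
    rw [mem_filter] at ha
    unfold dg
    refine sum_eq_zero fun u _ => ?_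
    by_cases hu : u ∈ U
    · exact ha.2 u hu
    · have hu' : f u = u := by
        rw [memU, not_not] at hu
        exact hu
      exact hf.indep u a hu' ((memI a).1 ha.1)

end Pool.Agent.BisF
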