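import Mathlib
import Pool.Agent.BisF.Base
import Pool.Agent.BisF.CMin

/-!
# Lemma A

Choose `I₀ ⊆ C`, `|I₀| = κ ≥ 1`, `c₀ ∈ I₀`; `s v = 1 + H v c₀ ≥ 1`, `s = 1` on `C`; `S = ∑ s = N + y`
(natural number), `U' = I₀ᶜ`, `|U'| = N - κ < N`, `s(U') = S - κ`. Put `r u v = w u v - s u * s v` for
`u ≠ v` and `0` for `u = v`. If `u ∈ I₀` (or `v ∈ I₀`) then `r u v = 0`: `w u v = 1 + H u v` and
`H u v = H v u = H v c₀` (twins), `= 0` if `v ∈ I₀`. Hence for every `A`
`wcut w A = s(A) s(Aᶜ) + wcut r' (A ∩ U')`, `r'` the restriction of `r` to (the subtype) `U'`.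
Total: `∑∑ r = ∑∑ w - (S² - ∑ s²)`, `∑∑ w = 2 h` with `h = N(N-1)/2 + q`, and
`s² ≥ 1 + 3 H v c₀ = s + 2 H v c₀`, so `∑ s² ≥ S + 2 y` and `∑∑ r ≥ 2 h - S (S-1) + 2 y = 2 R`, where
`R = h + y - S(S-1)/2`.
By `ih` for `U'`: for every natural `R⁺` with `R⁺ ≤ R` (or `R⁺ = 0`; take `R⁺ = 0` if `R ≤ 0` and the
empty cut) there is `B ⊆ U'` with `wcut r' B ≥ cmin R⁺`. Given `B`, with `b = s(B) ∈ [0, S - κ]`, adding
`a` elements of `I₀` (`0 ≤ a ≤ κ`) gives cuts with `s(A) = b + a`, and value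
`s(A) (S - s(A)) + wcut r' B`.
The four cases of `lemAok` (note `cmin h ≤ cmin (S(S-1)/2) + cmin R⁺ ≤ ⌊S²/4⌋ + cmin R⁺` when
`h ≤ S(S-1)/2 + R⁺`; take `R⁺ = max R 0`):
1. `S ≤ 2 κ + 1`: then `[b, b+κ]` contains `⌊S/2⌋` or `⌈S/2⌉`, value `≥ ⌊S²/4⌋ + cmin R⁺ ≥ cmin h`.
2. `R ≥ 1`, `S ≤ 2 κ + 2 + S % 2`: `cmin R ≥ 1` (`le_two_cmin`) so `B` and `U' \ B` are nonempty (a
   trivial cut has `wcut r' = 0`), `1 ≤ b ≤ S - κ - 1`, and again `[b, b+κ]` contains `⌊S/2⌋` or `⌈S/2⌉`.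
3. `κ ≤ S`, `ch ≤ κ (S - κ)`: the cut `A = I₀`.
4. `κ + 2 ≤ N`, `S(S-1) + 1 ≤ 2 h + 2 y + (N - κ)` (i.e. `2 R + |U'| > 0`), with
   `k = min (κ+1) (S/2)`: `ch ≤ k (S - k) + ⌈R/2⌉⁺`. There is `B ⊆ U'`, `B, U' \ B ≠ ∅`, with
   `wcut r' B ≥ ⌈R/2⌉⁺`: if `R ≥ 1` as in case 2 (`cmin R ≥ ⌈R/2⌉`); if `R ≤ 0`, average over the
   singletons `B = {u}`: `∑_{u∈U'} wcut r' {u} = ∑∑ r' ≥ 2 R > - |U'|`, so some
   `wcut r' {u} > -1`, and `|U'| ≥ 2`. Then `1 ≤ b ≤ S - κ - 1`, so `[b, b+κ]` meets `[k, S - k]`, and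
   `t (S - t) ≥ k (S - k)` for `k ≤ t ≤ S - k`.
`cmin h ≤ ch` by `hch`.
-/

set_option autoImplicit false
set_option linter.unusedSectionVars false
set_option linter.unusedVariables false

namespace Pool.Agent.BisF

open Finset Pool.Agent.Bisect

variable {V : Type} [Fintype V] [DecidableEq V]

namespace LemAAux

lemma wcut_ite (r : V → V → ℤ) (A : Finset V) :
    wcut r A = ∑ u, ∑ v, if u ∈ A ∧ v ∉ A then r u v else 0 := by
  unfold wcut
  rw [← Finset.sum_filter_add_sum_filter_not univ (fun u => u ∈ A)]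
  have h2 : ∑ u ∈ univ.filter (fun u => ¬ u ∈ A), ∑ v, (if u ∈ A ∧ v ∉ A then r u v else 0) = 0 := by
    apply Finset.sum_eq_zero
    intro u hu
    apply Finset.sum_eq_zero
    intro v _
    simp [(Finset.mem_filter.1 hu).2]
  rw [h2, add_zero]
  have h3 : univ.filter (fun u => u ∈ A) = A := by ext; simp
  rw [h3]
  apply Finset.sum_congr rfl
  intro u hu
  rw [← Finset.sum_filter_add_sum_filter_not univ (fun v => v ∉ A)]
  have h4 : ∑ v ∈ univ.filter (fun v => ¬ v ∉ A), (if u ∈ A ∧ v ∉ A then r u v else 0) = 0 := by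
    apply Finset.sum_eq_zero
    intro v hv
    have := (Finset.mem_filter.1 hv).2
    simp [not_not.1 this]
  rw [h4, add_zero]
  have h5 : univ.filter (fun v => v ∉ A) = Aᶜ := by ext; simp
  rw [h5]
  apply Finset.sum_congr rfl
  intro v hv
  rw [if_pos ⟨hu, by simpa using hv⟩]

lemma sum_out {I : Finset V} {f : V → ℤ} (hf : ∀ u ∈ I, f u = 0) :
    ∑ u, f u = ∑ u : {v // v ∉ I}, f u.1 := by
  rw [← Finset.sum_subtype Iᶜ (fun x => by simp) f]
  symm
  apply Finset.sum_subset (Finset.subset_univ _)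
  intro x _ hx
  exact hf x (by simpa using hx)

lemma wcut_out {I : Finset V} {r : V → V → ℤ} (h1 : ∀ u v, u ∈ I → r u v = 0)
    (h2 : ∀ u v, v ∈ I → r u v = 0) (B : Finset {v // v ∉ I}) (A : Finset V)
    (hA : ∀ x : {v // v ∉ I}, x.1 ∈ A ↔ x ∈ B) :
    wcut r A = wcut (fun u v : {v // v ∉ I} => r u.1 v.1) B := by
  rw [wcut_ite, wcut_ite]
  rw [sum_out (I := I)]
  · apply Finset.sum_congr rfl
    intro u _
    rw [sum_out (I := I)]
    · apply Finset.sum_congr rfl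
      intro v _
      simp only [hA]
    · intro v hv
      simp [h2 u.1 v hv]
  · intro u hu
    apply Finset.sum_eq_zero
    intro v _
    simp [h1 u v hu]

lemma sum2_out {I : Finset V} {r : V → V → ℤ} (h1 : ∀ u v, u ∈ I → r u v = 0)
    (h2 : ∀ u v, v ∈ I → r u v = 0) :
    ∑ u, ∑ v, r u v = ∑ u : {v // v ∉ I}, ∑ v : {v // v ∉ I}, r u.1 v.1 := by
  rw [sum_out (I := I)]
  · apply Finset.sum_congr rfl
    intro u _
    rw [sum_out (I := I)]
    intro v hv
    exact h2 u.1 v hv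
  · intro u hu
    exact Finset.sum_eq_zero fun v _ => h1 u v hu

lemma wcut_split {w r : V → V → ℤ} {s : V → ℤ} (h : ∀ u v, u ≠ v → w u v = s u * s v + r u v)
    (A : Finset V) :
    wcut w A = (∑ u ∈ A, s u) * (∑ v, s v - ∑ u ∈ A, s u) + wcut r A := by
  have hc : ∑ v, s v - ∑ u ∈ A, s u = ∑ v ∈ Aᶜ, s v := by
    rw [← Finset.sum_add_sum_compl A s]; ring
  rw [hc]
  unfold wcut
  rw [Finset.sum_mul_sum, ← Finset.sum_add_distrib]
  apply Finset.sum_congr rfl
  intro u hu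
  rw [← Finset.sum_add_distrib]
  apply Finset.sum_congr rfl
  intro v hv
  apply h
  rintro rfl
  exact (by simpa using hv : u ∉ A) hu

lemma half_mul {S t : ℤ} (h1 : S - 1 ≤ 2 * t) (h2 : 2 * t ≤ S + 1) (f : ℤ) (hf : 4 * f ≤ S * S) :
    f ≤ t * (S - t) := by
  have h3 : S * S - 4 * (t * (S - t)) = (S - 2 * t) * (S - 2 * t) := by ring
  have h4 : (S - 2 * t) * (S - 2 * t) ≤ 1 := by nlinarith
  by_contra h5
  push Not at h5
  have : t * (S - t) + 1 ≤ f := h5
  linarith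

lemma wc_empty {W : Type} [Fintype W] [DecidableEq W] (w : W → W → ℤ) : wcut w ∅ = 0 := by
  simp [wcut]

lemma wc_univ {W : Type} [Fintype W] [DecidableEq W] (w : W → W → ℤ) : wcut w univ = 0 := by
  simp [wcut]

lemma ok_cases {N q κ y ch S h T : ℕ} (hok : lemAok N q κ y ch = true) (hS : S = N + y)
    (hh : h = N * (N - 1) / 2 + q) (hT : T = S * (S - 1) / 2) :
    1 ≤ κ ∧ (S ≤ 2 * κ + 1 ∨ (T + 1 ≤ h + y ∧ S ≤ 2 * κ + 2 + S % 2) ∨
      (κ ≤ S ∧ ch ≤ κ * (S - κ)) ∨ (κ + 2 ≤ N ∧ S * (S - 1) + 1 ≤ 2 * h + 2 * y + (N - κ) ∧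
        ch ≤ min (κ + 1) (S / 2) * (S - min (κ + 1) (S / 2)) + (h + y + 1 - T) / 2)) := by
  subst hS hh hT
  unfold lemAok at hok
  simp only [Bool.and_eq_true, Bool.or_eq_true, Nat.ble_eq] at hok
  tauto

end LemAAux

open LemAAux in
theorem lemA {N q : ℕ} (hN : Fintype.card V = N) (ih : IHN N) {H w : V → V → ℤ} (hH : Sur H)
    (hw : ∀ u v, u ≠ v → w u v = H u v + 1) (hw0 : ∀ v, w v v = 0)
    (hq : ∑ u, ∑ v, H u v = 2 * q) {C : Finset V} {κ y ch : ℕ} (hκ : κ ≤ C.card)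
    (hCt : ∀ a ∈ C, ∀ b ∈ C, Tw H a b) (hCi : ∀ a ∈ C, ∀ b ∈ C, H a b = 0)
    (hy : ∀ a ∈ C, dg H a = y) (hok : lemAok N q κ y ch = true)
    (hch : cmin (N * (N - 1) / 2 + q) ≤ ch) :
    ∃ A : Finset V, (cmin (N * (N - 1) / 2 + q) : ℤ) ≤ wcut w A := by
  -- numeric form of the hypothesis
  obtain ⟨h, hh⟩ : ∃ h : ℕ, h = N * (N - 1) / 2 + q := ⟨_, rfl⟩
  rw [← hh] at hch ⊢
  have hev : 2 * (N * (N - 1) / 2) = N * (N - 1) :=
    Nat.mul_div_cancel' (Nat.even_mul_pred_self N).two_dvd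
  have h2h : (2 * h : ℤ) = (N : ℤ) * (N - 1) + 2 * q := by
    have h1 : (2 * h : ℤ) = ((2 * (N * (N - 1) / 2) : ℕ) : ℤ) + 2 * q := by
      rw [hh]; push_cast; ring
    rw [h1, hev]
    rcases Nat.eq_zero_or_pos N with h0 | h0
    · simp [h0]
    · push_cast [Nat.cast_sub h0]; ring
  obtain ⟨S, hS⟩ : ∃ S : ℕ, S = N + y := ⟨_, rfl⟩
  obtain ⟨T, hT⟩ : ∃ T : ℕ, T = S * (S - 1) / 2 := ⟨_, rfl⟩
  obtain ⟨hκ1, hok⟩ := ok_cases hok hS hh hT
  obtain ⟨I, hIC, hIκ⟩ := Finset.exists_subset_card_eq hκ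
  obtain ⟨c, hc⟩ : I.Nonempty := by
    rw [← Finset.card_pos, hIκ]; exact hκ1
  let s : V → ℤ := fun v => 1 + H v c
  have hsI : ∀ v ∈ I, s v = 1 := by
    intro v hv
    simp only [s]
    rw [hCi v (hIC hv) c (hIC hc)]; ring
  have hs1 : ∀ v, 1 ≤ s v := by
    intro v
    have := hH.nn v c
    simp only [s]; linarith
  have hyc : ∑ v, H v c = y := hy c (hIC hc)
  have hsS : ∑ v, s v = S := by
    simp only [s]
    rw [Finset.sum_add_distrib, hyc]
    simp [hN, hS]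
  let r : V → V → ℤ := fun u v => if u = v then 0 else w u v - s u * s v
  have hwr : ∀ u v, u ≠ v → w u v = s u * s v + r u v := by
    intro u v huv
    simp only [r, if_neg huv]; ring
  have hcol : ∀ u v, v ∈ I → r u v = 0 := by
    intro u v hv
    by_cases huv : u = v
    · simp [r, huv]
    · simp only [r, if_neg huv, hw u v huv, hsI v hv, s]
      have := hCt v (hIC hv) c (hIC hc) u
      rw [this]; ring
  have hsymw : ∀ u v, w u v = w v u := by
    intro u v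
    by_cases huv : u = v
    · rw [huv]
    · rw [hw u v huv, hw v u (Ne.symm huv), hH.symm u v]
  have hsymr : ∀ u v, r u v = r v u := by
    intro u v
    by_cases huv : u = v
    · rw [huv]
    · simp only [r, if_neg huv, if_neg (Ne.symm huv), hsymw u v]; ring
  have hrow : ∀ u v, u ∈ I → r u v = 0 := fun u v hu => by rw [hsymr]; exact hcol v u hu
  -- the rest
  let r' : {v // v ∉ I} → {v // v ∉ I} → ℤ := fun u v => r u.1 v.1
  have hcardU : Fintype.card {v // v ∉ I} = N - κ := by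
    rw [Fintype.card_subtype_compl]
    simp [hN, hIκ]
  have hκN : κ ≤ N := by
    rw [← hN, ← hIκ]; exact Finset.card_le_univ I
  have hN1 : 1 ≤ N := le_trans hκ1 hκN
  -- total of the rest
  have hsq : (S : ℤ) + 2 * y ≤ ∑ v, s v * s v := by
    have h1 : ∀ v, 1 + 3 * H v c ≤ s v * s v := by
      intro v
      have h2 := hH.nn v c
      simp only [s]
      rcases h2.eq_or_lt with h3 | h3
      · rw [← h3]; norm_num
      · nlinarith
    calc (S : ℤ) + 2 * y = ∑ v, (1 + 3 * H v c) := by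
          rw [Finset.sum_add_distrib, ← Finset.mul_sum, hyc]
          simp [hN, hS]; ring
      _ ≤ _ := Finset.sum_le_sum fun v _ => h1 v
  have hsumw : ∑ u, ∑ v, w u v = 2 * h := by
    have h1 : ∀ u, ∑ v, w u v = ∑ v, H u v + ((N : ℤ) - 1) := by
      intro u
      have h2 : ∀ v, w u v = H u v + 1 - (if u = v then 1 else 0) := by
        intro v
        by_cases huv : u = v
        · rw [if_pos huv, ← huv, hw0 u, hH.diag u]; ring
        · rw [if_neg huv, hw u v huv]; ring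
      rw [Finset.sum_congr rfl fun v _ => h2 v, Finset.sum_sub_distrib, Finset.sum_add_distrib]
      simp [hN]; ring
    rw [Finset.sum_congr rfl fun u _ => h1 u, Finset.sum_add_distrib, hq, h2h]
    simp [hN]; ring
  have hsumr : ∑ u, ∑ v, r u v = 2 * h - (S : ℤ) * S + ∑ v, s v * s v := by
    have h1 : ∀ u, ∑ v, r u v = ∑ v, w u v - s u * S + s u * s u := by
      intro u
      have h2 : ∀ v, r u v = w u v - s u * s v + (if u = v then s u * s u else 0) := by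
        intro v
        by_cases huv : u = v
        · simp only [r]
          rw [if_pos huv, if_pos huv, ← huv, hw0 u]; ring
        · simp only [r]
          rw [if_neg huv, if_neg huv]; ring
      rw [Finset.sum_congr rfl fun v _ => h2 v, Finset.sum_add_distrib, Finset.sum_sub_distrib,
        ← Finset.mul_sum, hsS]
      simp
    rw [Finset.sum_congr rfl fun u _ => h1 u, Finset.sum_add_distrib, Finset.sum_sub_distrib,
      ← Finset.sum_mul, hsS, hsumw]
  have htot : 2 * ((h : ℤ) + y) - (S : ℤ) * (S - 1) ≤ ∑ u, ∑ v, r' u v := by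
    have h1 : ∑ u, ∑ v, r' u v = ∑ u, ∑ v, r u v := (sum2_out hrow hcol).symm
    rw [h1, hsumr]
    linarith
  have hS2 : 2 * T = S * (S - 1) := by
    rw [hT]; exact Nat.mul_div_cancel' (Nat.even_mul_pred_self S).two_dvd
  have hS1 : 1 ≤ S := by omega
  have hTz : (2 * T : ℤ) = (S : ℤ) * (S - 1) := by
    have h1 : (2 * T : ℤ) = ((2 * T : ℕ) : ℤ) := by push_cast; ring
    rw [h1, hS2]
    push_cast [Nat.cast_sub hS1]; ring
  -- the cuts
  have hcut : ∀ (B : Finset {v // v ∉ I}) (a : ℕ), a ≤ κ → ∃ A : Finset V,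
      wcut w A = (∑ u ∈ B, s u.1 + a) * (S - (∑ u ∈ B, s u.1 + a)) + wcut r' B := by
    intro B a ha
    obtain ⟨J, hJI, hJa⟩ := Finset.exists_subset_card_eq (hIκ ▸ ha : a ≤ I.card)
    refine ⟨B.map (Function.Embedding.subtype _) ∪ J, ?_⟩
    have hdis : Disjoint (B.map (Function.Embedding.subtype _)) J := by
      rw [Finset.disjoint_left]
      intro x hx hxJ
      obtain ⟨z, _, rfl⟩ := Finset.mem_map.1 hx
      exact z.2 (hJI hxJ)
    have hsA : ∑ u ∈ B.map (Function.Embedding.subtype _) ∪ J, s u = ∑ u ∈ B, s u.1 + a := by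
      rw [Finset.sum_union hdis, Finset.sum_map]
      congr 1
      rw [Finset.sum_congr rfl fun u hu => hsI u (hJI hu)]
      simp [hJa]
    rw [wcut_split hwr, hsA, hsS]
    congr 1
    apply wcut_out hrow hcol
    intro x
    simp only [Finset.mem_union, Finset.mem_map, Function.Embedding.subtype_apply]
    constructor
    · rintro (⟨z, hz, hzx⟩ | hx)
      · rwa [← Subtype.ext hzx]
      · exact absurd (hJI hx) x.2
    · intro hx
      exact Or.inl ⟨x, hx, rfl⟩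
  -- sizes
  have hb0 : ∀ B : Finset {v // v ∉ I}, (B.card : ℤ) ≤ ∑ u ∈ B, s u.1 := by
    intro B
    calc (B.card : ℤ) = ∑ u ∈ B, (1 : ℤ) := by simp
      _ ≤ _ := Finset.sum_le_sum fun u _ => hs1 u.1
  have hb1 : ∀ B : Finset {v // v ∉ I}, ∑ u ∈ B, s u.1 + (Bᶜ.card : ℤ) ≤ S - κ := by
    intro B
    have h1 : ∑ u : {v // v ∉ I}, s u.1 = S - κ := by
      rw [← hsS, ← Finset.sum_add_sum_compl I s, Finset.sum_congr rfl fun u hu => hsI u hu,
        ← Finset.sum_subtype Iᶜ (fun x => by simp) s]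
      simp [hIκ]
    have h2 := Finset.sum_add_sum_compl B (fun u : {v // v ∉ I} => s u.1)
    have h3 := hb0 Bᶜ
    linarith
  -- key step
  have hkey : ∀ (B : Finset {v // v ∉ I}) (lo : ℤ), lo ≤ ∑ u ∈ B, s u.1 + κ →
      ∑ u ∈ B, s u.1 ≤ S - lo → 2 * lo ≤ S → ∃ A : Finset V,
      lo * (S - lo) + wcut r' B ≤ wcut w A := by
    intro B lo h1 h2 h3
    by_cases h4 : lo ≤ ∑ u ∈ B, s u.1
    · obtain ⟨A, hA⟩ := hcut B 0 (Nat.zero_le _)
      refine ⟨A, ?_⟩
      rw [hA]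
      push_cast
      nlinarith [mul_nonneg (sub_nonneg.2 h4) (sub_nonneg.2 h2)]
    · push Not at h4
      obtain ⟨a, ha⟩ : ∃ a : ℕ, (a : ℤ) = lo - ∑ u ∈ B, s u.1 :=
        ⟨(lo - ∑ u ∈ B, s u.1).toNat, Int.toNat_of_nonneg (by linarith)⟩
      obtain ⟨A, hA⟩ := hcut B a (by exact_mod_cast (by linarith : (a : ℤ) ≤ κ))
      refine ⟨A, ?_⟩
      rw [hA, ha]
      apply le_of_eq
      ring
  -- induction hypothesis on the rest
  have hih : ∀ R : ℕ, (R : ℤ) ≤ h + y - T → ∃ B : Finset {v // v ∉ I},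
      (cmin R : ℤ) ≤ wcut r' B := by
    intro R hR
    apply ih {v // v ∉ I} inferInstance inferInstance (by rw [hcardU]; omega) r'
      (fun u v => hsymr u.1 v.1) (fun v => by simp [r', r]) R
    linarith
  have hihc : ∀ R : ℕ, 1 ≤ R → (R : ℤ) ≤ h + y - T → ∃ B : Finset {v // v ∉ I},
      1 ≤ B.card ∧ 1 ≤ Bᶜ.card ∧ (cmin R : ℤ) ≤ wcut r' B := by
    intro R h1 hR
    obtain ⟨B, hB⟩ := hih R hR
    have h2 := le_two_cmin R
    have h3 : 1 ≤ wcut r' B := by
      have : (1 : ℤ) ≤ cmin R := by exact_mod_cast (by omega : 1 ≤ cmin R)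
      linarith
    refine ⟨B, ?_, ?_, hB⟩
    · rw [Nat.one_le_iff_ne_zero]
      intro h4
      rw [Finset.card_eq_zero.1 h4, wc_empty] at h3
      omega
    · rw [Nat.one_le_iff_ne_zero]
      intro h4
      have h5 : B = univ := by
        rw [← Finset.compl_eq_empty_iff]; exact Finset.card_eq_zero.1 h4
      rw [h5, wc_univ] at h3
      omega
  have hmid : (4 * (S * S / 4 : ℕ) : ℤ) ≤ (S : ℤ) * S := by
    have := Nat.mul_div_le (S * S) 4
    exact_mod_cast this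
  have hSh : (2 * (S / 2 : ℕ) : ℤ) ≤ S ∧ (S : ℤ) ≤ 2 * (S / 2 : ℕ) + 1 := by
    constructor <;> omega
  have hcl : ∀ R : ℕ, h ≤ T + R → (cmin h : ℤ) ≤ (S / 2 : ℕ) * ((S : ℤ) - (S / 2 : ℕ)) + cmin R := by
    intro R hR
    have h1 : cmin h ≤ S * S / 4 + cmin R :=
      le_trans (cmin_mono hR) (le_trans (cmin_add _ _) (by have := cmin_tri S; rw [← hT] at this; omega))
    have h2 : ((S * S / 4 : ℕ) : ℤ) ≤ (S / 2 : ℕ) * ((S : ℤ) - (S / 2 : ℕ)) :=
      half_mul (by linarith [hSh.2]) (by linarith [hSh.1]) _ hmid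
    have h3 : (cmin h : ℤ) ≤ ((S * S / 4 : ℕ) : ℤ) + cmin R := by exact_mod_cast h1
    linarith
  rcases hok with h1 | ⟨h1, h2⟩ | ⟨h1, h2⟩ | ⟨h1, h2, h3⟩
  · -- case 1
    have h2 : (S / 2 : ℕ) ≤ κ := by omega
    have h2' : ((S / 2 : ℕ) : ℤ) ≤ κ := by exact_mod_cast h2
    obtain ⟨R, hR1, B, hB⟩ : ∃ R : ℕ, h ≤ T + R ∧ ∃ B : Finset {v // v ∉ I},
        (cmin R : ℤ) ≤ wcut r' B := by
      by_cases h5 : T ≤ h + y
      · refine ⟨h + y - T, by omega, hih _ ?_⟩
        push_cast [Nat.cast_sub h5]; linarith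
      · refine ⟨0, by omega, ∅, ?_⟩
        rw [cmin_zero, wc_empty]; simp
    have h6 := hb0 B
    have h7 := hb1 B
    obtain ⟨A, hA⟩ := hkey B (S / 2 : ℕ) (by
      have : (0 : ℤ) ≤ B.card := by positivity
      linarith) (by
      have : (0 : ℤ) ≤ Bᶜ.card := by positivity
      have h8 : (S : ℤ) - κ ≤ S - (S / 2 : ℕ) := by linarith
      linarith) (by exact_mod_cast hSh.1)
    exact ⟨A, by have := hcl R hR1; linarith⟩
  · -- case 2
    have h3 : (S / 2 : ℕ) ≤ κ + 1 := by omega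
    have h3' : ((S / 2 : ℕ) : ℤ) ≤ κ + 1 := by exact_mod_cast h3
    obtain ⟨B, hB1, hB2, hB⟩ := hihc (h + y - T) (by omega) (by
      have : T ≤ h + y := by omega
      push_cast [Nat.cast_sub this]; linarith)
    have h6 := hb0 B
    have h7 := hb1 B
    have h8 : (1 : ℤ) ≤ B.card := by exact_mod_cast hB1
    have h9 : (1 : ℤ) ≤ Bᶜ.card := by exact_mod_cast hB2
    obtain ⟨A, hA⟩ := hkey B (S / 2 : ℕ) (by linarith) (by linarith) hSh.1
    exact ⟨A, by have := hcl (h + y - T) (by omega); linarith⟩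
  · -- case 3
    obtain ⟨A, hA⟩ := hcut ∅ κ le_rfl
    refine ⟨A, ?_⟩
    rw [hA, wc_empty]
    have h3 : cmin h ≤ κ * (S - κ) := le_trans hch h2
    have h4 : (cmin h : ℤ) ≤ ((κ * (S - κ) : ℕ) : ℤ) := by exact_mod_cast h3
    have h5 : ((κ * (S - κ) : ℕ) : ℤ) = (κ : ℤ) * (S - κ) := by
      push_cast [Nat.cast_sub h1]; ring
    rw [h5] at h4
    simpa using h4
  · -- case 4
    obtain ⟨B, hB1, hB2, hB⟩ : ∃ B : Finset {v // v ∉ I},
        1 ≤ B.card ∧ 1 ≤ Bᶜ.card ∧ (((h + y + 1 - T) / 2 : ℕ) : ℤ) ≤ wcut r' B := by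
      by_cases h5 : T + 1 ≤ h + y
      · obtain ⟨B, hB1, hB2, hB⟩ := hihc (h + y - T) (by omega) (by
          have : T ≤ h + y := by omega
          push_cast [Nat.cast_sub this]; linarith)
        refine ⟨B, hB1, hB2, le_trans ?_ hB⟩
        have h6 := le_two_cmin (h + y - T)
        exact_mod_cast (by omega : (h + y + 1 - T) / 2 ≤ cmin (h + y - T))
      · have h6 : (h + y + 1 - T) / 2 = 0 := by omega
        rw [h6]
        have h7 : ∃ u : {v // v ∉ I}, 0 ≤ wcut r' {u} := by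
          by_contra h8
          push Not at h8
          have h9 : ∑ u : {v // v ∉ I}, wcut r' {u} = ∑ u, ∑ v, r' u v := by
            apply Finset.sum_congr rfl
            intro u _
            unfold wcut
            rw [Finset.sum_singleton, ← Finset.sum_add_sum_compl {u} (fun v => r' u v)]
            simp [r', r]
          have h10 : ∑ u : {v // v ∉ I}, wcut r' {u} ≤ ∑ u : {v // v ∉ I}, (-1 : ℤ) :=
            Finset.sum_le_sum fun u _ => by have := h8 u; omega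
          rw [Finset.sum_const, Finset.card_univ, hcardU, h9] at h10
          simp only [nsmul_eq_mul, mul_neg, mul_one] at h10
          have h11 : (S : ℤ) * (S - 1) + 1 ≤ 2 * h + 2 * y + ((N - κ : ℕ) : ℤ) := by
            rw [← hTz]
            have : 2 * T + 1 ≤ 2 * h + 2 * y + (N - κ) := by rw [hS2]; exact h2
            exact_mod_cast this
          linarith
        obtain ⟨u, hu⟩ := h7
        refine ⟨{u}, by simp, ?_, by simpa using hu⟩
        rw [Finset.card_compl, hcardU, Finset.card_singleton]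
        omega
    have h6 := hb0 B
    have h7 := hb1 B
    have h8 : (1 : ℤ) ≤ B.card := by exact_mod_cast hB1
    have h9 : (1 : ℤ) ≤ Bᶜ.card := by exact_mod_cast hB2
    set k : ℕ := min (κ + 1) (S / 2) with hk
    have hk1 : k ≤ κ + 1 := min_le_left _ _
    have hk2 : 2 * k ≤ S := by
      have : k ≤ S / 2 := min_le_right _ _
      omega
    have hk1' : (k : ℤ) ≤ κ + 1 := by exact_mod_cast hk1
    obtain ⟨A, hA⟩ := hkey B k (by linarith) (by linarith) (by exact_mod_cast hk2)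
    refine ⟨A, ?_⟩
    have h10 : cmin h ≤ k * (S - k) + (h + y + 1 - T) / 2 := le_trans hch h3
    have h11 : (cmin h : ℤ) ≤ ((k * (S - k) : ℕ) : ℤ) + (((h + y + 1 - T) / 2 : ℕ) : ℤ) := by
      exact_mod_cast h10
    have h12 : ((k * (S - k) : ℕ) : ℤ) = (k : ℤ) * (S - k) := by
      have : k ≤ S := by omega
      push_cast [Nat.cast_sub this]; ring
    rw [h12] at h11
    linarith

end Pool.Agent.BisF
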