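import Mathlib
import Pool.Agent.BisF.Base

/-!
# The maximum matching as an involution

Let `φ t = 3 t + (if 1 ≤ t then 1 else 0)` (for `t ≥ 0`; `φ 0 = 0`, `φ` monotone). Among the
(finitely many) maps `f : V → V` with `f (f x) = x` choose one maximising `∑ x, φ (H x (f x))`
(`id` is one). Replace it by `f x := x` if `H x (f x) = 0` (still an involution, as `H` is
symmetric, same value); so `f x ≠ x → 1 ≤ H x (f x)`.

Exchange lemma: if `T : Finset V` is mapped into itself by `f` and `g` maps `T` into itself with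
`g (g x) = x` on `T`, then `f' = (g on T, f off T)` is an involution (if `x ∉ T` then `f x ∉ T`,
because `f (f x) = x`), so `∑_{x∈T} φ (H x (g x)) ≤ ∑_{x∈T} φ (H x (f x))`.
Consequences (`μ = H x (f x)`, `a, b` fixed points of `f`):
* `indep` : `T = {a, b}`, swap: `2 φ(H a b) ≤ 0` (for `a = b` use `H a a = 0`).
* `F1` : `T = {x, f x, a}`, `g`: x↔a, f x fixed: `2 φ(H x a) ≤ 2 φ(μ)`, so `H x a ≤ μ`.
* `F2`, `F2s` : `T = {x, f x, a, b}`, `g`: x↔a, f x↔b: `φ(H x a) + φ(H (f x) b) ≤ φ(μ)`, i.e.
  `3 (H x a + H (f x) b) + [..] + [..] ≤ 3 μ + 1`.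
* `F3` : `T = {x, f x, y, f y}`, `g`: x↔y, f x↔f y:
  `φ(H x y) + φ(H (f x)(f y)) ≤ φ(H x (f x)) + φ(H y (f y))`, i.e. `3 (sum) ≤ 3 (sum) + 2`.
* `Y` : `T = {a, x, f x, f y, y, b}`, `g`: a↔x, f x↔f y, y↔b:
  `φ(H x a) + φ(H (f x)(f y)) + φ(H y b) ≤ φ(1) + φ(1)` and `φ(H x a), φ(H y b) ≥ φ(1)`.
-/

set_option autoImplicit false
set_option linter.unusedSectionVars false
set_option linter.unusedVariables false
set_option linter.unusedSimpArgs false

namespace Pool.Agent.BisF

open Finset Pool.Agent.Bisect

variable {V : Type} [Fintype V] [DecidableEq V]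

namespace MaxInvAux

/-- the weight of a pair -/
def ph (t : ℤ) : ℤ := 3 * t + (if 1 ≤ t then 1 else 0)

theorem ph_zero : ph 0 = 0 := by
  unfold ph
  norm_num

theorem ph_pos {t : ℤ} (h : 1 ≤ t) : ph t = 3 * t + 1 := by
  unfold ph
  rw [if_pos h]

theorem ph_ge {t : ℤ} : 3 * t ≤ ph t := by
  unfold ph
  split_ifs <;> omega

theorem ph_le {t : ℤ} : ph t ≤ 3 * t + 1 := by
  unfold ph
  split_ifs <;> omega

/-- the total value of a map -/
def val (H : V → V → ℤ) (f : V → V) : ℤ := ∑ x, ph (H x (f x))

/-- the maximum property -/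
def IsMax (H : V → V → ℤ) (f : V → V) : Prop :=
  (∀ x, f (f x) = x) ∧ ∀ g : V → V, (∀ x, g (g x) = x) → val H g ≤ val H f

theorem exists_max (H : V → V → ℤ) : ∃ f : V → V, IsMax H f := by
  classical
  obtain ⟨f, hf, hm⟩ := Finset.exists_max_image
    (Finset.univ.filter (fun f : V → V => ∀ x, f (f x) = x)) (val H)
    ⟨id, by simp⟩
  refine ⟨f, (Finset.mem_filter.1 hf).2, fun g hg => hm g ?_⟩
  exact Finset.mem_filter.2 ⟨Finset.mem_univ _, hg⟩

theorem exists_max' {H : V → V → ℤ} (hH : Sur H) :
    ∃ f : V → V, IsMax H f ∧ ∀ x, f x ≠ x → 1 ≤ H x (f x) := by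
  obtain ⟨f, hf, hm⟩ := exists_max H
  refine ⟨fun x => if H x (f x) = 0 then x else f x, ⟨?_, ?_⟩, ?_⟩
  · intro x
    by_cases h : H x (f x) = 0
    · simp only [h, if_true]
    · have h1 : H (f x) (f (f x)) ≠ 0 := by
        rw [hf x, hH.symm]
        exact h
      simp only [h, if_false, h1]
      exact hf x
  · intro g hg
    refine (hm g hg).trans (le_of_eq ?_)
    refine Finset.sum_congr rfl fun x _ => ?_
    by_cases h : H x (f x) = 0
    · simp only [h, if_true, hH.diag]
    · simp only [h, if_false]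
  · intro x hx
    by_cases h : H x (f x) = 0
    · simp only [h, if_true] at hx
      exact absurd rfl hx
    · simp only [h, if_false]
      have := hH.nn x (f x)
      omega

/-- the exchange lemma -/
theorem exch {H : V → V → ℤ} {f : V → V} (hf : IsMax H f) (T : Finset V)
    (hT : ∀ x ∈ T, f x ∈ T) (g : V → V) (hg : ∀ x ∈ T, g x ∈ T) (hgg : ∀ x ∈ T, g (g x) = x) :
    ∑ x ∈ T, ph (H x (g x)) ≤ ∑ x ∈ T, ph (H x (f x)) := by
  have h1 := hf.2 (fun z => if z ∈ T then g z else f z) (by
    intro x
    by_cases hx : x ∈ T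
    · simp only [hx, if_true, hg x hx]
      exact hgg x hx
    · have hfx : f x ∉ T := fun h => hx (by
        have := hT _ h
        rwa [hf.1 x] at this)
      simp only [hx, if_false, hfx]
      exact hf.1 x)
  unfold val at h1
  rw [← Finset.sum_add_sum_compl T, ← Finset.sum_add_sum_compl T (fun x => ph (H x (f x)))] at h1
  have h2 : ∑ x ∈ T, ph (H x (if x ∈ T then g x else f x)) = ∑ x ∈ T, ph (H x (g x)) := by
    refine Finset.sum_congr rfl fun x hx => ?_
    rw [if_pos hx]
  have h3 : ∑ x ∈ Tᶜ, ph (H x (if x ∈ T then g x else f x)) = ∑ x ∈ Tᶜ, ph (H x (f x)) := by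
    refine Finset.sum_congr rfl fun x hx => ?_
    rw [if_neg (Finset.mem_compl.1 hx)]
  rw [h2, h3] at h1
  linarith

/-- two pairs -/
theorem exch2 {H : V → V → ℤ} (hH : Sur H) {f : V → V} (hf : IsMax H f) {x a u b : V}
    (h1 : x ≠ a) (h2 : x ≠ u) (h3 : x ≠ b) (h4 : a ≠ u) (h5 : a ≠ b) (h6 : u ≠ b)
    (hT : ∀ z ∈ ({x, a, u, b} : Finset V), f z ∈ ({x, a, u, b} : Finset V)) :
    2 * ph (H x a) + 2 * ph (H u b) ≤
      ph (H x (f x)) + ph (H a (f a)) + ph (H u (f u)) + ph (H b (f b)) := by
  have key := exch hf {x, a, u, b} hT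
    (fun z => if z = x then a else if z = a then x else if z = u then b else u)
    (by
      intro z hz
      simp only [Finset.mem_insert, Finset.mem_singleton] at hz
      rcases hz with rfl | rfl | rfl | rfl <;>
        simp [h1, h2, h3, h4, h5, h6, h1.symm, h2.symm, h3.symm, h4.symm, h5.symm, h6.symm])
    (by
      intro z hz
      simp only [Finset.mem_insert, Finset.mem_singleton] at hz
      rcases hz with rfl | rfl | rfl | rfl <;>
        simp [h1, h2, h3, h4, h5, h6, h1.symm, h2.symm, h3.symm, h4.symm, h5.symm, h6.symm])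
  have e : ∀ F : V → ℤ, ∑ z ∈ ({x, a, u, b} : Finset V), F z = F x + F a + F u + F b := by
    intro F
    rw [Finset.sum_insert (by simp [h1, h2, h3]), Finset.sum_insert (by simp [h4, h5]),
      Finset.sum_insert (by simp [h6]), Finset.sum_singleton]
    ring
  rw [e, e] at key
  simp only [if_true, h1.symm, h2.symm, h3.symm, h4.symm, h5.symm, h6.symm, if_false] at key
  rw [hH.symm a x, hH.symm b u] at key
  linarith

/-- three pairs -/
theorem exch3 {H : V → V → ℤ} (hH : Sur H) {f : V → V} (hf : IsMax H f) {x a u b y c : V}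
    (h1 : x ≠ a) (h2 : x ≠ u) (h3 : x ≠ b) (h4 : x ≠ y) (h5 : x ≠ c)
    (h6 : a ≠ u) (h7 : a ≠ b) (h8 : a ≠ y) (h9 : a ≠ c)
    (h10 : u ≠ b) (h11 : u ≠ y) (h12 : u ≠ c) (h13 : b ≠ y) (h14 : b ≠ c) (h15 : y ≠ c)
    (hT : ∀ z ∈ ({x, a, u, b, y, c} : Finset V), f z ∈ ({x, a, u, b, y, c} : Finset V)) :
    2 * ph (H x a) + 2 * ph (H u b) + 2 * ph (H y c) ≤
      ph (H x (f x)) + ph (H a (f a)) + ph (H u (f u)) + ph (H b (f b)) + ph (H y (f y)) +
        ph (H c (f c)) := by
  have key := exch hf {x, a, u, b, y, c} hT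
    (fun z => if z = x then a else if z = a then x else if z = u then b else if z = b then u else
      if z = y then c else y)
    (by
      intro z hz
      simp only [Finset.mem_insert, Finset.mem_singleton] at hz
      rcases hz with rfl | rfl | rfl | rfl | rfl | rfl <;>
        simp [h1, h2, h3, h4, h5, h6, h7, h8, h9, h10, h11, h12, h13, h14, h15, h1.symm, h2.symm,
          h3.symm, h4.symm, h5.symm, h6.symm, h7.symm, h8.symm, h9.symm, h10.symm, h11.symm,
          h12.symm, h13.symm, h14.symm, h15.symm])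
    (by
      intro z hz
      simp only [Finset.mem_insert, Finset.mem_singleton] at hz
      rcases hz with rfl | rfl | rfl | rfl | rfl | rfl <;>
        simp [h1, h2, h3, h4, h5, h6, h7, h8, h9, h10, h11, h12, h13, h14, h15, h1.symm, h2.symm,
          h3.symm, h4.symm, h5.symm, h6.symm, h7.symm, h8.symm, h9.symm, h10.symm, h11.symm,
          h12.symm, h13.symm, h14.symm, h15.symm])
  have e : ∀ F : V → ℤ, ∑ z ∈ ({x, a, u, b, y, c} : Finset V), F z =
      F x + F a + F u + F b + F y + F c := by
    intro F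
    rw [Finset.sum_insert (by simp [h1, h2, h3, h4, h5]),
      Finset.sum_insert (by simp [h6, h7, h8, h9]), Finset.sum_insert (by simp [h10, h11, h12]),
      Finset.sum_insert (by simp [h13, h14]), Finset.sum_insert (by simp [h15]),
      Finset.sum_singleton]
    ring
  rw [e, e] at key
  simp only [if_true, h1.symm, h2.symm, h3.symm, h4.symm, h5.symm, h6.symm, h7.symm, h8.symm,
    h9.symm, h10.symm, h11.symm, h12.symm, h13.symm, h14.symm, h15.symm, if_false] at key
  rw [hH.symm a x, hH.symm b u, hH.symm c y] at key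
  linarith

end MaxInvAux

open MaxInvAux

theorem exists_MI {H : V → V → ℤ} (hH : Sur H) : ∃ f : V → V, MI H f := by
  obtain ⟨f, hf, hpos⟩ := exists_max' hH
  have hinv := hf.1
  have hne : ∀ {x a : V}, f x ≠ x → f a = a → x ≠ a ∧ f x ≠ a := by
    intro x a hx ha
    refine ⟨?_, ?_⟩
    · rintro rfl
      exact hx ha
    · rintro rfl
      rw [hinv] at ha
      exact hx ha.symm
  have hne2 : ∀ {x y : V}, y ≠ x → y ≠ f x → x ≠ f y ∧ f x ≠ f y := by
    intro x y h1 h2
    refine ⟨?_, ?_⟩
    · intro h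
      apply h2
      rw [h, hinv]
    · intro h
      apply h1
      rw [← hinv x, h, hinv]
  have hz : ∀ {a : V}, f a = a → ph (H a (f a)) = 0 := by
    intro a ha
    rw [ha, hH.diag, ph_zero]
  have hx2 : ∀ {x : V}, ph (H (f x) (f (f x))) = ph (H x (f x)) := by
    intro x
    rw [hinv, hH.symm]
  have hz0 : ∀ {a : V}, ph (H a a) = 0 := by
    intro a
    rw [hH.diag, ph_zero]
  have hF2 : ∀ x a b, f x ≠ x → f a = a → f b = b → a ≠ b →
      ph (H x a) + ph (H (f x) b) ≤ ph (H x (f x)) := by
    intro x a b hx ha hb hab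
    obtain ⟨h1, h2⟩ := hne hx ha
    obtain ⟨h3, h4⟩ := hne hx hb
    have h := exch2 hH hf h1 hx.symm h3 h2.symm hab h4 (by
      intro z hz'
      simp only [Finset.mem_insert, Finset.mem_singleton] at hz' ⊢
      rcases hz' with rfl | rfl | rfl | rfl
      · simp
      · simp [ha]
      · simp [hinv]
      · simp [hb])
    rw [hz ha, hz hb, hx2] at h
    linarith
  refine ⟨f, ⟨hinv, hpos, ?_, ?_, ?_, ?_, ?_, ?_⟩⟩
  · -- indep
    intro a b ha hb
    by_cases hab : a = b
    · rw [hab, hH.diag]
    · have h := exch hf {a, b} (by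
        intro z hz'
        simp only [Finset.mem_insert, Finset.mem_singleton] at hz' ⊢
        rcases hz' with rfl | rfl
        · exact Or.inl ha
        · exact Or.inr hb) (fun z => if z = a then b else a) (by
        intro z hz'
        simp only [Finset.mem_insert, Finset.mem_singleton] at hz' ⊢
        rcases hz' with rfl | rfl
        · simp
        · simp [Ne.symm hab]) (by
        intro z hz'
        simp only [Finset.mem_insert, Finset.mem_singleton] at hz'
        rcases hz' with rfl | rfl
        · simp [Ne.symm hab]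
        · simp [Ne.symm hab])
      rw [Finset.sum_pair hab, Finset.sum_pair hab, hz ha, hz hb] at h
      simp only [if_true, Ne.symm hab, if_false] at h
      rw [hH.symm b a] at h
      have h1 := hH.nn a b
      have h2 := ph_ge (t := H a b)
      omega
  · -- F1
    intro x a hx ha
    obtain ⟨h1, h2⟩ := hne hx ha
    have h := exch hf {x, a, f x} (by
      intro z hz'
      simp only [Finset.mem_insert, Finset.mem_singleton] at hz' ⊢
      rcases hz' with rfl | rfl | rfl
      · simp
      · simp [ha]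
      · simp [hinv]) (fun z => if z = x then a else if z = a then x else f x) (by
      intro z hz'
      simp only [Finset.mem_insert, Finset.mem_singleton] at hz' ⊢
      rcases hz' with rfl | rfl | rfl
      · simp
      · simp [h1.symm]
      · simp [hx, h2]) (by
      intro z hz'
      simp only [Finset.mem_insert, Finset.mem_singleton] at hz'
      rcases hz' with rfl | rfl | rfl
      · simp [h1.symm]
      · simp [h1.symm]
      · simp [hx, h2])
    have e : ∀ F : V → ℤ, ∑ z ∈ ({x, a, f x} : Finset V), F z = F x + F a + F (f x) := by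
      intro F
      rw [Finset.sum_insert (by simp [h1, hx.symm]), Finset.sum_insert (by simp [h2.symm]),
        Finset.sum_singleton]
      ring
    rw [e, e, hz ha, hx2] at h
    simp only [if_true, h1.symm, hx, h2, if_false] at h
    rw [hH.symm a x, hz0] at h
    have h3 := hpos x hx
    have h4 := ph_pos h3
    by_contra hc
    have h5 : 1 ≤ H x a := by omega
    have h6 := ph_pos h5
    omega
  · -- F2
    intro x a b hx ha hb hab
    have h := hF2 x a b hx ha hb hab
    have h3 := ph_pos (hpos x hx)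
    have h4 := ph_ge (t := H x a)
    have h5 := ph_ge (t := H (f x) b)
    omega
  · -- F2s
    intro x a b hx ha hb hab h1 h2
    have h := hF2 x a b hx ha hb hab
    have h3 := ph_pos (hpos x hx)
    have h4 := ph_pos h1
    have h5 := ph_pos h2
    omega
  · -- F3
    intro x y hx hy h1 h2
    obtain ⟨h3, h4⟩ := hne2 h1 h2
    have h := exch2 hH hf h1.symm hx.symm h3 h2 hy.symm h4 (by
      intro z hz'
      simp only [Finset.mem_insert, Finset.mem_singleton] at hz' ⊢
      rcases hz' with rfl | rfl | rfl | rfl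
      · simp
      · simp
      · simp [hinv]
      · simp [hinv])
    rw [hx2, hx2] at h
    have h5 := ph_pos (hpos x hx)
    have h6 := ph_pos (hpos y hy)
    have h7 := ph_ge (t := H x y)
    have h8 := ph_ge (t := H (f x) (f y))
    omega
  · -- Y
    intro x y a b hx hy h1 h2 ha hb hab h3 h4 h5 h6
    obtain ⟨h7, h8⟩ := hne2 h1 h2
    obtain ⟨h9, h10⟩ := hne hx ha
    obtain ⟨h11, h12⟩ := hne hx hb
    obtain ⟨h13, h14⟩ := hne hy ha
    obtain ⟨h15, h16⟩ := hne hy hb
    have h := exch3 hH hf (x := x) (a := a) (u := f x) (b := f y) (y := y) (c := b)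
      h9 hx.symm h7 h1.symm h11 h10.symm h14.symm h13.symm hab h8 h2.symm h12 hy h16 h15 (by
      intro z hz'
      simp only [Finset.mem_insert, Finset.mem_singleton] at hz' ⊢
      rcases hz' with rfl | rfl | rfl | rfl | rfl | rfl
      · simp
      · simp [ha]
      · simp [hinv]
      · simp [hinv]
      · simp
      · simp [hb])
    rw [hx2, hx2, hz ha, hz hb, h5, h6, ph_pos (le_refl 1)] at h
    have h17 := ph_pos h3
    have h18 := ph_pos h4
    have h19 := ph_ge (t := H (f x) (f y))
    have h20 := hH.nn (f x) (f y)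
    omega

end Pool.Agent.BisF
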