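import Mathlib
import Pool.Agent.BisF.Base

/-!
# Merging two vertices

Take `V' = {v : V // v ≠ y}` and `p : V → V'` with `p y = x`. The merged weights are
`w' a b = ∑ u, ∑ v, [p u = a, p v = b] w u v` for `a ≠ b` and `0` on the diagonal; for every
`φ` that vanishes on the diagonal `∑∑ φ a b * w' a b = ∑∑ φ (p u) (p v) * w u v`.
-/

set_option autoImplicit false
set_option linter.unusedSectionVars false
set_option linter.unusedVariables false

namespace Pool.Agent.BisF

open Finset Pool.Agent.Bisect

private lemma wcut_eq_ind {V : Type} [Fintype V] [DecidableEq V] (w : V → V → ℤ) (A : Finset V) :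
    wcut w A = ∑ u, ∑ v, (if u ∈ A ∧ v ∉ A then (1 : ℤ) else 0) * w u v := by
  unfold wcut
  rw [← Finset.sum_subset (Finset.subset_univ A)]
  · refine Finset.sum_congr rfl fun a ha => ?_
    rw [← Finset.sum_subset (Finset.subset_univ Aᶜ)]
    · refine Finset.sum_congr rfl fun b hb => ?_
      rw [if_pos ⟨ha, Finset.mem_compl.mp hb⟩, one_mul]
    · intro b _ hb
      rw [if_neg (fun h => hb (Finset.mem_compl.mpr h.2)), zero_mul]
  · intro a _ ha
    refine Finset.sum_eq_zero fun b _ => ?_
    rw [if_neg (fun h => ha h.1), zero_mul]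

private lemma push_sum {V K : Type} [Fintype V] [Fintype K] [DecidableEq K]
    (w : V → V → ℤ) (p : V → K) (φ : K → K → ℤ) (hφ : ∀ a, φ a a = 0) :
    ∑ a, ∑ b, φ a b * (if a = b then (0 : ℤ) else
        ∑ u, ∑ v, if p u = a ∧ p v = b then w u v else 0)
      = ∑ u, ∑ v, φ (p u) (p v) * w u v := by
  have h1 : ∀ a b : K, φ a b * (if a = b then (0 : ℤ) else
      ∑ u, ∑ v, if p u = a ∧ p v = b then w u v else 0)
      = ∑ u, ∑ v, φ a b * (if p u = a ∧ p v = b then w u v else 0) := by
    intro a b
    by_cases h : a = b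
    · subst h
      simp [hφ]
    · rw [if_neg h, Finset.mul_sum]
      simp only [Finset.mul_sum]
  simp only [h1]
  rw [Finset.sum_congr rfl fun a _ => Finset.sum_comm]
  rw [Finset.sum_comm]
  refine Finset.sum_congr rfl fun u _ => ?_
  rw [Finset.sum_congr rfl fun a _ => Finset.sum_comm]
  rw [Finset.sum_comm]
  refine Finset.sum_congr rfl fun v _ => ?_
  rw [Finset.sum_eq_single (p u), Finset.sum_eq_single (p v)]
  · simp
  · intro b _ hb
    have h2 : ¬ p v = b := fun h => hb h.symm
    simp [h2]
  · simp
  · intro a _ ha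
    refine Finset.sum_eq_zero fun b _ => ?_
    have h2 : ¬ p u = a := fun h => ha h.symm
    simp [h2]
  · simp

theorem merge_step {V : Type} [Fintype V] [DecidableEq V] {w : V → V → ℤ}
    (hw : ∀ u v, w u v = w v u) (h0 : ∀ v, w v v = 0) {x y : V} (hxy : x ≠ y) (hle : w x y ≤ 0) :
    ∃ (V' : Type) (_ : Fintype V') (_ : DecidableEq V') (w' : V' → V' → ℤ),
      (∀ u v, w' u v = w' v u) ∧ (∀ v, w' v v = 0) ∧ Fintype.card V' + 1 = Fintype.card V ∧
      ∑ u, ∑ v, w u v ≤ ∑ u, ∑ v, w' u v ∧
      ∀ A' : Finset V', ∃ A : Finset V, wcut w A = wcut w' A' := by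
  classical
  let K : Type := {v : V // v ≠ y}
  let p : V → K := fun v => if h : v = y then ⟨x, hxy⟩ else ⟨v, h⟩
  have hpx : ∀ v, v ≠ y → (p v : V) = v := by
    intro v hv
    simp [p, hv]
  have hpy : (p y : V) = x := by simp [p]
  let w' : K → K → ℤ := fun a b => if a = b then 0 else
    ∑ u, ∑ v, if p u = a ∧ p v = b then w u v else 0
  refine ⟨K, inferInstance, inferInstance, w', ?_, ?_, ?_, ?_, ?_⟩
  · intro a b
    simp only [w']
    by_cases h : a = b
    · subst h; rfl
    · rw [if_neg h, if_neg (fun h' => h h'.symm), Finset.sum_comm]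
      refine Finset.sum_congr rfl fun u _ => Finset.sum_congr rfl fun v _ => ?_
      rw [hw v u]
      exact if_congr and_comm rfl rfl
  · intro a
    simp [w']
  · have h1 : Fintype.card K = Fintype.card V - 1 := by
      simp only [K]
      rw [Fintype.card_subtype_compl, Fintype.card_subtype_eq]
    have h2 : 0 < Fintype.card V := Fintype.card_pos_iff.mpr ⟨x⟩
    omega
  · have h1 : ∑ a, ∑ b, w' a b = ∑ a : K, ∑ b : K, (if a = b then (0:ℤ) else 1) * w' a b := by
      refine Finset.sum_congr rfl fun a _ => Finset.sum_congr rfl fun b _ => ?_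
      simp only [w']
      split_ifs <;> ring
    have h2 := push_sum w p (fun a b => if a = b then (0:ℤ) else 1) (by simp)
    rw [h1]
    simp only [w'] at *
    rw [h2]
    refine Finset.sum_le_sum fun u _ => Finset.sum_le_sum fun v _ => ?_
    by_cases h : p u = p v
    · rw [if_pos h, zero_mul]
      by_cases hu : u = y
      · by_cases hv : v = y
        · rw [hu, hv, h0]
        · have h3 : x = v := by
            rw [← hpx v hv, ← h, hu, hpy]
          rw [hu, ← h3, hw]
          exact hle
      · by_cases hv : v = y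
        · have h3 : u = x := by
            rw [← hpx u hu, h, hv, hpy]
          rw [h3, hv]
          exact hle
        · have h3 : u = v := by
            rw [← hpx u hu, h, hpx v hv]
          rw [h3, h0]
    · rw [if_neg h, one_mul]
  · intro A'
    refine ⟨univ.filter fun v => p v ∈ A', ?_⟩
    rw [wcut_eq_ind, wcut_eq_ind]
    have h2 := push_sum w p (fun a b => if a ∈ A' ∧ b ∉ A' then (1:ℤ) else 0)
      (by intro a; rw [if_neg (fun h => h.2 h.1)])
    simp only [w']
    rw [h2]
    refine Finset.sum_congr rfl fun u _ => Finset.sum_congr rfl fun v _ => ?_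
    simp

end Pool.Agent.BisF
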