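import Mathlib
import Pool.Agent.BisF.Check

/-!
# The numerical theorem
-/

set_option autoImplicit false

namespace Pool.Agent.BisF

open Pool.Agent.Bisect

/-- representation of `N (N-1)/2 + q` -/
lemma num_rep {N q : ℕ} (hN : 2 ≤ N) (hq : N + 1 ≤ q) : ∃ i m, 1 ≤ i ∧ m < N + i ∧
    2 * q = 2 * (i * N) + i * (i - 1) + 2 * m ∧
    N * (N - 1) / 2 + q = (N + i) * (N + i - 1) / 2 + m := by
  obtain ⟨t, x, ht, h1, h2⟩ := exists_tri (N * (N - 1) / 2 + q)
  have hdN : 2 ∣ N * (N - 1) := (Nat.even_mul_pred_self N).two_dvd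
  have hdt : 2 ∣ t * (t - 1) := (Nat.even_mul_pred_self t).two_dvd
  have h3 : N * (N - 1) + 2 * q = t * (t - 1) + 2 * x := by omega
  have htN : N + 1 ≤ t := by
    by_contra hcon
    have h4 : t ≤ N := by omega
    have h5 : t * (t - 1) ≤ N * (N - 1) := Nat.mul_le_mul h4 (by omega)
    omega
  obtain ⟨i, rfl⟩ : ∃ i, t = N + i := ⟨t - N, by omega⟩
  refine ⟨i, x, by omega, h2, ?_, by omega⟩
  obtain ⟨M, rfl⟩ : ∃ M, N = M + 1 := ⟨N - 1, by omega⟩
  obtain ⟨j, rfl⟩ : ∃ j, i = j + 1 := ⟨i - 1, by omega⟩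
  have e1 : M + 1 + (j + 1) - 1 = M + j + 1 := by omega
  rw [e1, Nat.add_sub_cancel] at h3
  rw [Nat.add_sub_cancel]
  have e2 : (M + 1 + (j + 1)) * (M + j + 1) = (M + 1) * M + 2 * ((j + 1) * (M + 1)) + (j + 1) * j := by
    ring
  rw [e2] at h3
  omega

/-- bounds for `g` -/
lemma g_bound1 {N i m q g ch c : ℕ} (hq : 2 * q = 2 * (i * N) + i * (i - 1) + 2 * m)
    (hi : 1 ≤ i) (hch : ch ≤ (N + i) * (N + i) / 4 + c)
    (hg : 2 * ch = g + q + 2 + 2 * (N * N / 4)) : 2 * g + 2 * m + 3 ≤ i + 4 * c := by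
  obtain ⟨j, rfl⟩ : ∃ j, i = j + 1 := ⟨i - 1, by omega⟩
  rw [Nat.add_sub_cancel] at hq
  have h1 : 4 * ((N + (j + 1)) * (N + (j + 1)) / 4) ≤ (N + (j + 1)) * (N + (j + 1)) :=
    Nat.mul_div_le _ _
  have h2 : N * N ≤ 4 * (N * N / 4) + 1 := by
    rcases Nat.even_or_odd' N with ⟨k, hk | hk⟩
    · have : N * N = 4 * (k * k) := by subst hk; ring
      omega
    · have : N * N = 4 * (k * k + k) + 1 := by subst hk; ring
      omega
  have h3 : (N + (j + 1)) * (N + (j + 1)) = N * N + 2 * ((j + 1) * N) + (j + 1) * j + (j + 1) := by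
    ring
  rw [h3] at h1 hch
  omega

lemma g_bound2 {N i m q g ch : ℕ} (hq : 2 * q = 2 * (i * N) + i * (i - 1) + 2 * m)
    (hi : 1 ≤ i) (hch : ch ≤ (N + i + 1) * (N + i + 1) / 4)
    (hg : 2 * ch = g + q + 2 + 2 * (N * N / 4)) : 2 * g + 2 * m + 2 ≤ 2 * N + 3 * i := by
  obtain ⟨j, rfl⟩ : ∃ j, i = j + 1 := ⟨i - 1, by omega⟩
  rw [Nat.add_sub_cancel] at hq
  have h1 : 4 * ((N + (j + 1) + 1) * (N + (j + 1) + 1) / 4) ≤ (N + (j + 1) + 1) * (N + (j + 1) + 1) :=
    Nat.mul_div_le _ _
  have h2 : N * N ≤ 4 * (N * N / 4) + 1 := by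
    rcases Nat.even_or_odd' N with ⟨k, hk | hk⟩
    · have : N * N = 4 * (k * k) := by subst hk; ring
      omega
    · have : N * N = 4 * (k * k + k) + 1 := by subst hk; ring
      omega
  have h3 : (N + (j + 1) + 1) * (N + (j + 1) + 1) =
      N * N + 2 * ((j + 1) * N) + 2 * N + (j + 1) * j + 3 * j + 4 := by
    ring
  rw [h3] at h1 hch
  omega

lemma i_bound {N i m q g : ℕ} (hq : 2 * q = 2 * (i * N) + i * (i - 1) + 2 * m)
    (hi : 1 ≤ i) (hqN : N + 1 ≤ q) (hqg : q ≤ g * N) : i + 1 ≤ g := by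
  by_contra hcon
  have h1 : g ≤ i := by omega
  have h2 : g * N ≤ i * N := Nat.mul_le_mul_right N h1
  have h3 : i * (i - 1) + 2 * m = 0 := by omega
  have h4 : i * (i - 1) = 0 := by omega
  rcases Nat.mul_eq_zero.mp h4 with h5 | h5
  · omega
  · have h6 : i = 1 := by omega
    subst h6
    omega

lemma cmin_rep_le {N i m : ℕ} (hi : 1 ≤ i) (hm : m < N + i) :
    cmin ((N + i) * (N + i - 1) / 2 + m) ≤
      min ((N + i + 1) * (N + i + 1) / 4) ((N + i) * (N + i) / 4 + cmin m) := by
  apply le_min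
  · refine (cmin_mono ?_).trans (cmin_tri (N + i + 1))
    obtain ⟨t, ht⟩ : ∃ t, N + i = t + 1 := ⟨N + i - 1, by omega⟩
    rw [ht, Nat.add_sub_cancel, Nat.add_sub_cancel]
    have h1 : 2 ∣ (t + 1) * t := by
      have := (Nat.even_mul_pred_self (t + 1)).two_dvd
      rwa [Nat.add_sub_cancel] at this
    have h2 : (t + 1 + 1) * (t + 1) = (t + 1) * t + 2 * (t + 1) := by ring
    rw [h2]
    omega
  · exact (cmin_add _ _).trans (Nat.add_le_add_right (cmin_tri _) _)

theorem numeric (N q : ℕ) (hN : 2 ≤ N) (hq : N + 1 ≤ q) : ∃ ch : ℕ,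
    cmin (N * (N - 1) / 2 + q) ≤ ch ∧ ∀ g : ℕ, 2 * ch = g + q + 2 + 2 * (N * N / 4) →
    q ≤ g * N → NumOk N q g ch := by
  obtain ⟨i, m, hi, hm, h2q, hh⟩ := num_rep hN hq
  have hcm := cmin_rep_le (N := N) hi hm
  have hlin := cmin_lin m
  by_cases hsmall : N ≤ 206 ∧ i ≤ 25
  · obtain ⟨hN206, hi25⟩ := hsmall
    have hm232 : m < 232 := by omega
    have hctab := cmin_le_tab m (by omega)
    set c := tab.getD m 0 with hc
    -- the value
    have hchle : chT N i m c ≤ (N + i) * (N + i) / 4 + c := by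
      unfold chT
      by_cases h99 : (N + i) * (N + i - 1) / 2 + m = 99
      · have h1 : Nat.beq ((N + i) * (N + i - 1) / 2 + m) 99 = true := by
          rw [Nat.beq_eq]; exact h99
        rw [h1, cond_true]
        -- `N + i = 14`, `m = 8`
        have h2 : 14 ≤ N + i := by
          by_contra hcon
          have h3 : N + i ≤ 13 := by omega
          have h4 : (N + i) * (N + i - 1) ≤ 13 * 12 := Nat.mul_le_mul h3 (by omega)
          omega
        have h5 : N + i ≤ 14 := by
          by_contra hcon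
          have h3 : 15 ≤ N + i := by omega
          have h4 : 15 * 14 ≤ (N + i) * (N + i - 1) := Nat.mul_le_mul h3 (by omega)
          omega
        have h6 : N + i = 14 := le_antisymm h5 h2
        rw [h6] at h99 ⊢
        have h7 : m = 8 := by omega
        have h8 : c = 6 := by rw [hc, h7]; rfl
        rw [h8]
        norm_num
      · have h1 : Nat.beq ((N + i) * (N + i - 1) / 2 + m) 99 = false := by
          rw [← Bool.not_eq_true, Nat.beq_eq]; exact h99
        rw [h1, cond_false]
        exact min_le_right _ _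
    refine ⟨chT N i m c, ?_, ?_⟩
    · rw [hh]
      unfold chT
      by_cases h99 : (N + i) * (N + i - 1) / 2 + m = 99
      · have h1 : Nat.beq ((N + i) * (N + i - 1) / 2 + m) 99 = true := by
          rw [Nat.beq_eq]; exact h99
        rw [h1, cond_true, h99]
        have h2 := cmin_le_tab 99 (by norm_num)
        have h3 : tab.getD 99 0 = 54 := rfl
        rw [h3] at h2
        exact h2
      · have h1 : Nat.beq ((N + i) * (N + i - 1) / 2 + m) 99 = false := by
          rw [← Bool.not_eq_true, Nat.beq_eq]; exact h99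
        rw [h1, cond_false]
        exact hcm.trans (min_le_min le_rfl (Nat.add_le_add_left hctab _))
    · intro g hg hqg
      have hig := i_bound h2q hi hq hqg
      have hb1 := g_bound1 h2q hi hchle hg
      by_cases h8 : 8 * g ≤ N
      · exact NumOk_uniform (by omega) h8 hq
      · have hca := check_all
        rw [allB_iff] at hca
        have h1 := hca m hm232
        unfold check3 at h1
        simp only [allB_iff] at h1
        rw [← hc] at h1
        have h2 := h1 (i - 1) (by
          rw [lt_min_iff]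
          constructor <;> omega)
        rw [Nat.sub_add_cancel hi] at h2
        unfold check2 at h2
        simp only [allB_iff] at h2
        have hlo : max 2 (m + 1 - i) ≤ N := by
          rw [max_le_iff]
          constructor <;> omega
        have h3 := h2 (N - max 2 (m + 1 - i)) (by
          have : N < min 207 (4 * (i + 4 * c) - (8 * m + 12)) := by
            rw [lt_min_iff]
            constructor <;> omega
          omega)
        rw [Nat.add_sub_cancel' hlo] at h3
        unfold check1 at h3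
        have hq' : i * N + i * (i - 1) / 2 + m = q := by
          have : 2 ∣ i * (i - 1) := (Nat.even_mul_pred_self i).two_dvd
          omega
        simp only [hq'] at h3
        have hg' : 2 * chT N i m c - (q + 2 + 2 * (N * N / 4)) = g := by omega
        rw [hg'] at h3
        simp only [Bool.or_eq_true, Nat.ble_eq] at h3
        rcases h3 with (h3 | h3) | h3
        · omega
        · exact absurd h3 h8
        · exact checkN_sound h3
  · refine ⟨min ((N + i + 1) * (N + i + 1) / 4) ((N + i) * (N + i) / 4 + cmin m),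
      by rw [hh]; exact hcm, ?_⟩
    intro g hg hqg
    have hig := i_bound h2q hi hq hqg
    have hb1 := g_bound1 h2q hi (min_le_right _ _) hg
    have hb2 := g_bound2 h2q hi (min_le_left _ _) hg
    have hN207 : 207 ≤ N := by omega
    exact NumOk_uniform (by omega) (by omega) hq

end Pool.Agent.BisF
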