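import Mathlib
import Pool.Agent.BisF.Base
import Pool.Agent.BisF.Count

/-!
# Padding the cover

Let `U₀ = {x | f x ≠ x}`, `|U₀| = 2 p`. Choose `U₀ ⊆ U`, `|U| = 2 p'`
(`Finset.exists_superset_card_eq` or similar; `2 p' ≤ N`). `indep`: outside `U` all points are fixed
points, `hf.indep`. `nonneg`: `MI_nonneg`. `tot`: `∑_{Uᶜ} = ∑_{I} - ∑_{U \ U₀}` with
`I = {x | f x = x}`; `|U \ U₀| = 2 (p' - p)` is `0` or at least `2`, so the second sum is `≥ 0`
(`MI_nonneg`), and `∑_I ≤ Δ` is `MI_tot`.
-/

set_option autoImplicit false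
set_option linter.unusedSectionVars false
set_option linter.unusedVariables false

namespace Pool.Agent.BisF

open Finset Pool.Agent.Bisect

variable {V : Type} [Fintype V] [DecidableEq V]

theorem core_of_MI {H : V → V → ℤ} (hH : Sur H) {f : V → V} (hf : MI H f) {w : ℤ} {p p' : ℕ}
    {q : ℤ} (hw : ∑ x, H x (f x) = 2 * w) (hq : ∑ u, ∑ v, H u v = 2 * q) (h1 : 1 ≤ w)
    (hp : (univ.filter fun x => f x ≠ x).card = 2 * p) (hpp : p ≤ p')
    (hN : 2 * p' ≤ Fintype.card V) :
    ∃ U : Finset V, U.card = 2 * p' ∧ Core H U w (w * (Fintype.card V - 1) - q) := by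
  obtain ⟨U, hU0, -, hUc⟩ := Finset.exists_subsuperset_card_eq
    (Finset.subset_univ (univ.filter fun x => f x ≠ x)) (n := 2 * p')
    (by rw [hp]; omega) (by rw [Finset.card_univ]; exact hN)
  have hfix : ∀ x, x ∉ U → f x = x := by
    intro x hx
    by_contra h
    exact hx (hU0 (Finset.mem_filter.2 ⟨Finset.mem_univ _, h⟩))
  refine ⟨U, hUc, ?_, ?_, ?_⟩
  · intro a b ha hb
    exact hf.indep a b (hfix a ha) (hfix b hb)
  · intro S hS h2
    exact MI_nonneg hH hf hw S (fun x hx => hfix x (Finset.disjoint_left.1 hS hx)) h2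
  · have hsub : Uᶜ ⊆ univ.filter (fun x => f x = x) := by
      intro x hx
      rw [Finset.mem_filter]
      exact ⟨Finset.mem_univ _, hfix x (Finset.mem_compl.1 hx)⟩
    have htot := MI_tot hH hf hw hq h1
    rw [← Finset.sum_sdiff hsub] at htot
    have hI : (univ.filter (fun x => f x = x)).card + 2 * p = Fintype.card V := by
      have h3 := Finset.card_filter_add_card_filter_not (s := (univ : Finset V)) (fun x => f x = x)
      rw [Finset.card_univ] at h3
      have h4 : (univ.filter fun x => ¬ f x = x).card = 2 * p := hp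
      omega
    have hcard : (univ.filter (fun x => f x = x) \ Uᶜ).card + 2 * p = 2 * p' := by
      have h5 := Finset.card_sdiff_add_card_eq_card hsub
      have h6 := Finset.card_compl U
      rw [hUc] at h6
      omega
    have hnn : 0 ≤ ∑ x ∈ univ.filter (fun x => f x = x) \ Uᶜ, (w - dg H x) := by
      rcases Nat.eq_zero_or_pos ((univ.filter (fun x => f x = x) \ Uᶜ).card) with h0 | h0
      · rw [Finset.card_eq_zero.1 h0, Finset.sum_empty]
      · refine MI_nonneg hH hf hw _ (fun x hx => ?_) (by omega)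
        exact (Finset.mem_filter.1 (Finset.mem_sdiff.1 hx).1).2
    linarith

end Pool.Agent.BisF
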