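import Mathlib
import Pool.Agent.BisF.Base
import Pool.Agent.BisF.Count
import Pool.Agent.BisF.Sep

/-!
# `N` odd and `w = g`

`MI_odd` with `g = w`: `H x a = H (f x) a` for all `x` and all fixed points `a`. Let
`U = {x | f x ≠ x}`, `I` its complement, `μ x = H x (f x)`; `∑_U μ = 2 w`, `|U| = 2 p`, `μ ≥ 1` on `U`,
`μ (f x) = μ x`, so `2 w ≥ 2 μ x + (2 p - 2)`, `μ x ≤ w - p + 1 ≤ 2` for `x ∈ U`. By `F2s` every
`x ∈ U` has at most one `a ∈ I` with `H x a ≥ 1` (for `a ≠ b`, `H x a ≥ 1` and `H (f x) b = H x b ≥ 1`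
would give `3 ≤ μ x`), and `H x a ≤ μ x` (`F1`), so `∑_{a∈I} H x a ≤ μ x`.
* `2 q = ∑_{U×U} H + 2 ∑_{x∈U} ∑_{a∈I} H x a ≤ 2 w (2 p - 1) + 2 * 2 w` (`MI_UU`), so `q ≤ w (2 p + 1)`.
* `C = {a ∈ I | ∀ x ∈ U, H x a = 0}`. Each `a ∈ I \ C` has at least two `x ∈ U` with `H x a ≥ 1` (`x` and
  `f x`), each `x ∈ U` at most one `a`: `2 |I \ C| ≤ 2 p`; `|I| = N - 2 p`. On `C`, `H u a = 0` for all
  `u` (`indep`), hence twins, independent, degree 0.
-/

set_option autoImplicit false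
set_option linter.unusedSectionVars false
set_option linter.unusedVariables false

namespace Pool.Agent.BisF

open Finset Pool.Agent.Bisect

variable {V : Type} [Fintype V] [DecidableEq V]

theorem special_X {H : V → V → ℤ} (hH : Sur H) {f : V → V} (hf : MI H f) {w : ℤ} {p : ℕ}
    (hw : ∑ x, H x (f x) = 2 * w) (hb : Bad H w) (hodd : Odd (Fintype.card V)) {q : ℤ}
    (hq : ∑ u, ∑ v, H u v = 2 * q) (hp : (univ.filter fun x => f x ≠ x).card = 2 * p)
    (hpw : w ≤ p + 1) (hn : 2 * p + 2 ≤ Fintype.card V) :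
    q ≤ w * (2 * p + 1) ∧ ∃ C : Finset V, Fintype.card V ≤ C.card + 3 * p ∧
      (∀ a ∈ C, ∀ b ∈ C, Tw H a b) ∧ (∀ a ∈ C, ∀ b ∈ C, H a b = 0) ∧
      (∀ a ∈ C, dg H a = 0) := by
  classical
  have hT : ∀ x a, f a = a → H x a = H (f x) a := by
    intro x a ha
    have h1 := MI_odd hH hf hw hb hodd (x := x) ha
    have h2 : |H x a - H (f x) a| ≤ 0 := by linarith
    have h3 := abs_eq_zero.1 (le_antisymm h2 (abs_nonneg _))
    linarith
  have hμ : ∀ x, H (f x) (f (f x)) = H x (f x) := by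
    intro x
    rw [hf.inv x, hH.symm]
  set U : Finset V := univ.filter fun x => f x ≠ x with hU
  set I : Finset V := univ.filter fun x => f x = x with hI
  have hmU : ∀ x, x ∈ U ↔ f x ≠ x := fun x => by simp [hU]
  have hmI : ∀ x, x ∈ I ↔ f x = x := fun x => by simp [hI]
  have hfU : ∀ x, x ∈ U → f x ∈ U := by
    intro x hx
    rw [hmU] at hx ⊢
    rw [hf.inv x]
    exact fun h => hx h.symm
  have hsplit : ∀ g : V → ℤ, ∑ x, g x = ∑ x ∈ U, g x + ∑ x ∈ I, g x := by
    intro g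
    rw [hU, hI, add_comm]
    exact (sum_filter_add_sum_filter_not univ (fun x => f x = x) g).symm
  have hsU : ∑ x ∈ U, H x (f x) = 2 * w := by
    rw [← hw, hsplit]
    have h1 : ∑ x ∈ I, H x (f x) = 0 := by
      refine sum_eq_zero fun x hx => ?_
      rw [(hmI x).1 hx, hH.diag]
    rw [h1, add_zero]
  -- `μ ≤ 2`
  have hμ2 : ∀ x ∈ U, H x (f x) ≤ 2 := by
    intro x hx
    have hx' := (hmU x).1 hx
    have h1 : ∑ y ∈ (U.erase x).erase (f x), (1 : ℤ) ≤ ∑ y ∈ (U.erase x).erase (f x), H y (f y) := by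
      refine sum_le_sum fun y hy => ?_
      exact hf.pos y ((hmU y).1 (mem_of_mem_erase (mem_of_mem_erase hy)))
    have hfx : f x ∈ U.erase x := mem_erase.2 ⟨hx', hfU x hx⟩
    have h2 : ∑ y ∈ U, H y (f y) = H x (f x) + (H (f x) (f (f x)) + ∑ y ∈ (U.erase x).erase (f x), H y (f y)) := by
      rw [add_sum_erase (U.erase x) (fun y => H y (f y)) hfx, add_sum_erase U (fun y => H y (f y)) hx]
    have h3 : ((U.erase x).erase (f x)).card = 2 * p - 2 := by
      rw [card_erase_of_mem hfx, card_erase_of_mem hx, hp]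
      omega
    have h4 : 1 ≤ 2 * p - 1 + 1 := by omega
    have h5 : 0 < U.card := card_pos.2 ⟨x, hx⟩
    rw [sum_const, h3, nsmul_eq_mul, mul_one] at h1
    rw [hsU, hμ x] at h2
    have h6 : ((2 * p - 2 : ℕ) : ℤ) = 2 * p - 2 := by
      have : 2 ≤ 2 * p := by omega
      push_cast [Nat.cast_sub this]
      ring
    rw [h6] at h1
    linarith
  have huniq : ∀ x ∈ U, ∀ a ∈ I, ∀ b ∈ I, 1 ≤ H x a → 1 ≤ H x b → a = b := by
    intro x hx a ha b hb' h1 h2
    by_contra hab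
    have ha' := (hmI a).1 ha
    have hb2 := (hmI b).1 hb'
    have h3 : 1 ≤ H (f x) b := by rw [← hT x b hb2]; exact h2
    have h4 := hf.F2s x a b ((hmU x).1 hx) ha' hb2 hab h1 h3
    have h5 := hμ2 x hx
    linarith
  have hrow : ∀ x ∈ U, ∑ a ∈ I, H x a ≤ H x (f x) := by
    intro x hx
    by_cases hex : ∃ a ∈ I, 1 ≤ H x a
    · obtain ⟨a, ha, h1⟩ := hex
      rw [sum_eq_single_of_mem a ha]
      · exact hf.F1 x a ((hmU x).1 hx) ((hmI a).1 ha)
      · intro b hb' hba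
        have h2 : ¬ 1 ≤ H x b := fun h2 => hba (huniq x hx b hb' a ha h2 h1)
        have h3 := hH.nn x b
        omega
    · push Not at hex
      have h1 : ∑ a ∈ I, H x a = 0 := by
        refine sum_eq_zero fun a ha => ?_
        have h2 := hex a ha
        have h3 := hH.nn x a
        omega
      rw [h1]
      exact hH.nn _ _
  have hII : ∑ x ∈ I, ∑ y ∈ I, H x y = 0 := by
    refine sum_eq_zero fun x hx => sum_eq_zero fun y hy => ?_
    exact hf.indep x y ((hmI x).1 hx) ((hmI y).1 hy)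
  have hUI : ∑ x ∈ U, ∑ y ∈ I, H x y ≤ 2 * w := by
    rw [← hsU]
    exact sum_le_sum hrow
  have hIU : ∑ x ∈ I, ∑ y ∈ U, H x y = ∑ x ∈ U, ∑ y ∈ I, H x y := by
    rw [sum_comm]
    exact sum_congr rfl fun x _ => sum_congr rfl fun y _ => hH.symm _ _
  have hUU := MI_UU hH hf hw hp
  refine ⟨?_, I.filter fun a => ∀ x ∈ U, H x a = 0, ?_, ?_, ?_, ?_⟩
  · have h1 : ∑ u, ∑ v, H u v = (∑ x ∈ U, ∑ y ∈ U, H x y + ∑ x ∈ U, ∑ y ∈ I, H x y) +
        (∑ x ∈ I, ∑ y ∈ U, H x y + ∑ x ∈ I, ∑ y ∈ I, H x y) := by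
      rw [hsplit, ← sum_add_distrib, ← sum_add_distrib]
      congr 1 <;> exact sum_congr rfl fun x _ => hsplit _
    rw [hq, hII, hIU] at h1
    have h2 : w * (2 * (p : ℤ) + 1) * 2 = 2 * w * (2 * p - 1) + 2 * (2 * w) := by ring
    have h3 : ∑ x ∈ U, ∑ y ∈ U, H x y ≤ 2 * w * (2 * p - 1) := hUU
    linarith
  · -- double counting
    set C := I.filter fun a => ∀ x ∈ U, H x a = 0 with hC
    have h1 : ∑ a ∈ I \ C, 2 ≤ ∑ a ∈ I \ C, (U.filter fun x => 1 ≤ H x a).card := by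
      refine sum_le_sum fun a ha => ?_
      rw [mem_sdiff] at ha
      have h2 : ¬ ∀ x ∈ U, H x a = 0 := fun h => ha.2 (by rw [hC, mem_filter]; exact ⟨ha.1, h⟩)
      push Not at h2
      obtain ⟨x, hx, hxa⟩ := h2
      have h3 : 1 ≤ H x a := by
        have := hH.nn x a
        omega
      have h4 : 1 ≤ H (f x) a := by rw [← hT x a ((hmI a).1 ha.1)]; exact h3
      have h5 : ({x, f x} : Finset V) ⊆ U.filter fun x => 1 ≤ H x a := by
        intro y hy
        rw [mem_insert, mem_singleton] at hy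
        rw [mem_filter]
        rcases hy with rfl | rfl
        · exact ⟨hx, h3⟩
        · exact ⟨hfU x hx, h4⟩
      have h6 : ({x, f x} : Finset V).card = 2 := card_pair fun h => (hmU x).1 hx h.symm
      rw [← h6]
      exact card_le_card h5
    have h2 : ∑ a ∈ I \ C, (U.filter fun x => 1 ≤ H x a).card =
        ∑ x ∈ U, ((I \ C).filter fun a => 1 ≤ H x a).card := by
      simp only [card_filter]
      exact sum_comm
    have h3 : ∑ x ∈ U, ((I \ C).filter fun a => 1 ≤ H x a).card ≤ ∑ x ∈ U, 1 := by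
      refine sum_le_sum fun x hx => ?_
      rw [card_le_one]
      intro a ha b hb'
      rw [mem_filter, mem_sdiff] at ha hb'
      exact huniq x hx a ha.1.1 b hb'.1.1 ha.2 hb'.2
    rw [h2] at h1
    have h4 := h1.trans h3
    rw [sum_const, sum_const, smul_eq_mul, smul_eq_mul, mul_one] at h4
    have h5 : U.card = 2 * p := hp
    have h6 : (I \ C).card + C.card = I.card := card_sdiff_add_card_eq_card (filter_subset _ _)
    have h7 : U.card + I.card = Fintype.card V := by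
      rw [hU, hI, add_comm, ← card_univ]
      exact card_filter_add_card_filter_not (s := univ) (fun x => f x = x)
    omega
  · intro a ha b hb' u
    rw [mem_filter] at ha hb'
    by_cases hu : f u = u
    · rw [hf.indep u a hu ((hmI a).1 ha.1), hf.indep u b hu ((hmI b).1 hb'.1)]
    · rw [ha.2 u ((hmU u).2 hu), hb'.2 u ((hmU u).2 hu)]
  · intro a ha b hb'
    rw [mem_filter] at ha hb'
    exact hf.indep a b ((hmI a).1 ha.1) ((hmI b).1 hb'.1)
  · intro a ha
    rw [mem_filter] at ha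
    unfold dg
    refine sum_eq_zero fun u _ => ?_
    by_cases hu : f u = u
    · exact hf.indep u a hu ((hmI a).1 ha.1)
    · exact ha.2 u ((hmU u).2 hu)

end Pool.Agent.BisF
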