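import Mathlib
import Pool.Agent.BisF.CMin
import Pool.Agent.BisF.Merge2
import Pool.Agent.BisF.Claim3
import Pool.Agent.BisF.BadTri
import Pool.Agent.BisF.MaxInv
import Pool.Agent.BisF.Count
import Pool.Agent.BisF.Sep
import Pool.Agent.BisF.RandCut
import Pool.Agent.BisF.PairsFam
import Pool.Agent.BisF.PadCore
import Pool.Agent.BisF.Big
import Pool.Agent.BisF.ClassC
import Pool.Agent.BisF.LemA
import Pool.Agent.BisF.SpecX
import Pool.Agent.BisF.Except
import Pool.Agent.BisF.Num
import Pool.Agent.Bisect.Exact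

/-!
# Assembly
-/

set_option autoImplicit false

namespace Pool.Agent.BisF

open Finset Pool.Agent.Bisect

/-- the contradiction for bad graphs -/
theorem struct_step {N : ℕ} (ih : IHN N) {V : Type} [Fintype V] [DecidableEq V]
    (hN : Fintype.card V = N) (hN2 : 2 ≤ N) {H w : V → V → ℤ} (hH : Sur H)
    (hw : ∀ u v, u ≠ v → w u v = H u v + 1) (hw0 : ∀ v, w v v = 0) {q : ℕ}
    (hq : ∑ u, ∑ v, H u v = 2 * q) (hqN : N + 1 ≤ q) :
    ∃ A : Finset V, (cmin (N * (N - 1) / 2 + q) : ℤ) ≤ wcut w A := by
  by_contra hcon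
  push Not at hcon
  obtain ⟨ch, hch, hnum⟩ := numeric N q hN2 hqN
  have hchZ : (cmin (N * (N - 1) / 2 + q) : ℤ) ≤ ch := by exact_mod_cast hch
  have hbad0 := bad_of_cut hH hw hw0 hq (K := (ch : ℤ) - 1) (fun A => by
    have := hcon A
    omega)
  rw [hN] at hbad0
  -- the maximum matching
  obtain ⟨f, hf⟩ := exists_MI hH
  obtain ⟨p, ω, hp, hω, hpω, hp0⟩ := MI_parity hH hf
  have hωg := MI_w_le hH hf hω hbad0
  have hq1 := MI_qle hH hf hω hq
  rw [hN] at hq1
  have hω1 : 1 ≤ ω := by
    by_contra h0
    have : ω = 0 := by omega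
    subst this
    have : (q:ℤ) ≤ 0 := by simpa using hq1
    omega
  have hp1 : 1 ≤ p := by
    by_contra h0
    have := hp0 (by omega)
    omega
  -- the natural number g
  obtain ⟨g, hg⟩ : ∃ g : ℕ, (2 * ((ch:ℤ) - 1 - (N * N / 4 : ℕ)) - q) = g :=
    Int.eq_ofNat_of_zero_le (by linarith)
  rw [hg] at hbad0 hωg
  have hωg' : ω ≤ g := by exact_mod_cast hωg
  have hgeq : 2 * ch = g + q + 2 + 2 * (N * N / 4) := by
    have h1 : (2 * ch : ℤ) = g + q + 2 + 2 * ((N * N / 4 : ℕ) : ℤ) := by linarith
    exact_mod_cast h1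
  have hqg : q ≤ g * N := by
    have h1 : q ≤ ω * N := by exact_mod_cast hq1
    exact h1.trans (Nat.mul_le_mul_right N hωg')
  obtain ⟨hgN, hmain⟩ := hnum g hgeq hqg
  have hn3 : 2 * p + 3 ≤ N := by omega
  -- total of `w - d` outside
  have htot := MI_tot hH hf hω hq (by exact_mod_cast hω1)
  rw [hN] at htot
  have hIcard : (univ.filter fun x => f x = x).card + 2 * p = N := by
    have h1 := Finset.card_filter_add_card_filter_not (s := (univ : Finset V)) (fun x => f x = x)
    rw [Finset.card_univ, hN] at h1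
    have h2 : (univ.filter fun x => ¬ f x = x) = (univ.filter fun x => f x ≠ x) := rfl
    rw [h2, hp] at h1
    exact h1
  have hΔ : (0:ℤ) ≤ (ω:ℤ) * (N - 1) - q := by
    refine le_trans ?_ htot
    apply MI_nonneg hH hf hω
    · intro x hx; exact (Finset.mem_filter.mp hx).2
    · omega
  have hqω : q ≤ ω * (N - 1) := by
    have h1 : ((q : ℕ) : ℤ) ≤ ((ω * (N - 1) : ℕ) : ℤ) := by
      push_cast [Nat.cast_sub (show 1 ≤ N by omega)]
      linarith
    exact_mod_cast h1
  -- consequence of `Gok`
  have hG : ∀ p', p ≤ p' → 1 ≤ p' → p' ≤ ω → ¬ Gok N q g ω p' ch := by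
    rintro p' hpp' hp'1 hp'ω ⟨r0, e, F, hr1, hr2, he, hF0, hF, hF1, hbig, hcl⟩
    obtain ⟨U, hUc, hcore⟩ := core_of_MI hH hf hω hq (by exact_mod_cast hω1) hp hpp'
      (by rw [hN]; omega)
    rw [hN] at hcore
    obtain ⟨C, hCU, hCt, hCc⟩ := big hH hbad0 hcore hUc hp'1 hN hr1 hr2 he hΔ hF0 hF hF1 hbig
    obtain ⟨C', r, y, D, h1, h2, h3, h4, h5, h6, h7, h8⟩ :=
      class_constraints hH hbad0 hcore hUc hp'1 hN hr1 hr2 hCU hCt hCc
    obtain ⟨κ, hκ, hok⟩ := hcl r y D h2 h6 (by exact_mod_cast h7) h8
    obtain ⟨A, hA⟩ := lemA hN ih hH hw hw0 hq (C := C') (κ := κ) (by omega) h4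
      (fun a ha b hb => hcore.indep a b (Finset.disjoint_left.mp h3 ha)
        (Finset.disjoint_left.mp h3 hb)) h5 hok hch
    exact absurd hA (not_le.mpr (hcon A))
  obtain ⟨hA, hB⟩ := hmain ω hω1 hωg' hqω
  by_cases hodd : N % 2 = 1 ∧ ω = g
  · obtain ⟨hB1, hB2⟩ := hB hodd
    by_cases hpω' : p + 2 ≤ ω
    · exact hG (ω - 2) (by omega) (by omega) (by omega) (hB1 (by omega))
    · have hbadω : Bad H (ω:ℤ) := by rw [hodd.2]; exact hbad0
      have hoddN : Odd (Fintype.card V) := by rw [hN]; exact Nat.odd_iff.mpr hodd.1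
      obtain ⟨hx1, C, hC1, hC2, hC3, hC4⟩ := special_X hH hf hω hbadω hoddN hq hp
        (by have : ω ≤ p + 1 := by omega
            exact_mod_cast this) (by rw [hN]; omega)
      rw [hN] at hC1
      rcases hB2 with h1 | h1 | ⟨h1, h2, h3, h4⟩
      · have h2 : q ≤ ω * (2 * p + 1) := by exact_mod_cast hx1
        have h3 : ω * (2 * p + 1) ≤ ω * (2 * ω + 1) := Nat.mul_le_mul_left _ (by omega)
        omega
      · obtain ⟨A, hA⟩ := lemA hN ih hH hw hw0 hq (C := C) (κ := N - 3 * ω) (y := 0) (by omega)
          hC2 hC3 (by simpa using hC4) h1 hch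
        exact absurd hA (not_le.mpr (hcon A))
      · have hp3 : p = 3 := by
          have h5 : q ≤ ω * (2 * p + 1) := by exact_mod_cast hx1
          rw [h2, h3] at h5
          omega
        subst h1; subst h2; subst h3; subst hp3
        obtain ⟨C, hC1, hC2, hC3, hC4⟩ := exceptional hH hf (by rw [hω]; norm_num)
          (by exact_mod_cast hbadω) hN (by rw [hq]; norm_num) (by rw [hp])
        obtain ⟨A, hA⟩ := lemA hN ih hH hw hw0 hq (C := C) (κ := 4) (y := 0) hC1
          hC2 hC3 (by simpa using hC4) h4 hch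
        exact absurd hA (not_le.mpr (hcon A))
  · exact hG ω hpω hω1 le_rfl (hA hodd)

lemma tri_cast (N : ℕ) (hN : 1 ≤ N) : (2:ℤ) * ((N * (N - 1) / 2 : ℕ) : ℤ) = N * (N - 1) := by
  have h3 : 2 ∣ N * (N - 1) := (Nat.even_mul_pred_self N).two_dvd
  obtain ⟨k, hk⟩ := h3
  have h4 : N * (N - 1) / 2 = k := by omega
  have h5 : ((N * (N - 1) : ℕ) : ℤ) = ((2 * k : ℕ) : ℤ) := by rw [hk]
  push_cast [Nat.cast_sub hN] at h5
  rw [h4]
  linarith

/-- step for a fixed number of vertices -/
theorem vertex_step {N : ℕ} (ih : IHN N) (T : ℕ) : ∀ (V : Type) [Fintype V] [DecidableEq V],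
    Fintype.card V = N → ∀ w : V → V → ℤ, (∀ u v, w u v = w v u) → (∀ v, w v v = 0) →
    ∑ u, ∑ v, w u v = 2 * T → ∃ A : Finset V, (cmin T : ℤ) ≤ wcut w A := by
  induction T using Nat.strong_induction_on with
  | _ T ihT =>
    intro V _ _ hN w hw h0 htot
    rcases Nat.eq_zero_or_pos T with hT | hT
    · subst hT
      exact ⟨∅, by rw [cmin_zero]; simp [wcut]⟩
    by_cases hpos : ∃ x y, x ≠ y ∧ w x y ≤ 0
    · obtain ⟨x, y, hxy, hle⟩ := hpos
      obtain ⟨V', i1, i2, w', h1, h2, h3, h4, h5⟩ := merge_step hw h0 hxy hle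
      obtain ⟨A', hA'⟩ := ih V' i1 i2 (by omega) w' h1 h2 T (by rw [htot] at h4; exact h4)
      obtain ⟨A, hA⟩ := h5 A'
      exact ⟨A, by rw [hA]; exact hA'⟩
    · push Not at hpos
      have hN1 : 1 ≤ N := by
        by_contra hcon
        have : Fintype.card V = 0 := by omega
        have : IsEmpty V := Fintype.card_eq_zero_iff.mp this
        simp at htot
        omega
      set H : V → V → ℤ := fun u v => if u = v then 0 else w u v - 1 with hHdef
      have hH : Sur H := by
        refine ⟨?_, ?_, ?_⟩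
        · intro u v
          simp only [hHdef, hw u v]
          by_cases h : u = v
          · simp [h]
          · rw [if_neg h, if_neg (fun h' => h h'.symm)]
        · intro v; simp [hHdef]
        · intro u v
          simp only [hHdef]
          split_ifs with h
          · exact le_rfl
          · have := hpos u v h
            omega
      have hwH : ∀ u v, u ≠ v → w u v = H u v + 1 := by
        intro u v huv
        simp only [hHdef, if_neg huv]
        ring
      have hHtot : ∑ u, ∑ v, H u v = 2 * T - N * (N - 1) := by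
        have e1 : ∀ u v, H u v = w u v - 1 + (if u = v then 1 else 0) := by
          intro u v
          simp only [hHdef]
          by_cases h : u = v
          · subst h; simp [h0]
          · simp [h]
        simp_rw [e1]
        simp only [Finset.sum_add_distrib, Finset.sum_sub_distrib, htot, Finset.sum_const,
          Finset.card_univ, hN, nsmul_eq_mul, mul_one, Finset.sum_ite_eq, Finset.mem_univ, if_true]
        ring
      have hHnn : 0 ≤ ∑ u, ∑ v, H u v := Finset.sum_nonneg fun u _ => Finset.sum_nonneg fun v _ =>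
        hH.nn u v
      have htri := tri_cast N hN1
      obtain ⟨q, hq⟩ : ∃ q : ℕ, T = N * (N - 1) / 2 + q := by
        refine ⟨T - N * (N - 1) / 2, ?_⟩
        have : ((N * (N - 1) / 2 : ℕ) : ℤ) ≤ T := by linarith
        have : N * (N - 1) / 2 ≤ T := by exact_mod_cast this
        omega
      have hq2 : ∑ u, ∑ v, H u v = 2 * (q : ℤ) := by
        rw [hHtot]
        have : (T:ℤ) = ((N * (N - 1) / 2 : ℕ) : ℤ) + q := by exact_mod_cast hq
        rw [this]
        linarith
      have hN2 : 2 ≤ N := by
        by_contra hcon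
        have hN1' : N = 1 := by omega
        have hz : ∑ u, ∑ v, w u v = 0 := by
          refine Finset.sum_eq_zero fun u _ => Finset.sum_eq_zero fun v _ => ?_
          have : u = v := by
            have h1 : Fintype.card V ≤ 1 := by omega
            exact Fintype.card_le_one_iff.mp h1 u v
          rw [this, h0]
        rw [hz] at htot
        have : (T:ℤ) = 0 := by linarith
        have : T = 0 := by exact_mod_cast this
        omega
      have hqT : q < T := by
        have h1 : 1 ≤ N * (N - 1) / 2 := by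
          rw [Nat.one_le_div_iff (by norm_num)]
          have : 2 * 1 ≤ N * (N - 1) := Nat.mul_le_mul hN2 (by omega)
          omega
        omega
      -- induction hypothesis for `H`
      obtain ⟨A₀, hA₀⟩ := ihT q hqT V hN H hH.symm hH.diag hq2
      obtain ⟨A, hA⟩ := claim3 hH hwH A₀
      rw [hN] at hA
      by_cases hc1 : (cmin q : ℤ) ≤ ((N + 1) / 2 : ℕ)
      · refine ⟨A, ?_⟩
        have h1 : (cmin q : ℤ) ≤ min (((N + 1) / 2 : ℕ) : ℤ) (wcut H A₀) := le_min hc1 hA₀
        have h2 : cmin T ≤ N * N / 4 + cmin q := by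
          rw [hq]
          exact (cmin_add _ _).trans (Nat.add_le_add_right (cmin_tri N) _)
        have h3 : (cmin T : ℤ) ≤ ((N * N / 4 : ℕ) : ℤ) + cmin q := by exact_mod_cast h2
        linarith
      · push Not at hc1
        by_cases hqN : q ≤ N
        · refine ⟨A, ?_⟩
          have h1 : (((N + 1) / 2 : ℕ) : ℤ) ≤ min (((N + 1) / 2 : ℕ) : ℤ) (wcut H A₀) :=
            le_min le_rfl (hc1.le.trans hA₀)
          have h2 : cmin T ≤ N * N / 4 + (N + 1) / 2 := by
            have h3 : T ≤ (N + 1) * (N + 1 - 1) / 2 := by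
              have h4 := tri_cast (N + 1) (by omega)
              have h4' : (2:ℤ) * (((N + 1) * (N + 1 - 1) / 2 : ℕ) : ℤ) = N * (N + 1) := by
                rw [h4, Nat.cast_add, Nat.cast_one]
                ring
              have h5 : (T:ℤ) ≤ (((N + 1) * (N + 1 - 1) / 2 : ℕ) : ℤ) := by
                have h6 : (T:ℤ) = ((N * (N - 1) / 2 : ℕ) : ℤ) + q := by exact_mod_cast hq
                have h7 : (q:ℤ) ≤ N := by exact_mod_cast hqN
                nlinarith
              exact_mod_cast h5
            refine (cmin_mono h3).trans ((cmin_tri (N + 1)).trans (le_of_eq ?_))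
            rcases Nat.even_or_odd' N with ⟨k, hk | hk⟩
            · subst hk
              have e1 : (2 * k + 1) * (2 * k + 1) / 4 = k * k + k := by
                have : (2 * k + 1) * (2 * k + 1) = 4 * (k * k + k) + 1 := by ring
                omega
              have e2 : 2 * k * (2 * k) / 4 = k * k := by
                have : 2 * k * (2 * k) = 4 * (k * k) := by ring
                omega
              rw [e1, e2]; omega
            · subst hk
              have e1 : (2 * k + 1) * (2 * k + 1) / 4 = k * k + k := by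
                have : (2 * k + 1) * (2 * k + 1) = 4 * (k * k + k) + 1 := by ring
                omega
              have e2 : (2 * k + 1 + 1) * (2 * k + 1 + 1) / 4 = k * k + 2 * k + 1 := by
                have : (2 * k + 1 + 1) * (2 * k + 1 + 1) = 4 * (k * k + 2 * k + 1) := by ring
                omega
              rw [e1, e2]; omega
          have h3 : (cmin T : ℤ) ≤ ((N * N / 4 : ℕ) : ℤ) + (((N + 1) / 2 : ℕ) : ℤ) := by
            exact_mod_cast h2
          linarith
        · rw [hq]
          exact struct_step ih hN hN2 hH hwH h0 hq2 (by omega)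

/-- The weighted Edwards function is at least `c`. -/
theorem main_cut (N : ℕ) : IHN N := by
  induction N with
  | zero => intro V _ _ h; omega
  | succ N ihN =>
    intro V i1 i2 hV w hw h0 h hh
    obtain ⟨T, hT⟩ : ∃ T : ℕ, ∑ u, ∑ v, w u v = 2 * T := by
      have h1 := even_sum_sym hw h0 (univ : Finset V)
      obtain ⟨k, hk⟩ := h1
      refine ⟨k.toNat, ?_⟩
      have : 0 ≤ k := by
        have : (0:ℤ) ≤ h := by positivity
        linarith
      rw [hk, Int.toNat_of_nonneg this]
      ring
    have hhT : h ≤ T := by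
      rw [hT] at hh
      have : (h:ℤ) ≤ T := by linarith
      exact_mod_cast this
    rcases Nat.lt_or_ge (Fintype.card V) N with hlt | hge
    · exact ihN V i1 i2 hlt w hw h0 h hh
    · obtain ⟨A, hA⟩ := vertex_step ihN T V (by omega) w hw h0 hT
      exact ⟨A, le_trans (by exact_mod_cast cmin_mono hhT) hA⟩

theorem cmin_le_weightedCutMin (h : ℕ) : cmin h ≤ weightedCutMin h := by
  obtain ⟨V, i, j, w, hw, h0, hs, hc⟩ := weightedCutMin_mem h
  obtain ⟨A, hA⟩ := main_cut (Fintype.card V + 1) V i j (Nat.lt_succ_self _) w hw h0 h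
    (le_of_eq hs.symm)
  exact_mod_cast hA.trans (hc A)

theorem weightedCutMin_eq_cmin (h : ℕ) : weightedCutMin h = cmin h :=
  le_antisymm ((weightedCutMin_le_cutMin h).trans (cutMin_le_cmin h)) (cmin_le_weightedCutMin h)

theorem cutMin_eq_cmin (h : ℕ) : cutMin h = cmin h :=
  le_antisymm (cutMin_le_cmin h) ((cmin_le_weightedCutMin h).trans (weightedCutMin_le_cutMin h))

end Pool.Agent.BisF
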